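import Pool.Agent.P.MP_59bdab_ag.Sys.Iface
import Pool.Agent.P.MP_59bdab_ag.BLKM
import Pool.Agent.P.MP_59bdab_ag.CNT
import Pool.Agent.P.MP_59bdab_ag.SV

/-! Unfolding over boxes; volumes of ellipsoids. -/

set_option linter.unusedSectionVars false

namespace Pool.Agent.P.MP_59bdab_ag

open Matrix MeasureTheory Filter Topology
open scoped ENNReal ComplexOrder

namespace SyBOX

/-- The translates of `D` by the points `e l` (and by their negatives) tile the group. -/
def Tile {G Λ : Type} [AddCommGroup G] [MeasurableSpace G] (e : Λ → G) (D : Set G) : Prop :=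
  MeasurableSet D ∧ (∀ x, ∑' l, D.indicator (1 : G → ℝ≥0∞) (x + e l) = 1) ∧
    ∀ x, ∑' l, D.indicator (1 : G → ℝ≥0∞) (x - e l) = 1

section abstr

variable {G Λ : Type} [AddCommGroup G] [MeasurableSpace G] [MeasurableAdd₂ G] [Countable Λ]

theorem unfold (μ : Measure G) [μ.IsAddRightInvariant] {e : Λ → G} {D : Set G} (hD : Tile e D)
    {f : G → ℝ≥0∞} (hf : Measurable f) (c : G) :
    ∫⁻ y in D, ∑' l, f (e l + y + c) ∂μ = ∫⁻ x, f x ∂μ := by
  have hI : Measurable (D.indicator (1 : G → ℝ≥0∞)) := measurable_one.indicator hD.1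
  have h1 : ∫⁻ x, f x ∂μ = ∫⁻ x, ∑' l, f (x + c) * D.indicator 1 (x - e l) ∂μ := by
    rw [← lintegral_add_right_eq_self f c]
    refine lintegral_congr fun x => ?_
    rw [ENNReal.tsum_mul_left, hD.2.2 x, mul_one]
  have h2 : ∀ l, ∫⁻ x, f (x + c) * D.indicator 1 (x - e l) ∂μ = ∫⁻ y in D, f (e l + y + c) ∂μ := by
    intro l
    rw [← lintegral_add_right_eq_self (fun x => f (x + c) * D.indicator 1 (x - e l)) (e l),
      ← lintegral_indicator hD.1]
    refine lintegral_congr fun x => ?_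
    by_cases hx : x ∈ D
    · simp [hx, add_comm]
    · simp [hx]
  rw [h1, lintegral_tsum, lintegral_tsum]
  · exact tsum_congr fun l => (h2 l).symm
  · intro l
    refine (Measurable.mul (hf.comp (measurable_add_const c)) ?_).aemeasurable
    simp only [sub_eq_add_neg]
    exact hI.comp (measurable_add_const _)
  · intro l
    exact (hf.comp ((measurable_const_add (e l)).add_const c)).aemeasurable

theorem shift (μ : Measure G) [μ.IsAddRightInvariant] {e : Λ → G} {D : Set G} (hD : Tile e D)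
    {F : G → ℝ≥0∞} (hF : Measurable F) (hper : ∀ l x, F (e l + x) = F x) (c : G) :
    ∫⁻ y in D, F (y + c) ∂μ = ∫⁻ y in D, F y ∂μ := by
  have hI : Measurable (D.indicator (1 : G → ℝ≥0∞)) := measurable_one.indicator hD.1
  have h := unfold μ hD (f := fun x => F x * D.indicator (1 : G → ℝ≥0∞) x) (hF.mul hI) c
  have h1 : ∀ y, ∑' l, F (e l + y + c) * D.indicator (1 : G → ℝ≥0∞) (e l + y + c) = F (y + c) := by
    intro y
    have : ∀ l, F (e l + y + c) * D.indicator (1 : G → ℝ≥0∞) (e l + y + c)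
        = F (y + c) * D.indicator (1 : G → ℝ≥0∞) (y + c + e l) := by
      intro l
      rw [add_assoc, hper, add_comm (e l)]
    simp_rw [this]
    rw [ENNReal.tsum_mul_left, hD.2.1, mul_one]
  simp_rw [h1] at h
  rw [h, ← lintegral_indicator hD.1]
  refine lintegral_congr fun x => ?_
  by_cases hx : x ∈ D
  · simp [hx]
  · simp [hx]

theorem key {E Γ : Type} [AddCommGroup E] [MeasurableSpace E] [MeasurableAdd₂ E] [Countable Γ]
    [AddCommGroup Γ] (μ : Measure G) [μ.IsAddRightInvariant] [SFinite μ]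
    (ν : Measure E) [ν.IsAddRightInvariant] [SFinite ν]
    {e : Λ → G} {D : Set G} (hD : Tile e D) (hD1 : μ D = 1)
    {g : Γ → E} (hg : ∀ a b, g (a + b) = g a + g b) {B : Set E} (hB : Tile g B) (hB1 : ν B = 1)
    {L : G → E} (hL : Measurable L) (hLa : ∀ x y, L (x + y) = L x + L y)
    (hsurj : Function.Surjective L) (hLe : ∀ l, ∃ a, L (e l) = g a)
    {f : E → ℝ≥0∞} (hf : Measurable f) (c : E) :
    ∫⁻ z in D, ∑' a, f (g a + L z + c) ∂μ = ∫⁻ x, f x ∂ν := by
  have hm : Measurable fun p : E × G => ∑' a, f (g a + L p.2 + p.1) :=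
    Measurable.tsum fun a =>
      hf.comp (((hL.comp measurable_snd).const_add (g a)).add measurable_fst)
  have hconst : ∀ y, ∫⁻ z in D, ∑' a, f (g a + L z + y) ∂μ
      = ∫⁻ z in D, ∑' a, f (g a + L z + c) ∂μ := by
    intro y
    obtain ⟨w, hw⟩ := hsurj (y - c)
    have hF : Measurable fun z : G => ∑' a, f (g a + L z + c) :=
      Measurable.tsum fun a => hf.comp ((hL.const_add (g a)).add_const c)
    rw [← shift μ hD hF ?_ w]
    · refine lintegral_congr fun z => tsum_congr fun a => ?_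
      rw [hLa, hw]
      congr 1
      abel
    · intro l x
      obtain ⟨a0, ha0⟩ := hLe l
      rw [← (Equiv.addRight a0).tsum_eq fun a => f (g a + L x + c)]
      refine tsum_congr fun a => ?_
      simp only [Equiv.coe_addRight, hLa, ha0, hg, add_assoc]
  calc ∫⁻ z in D, ∑' a, f (g a + L z + c) ∂μ
      = ∫⁻ y in B, ∫⁻ z in D, ∑' a, f (g a + L z + y) ∂μ ∂ν := by
        simp_rw [hconst]
        rw [setLIntegral_const, hB1, mul_one]
    _ = ∫⁻ z in D, ∫⁻ y in B, ∑' a, f (g a + L z + y) ∂ν ∂μ :=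
        lintegral_lintegral_swap hm.aemeasurable
    _ = ∫⁻ _z in D, ∫⁻ x, f x ∂ν ∂μ := by
        refine lintegral_congr fun z => ?_
        rw [← unfold ν hB hf (L z)]
        refine lintegral_congr fun y => tsum_congr fun a => ?_
        rw [add_right_comm]
    _ = ∫⁻ x, f x ∂ν := by rw [setLIntegral_const, hD1, mul_one]

end abstr

theorem mem_sub (x : ℝ) (m : ℤ) : x - m ∈ Set.Ico (0 : ℝ) 1 ↔ m = ⌊x⌋ := by
  rw [eq_comm, Int.floor_eq_iff, Set.mem_Ico]
  constructor
  · rintro ⟨h1, h2⟩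
    constructor <;> linarith
  · rintro ⟨h1, h2⟩
    constructor <;> linarith

theorem mem_add (x : ℝ) (m : ℤ) : x + m ∈ Set.Ico (0 : ℝ) 1 ↔ m = -⌊x⌋ := by
  have h := mem_sub x (-m)
  rw [Int.cast_neg, sub_neg_eq_add] at h
  rw [h]
  constructor
  · intro h'
    rw [← h', neg_neg]
  · intro h'
    rw [h', neg_neg]

theorem tile_real : Tile (fun m : ℤ => (m : ℝ)) (Set.Ico (0 : ℝ) 1) := by
  refine ⟨measurableSet_Ico, fun x => ?_, fun x => ?_⟩
  · rw [tsum_eq_single (-⌊x⌋)]
    · rw [Set.indicator_of_mem ((mem_add x _).2 rfl), Pi.one_apply]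
    · intro m hm
      exact Set.indicator_of_notMem (fun h => hm ((mem_add x m).1 h)) _
  · rw [tsum_eq_single ⌊x⌋]
    · rw [Set.indicator_of_mem ((mem_sub x _).2 rfl), Pi.one_apply]
    · intro m hm
      exact Set.indicator_of_notMem (fun h => hm ((mem_sub x m).1 h)) _

theorem tile_box (κ : Type) [Fintype κ] : Tile (fun a : κ → ℤ => cz a) (ubox κ) := by
  refine ⟨BLKM.meas_ubox κ, fun x => ?_, fun x => ?_⟩
  · rw [tsum_eq_single (fun i => -⌊x i⌋)]
    · rw [Set.indicator_of_mem, Pi.one_apply]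
      intro i
      exact (mem_add (x i) _).2 rfl
    · intro m hm
      refine Set.indicator_of_notMem (fun h : x + cz m ∈ ubox κ => hm (funext fun i => ?_)) _
      exact (mem_add (x i) (m i)).1 (h i)
  · rw [tsum_eq_single (fun i => ⌊x i⌋)]
    · rw [Set.indicator_of_mem, Pi.one_apply]
      intro i
      exact (mem_sub (x i) _).2 rfl
    · intro m hm
      refine Set.indicator_of_notMem (fun h : x - cz m ∈ ubox κ => hm (funext fun i => ?_)) _
      exact (mem_sub (x i) (m i)).1 (h i)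

theorem vol_Ico : volume (Set.Ico (0 : ℝ) 1) = 1 := by simp

end SyBOX

open SyBOX in
theorem p_BOX :
    S_BOX := by
  refine ⟨fun ν c f hν hf => ?_, fun κ _ ν f hν hf => ?_, fun κ _ a c f ha hf => ?_⟩
  · have hν' : (ν : ℝ) ≠ 0 := Int.cast_ne_zero.2 hν
    have h := key volume volume tile_real vol_Ico (fun a b => Int.cast_add a b) tile_real vol_Ico
      (L := fun X : ℝ => -(ν * X)) (by fun_prop) (fun x y => by ring)
      (fun y => ⟨-(y / ν), by field_simp⟩)
      (fun l => ⟨-(ν * l), by push_cast; ring⟩) hf (-c)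
    simpa only [sub_eq_add_neg] using h
  · have hν' : (ν : ℝ) ≠ 0 := Int.cast_ne_zero.2 hν
    have h := key volume volume (tile_box κ) (BLKM.vol_ubox κ)
      (fun a b => by funext i; simp [cz]) (tile_box κ) (BLKM.vol_ubox κ)
      (L := fun z : κ → ℝ => (ν : ℝ) • z) (by fun_prop) (fun x y => smul_add _ _ _)
      (fun y => ⟨(ν : ℝ)⁻¹ • y, by simp [smul_smul, hν']⟩)
      (fun l => ⟨ν • l, by funext i; simp [cz]⟩) hf 0
    simpa only [add_zero] using h
  · classical
    obtain ⟨j, hj⟩ := Function.ne_iff.1 ha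
    have hj' : (a j : ℝ) ≠ 0 := Int.cast_ne_zero.2 hj
    have h := key volume volume (tile_box κ) (BLKM.vol_ubox κ)
      (fun a b => Int.cast_add a b) tile_real vol_Ico
      (L := fun z : κ → ℝ => -(z ⬝ᵥ cz a))
      (by unfold dotProduct; fun_prop) (fun x y => by rw [add_dotProduct]; ring)
      (fun y => ⟨Pi.single j (-(y / a j)), by
        simp only [single_dotProduct, cz]
        field_simp⟩)
      (fun l => ⟨-(l ⬝ᵥ a), by simp [cz, dotProduct]⟩) hf (-c)
    simpa only [sub_eq_add_neg] using h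

namespace SyELL

theorem meas (n : ℕ) : Measurable (el n) :=
  Measurable.ite measurableSet_Ici (by fun_prop) measurable_const

theorem mono (n : ℕ) : Monotone (el n) := by
  intro a b hab
  unfold el
  split_ifs with h1 h2
  · exact ENNReal.ofReal_le_ofReal (by gcongr)
  · exact absurd (h1.trans hab) h2
  · exact zero_le
  · exact le_rfl

theorem neg (n : ℕ) {R : ℝ} (h : R < 0) : el n R = 0 := if_neg (not_le.2 h)

theorem vol_tr {N : Type} [Fintype N] [DecidableEq N] {P : Matrix N N ℝ} (hP : P.det ^ 2 = 1)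
    {g : ℕ} (hg : Fintype.card N = 2 * g) {R : ℝ} (hR : 0 ≤ R) :
    volume (CNT.tr P ⁻¹' Metric.closedBall 0 √R) = el g R := by
  have h1 : |P.det| = 1 := by rw [← sq_eq_sq₀ (abs_nonneg _) zero_le_one, sq_abs, hP, one_pow]
  have h2 : LinearMap.det (toLin' P) ≠ 0 := by
    rw [LinearMap.det_toLin']
    intro h
    simp [h] at h1
  have h3 := Measure.addHaar_preimage_linearMap volume h2
    (WithLp.toLp 2 ⁻¹' Metric.closedBall (0 : EuclideanSpace ℝ N) √R)
  rw [LinearMap.det_toLin', abs_inv, h1, inv_one, ENNReal.ofReal_one, one_mul,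
    (PiLp.volume_preserving_toLp N).measure_preimage
      measurableSet_closedBall.nullMeasurableSet] at h3
  refine h3.trans ?_
  rw [el, if_pos hR]
  rcases isEmpty_or_nonempty N with h | h
  · have h4 : g = 0 := by
      rw [Fintype.card_eq_zero] at hg
      omega
    rw [volume_euclideanSpace_eq_dirac, Measure.dirac_apply_of_mem (by simp), h4]
    simp
  · rw [InnerProductSpace.volume_closedBall_of_dim_even (k := g) (by simpa using hg),
      finrank_euclideanSpace, hg, ← ENNReal.ofReal_pow (Real.sqrt_nonneg R),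
      ← ENNReal.ofReal_mul (by positivity), pow_mul, Real.sq_sqrt hR, mul_comm]

theorem vol_ell {N : Type} [Fintype N] [DecidableEq N] {Q : Matrix N N ℝ} (hQ : Q.PosDef)
    (hd : Q.det = 1) {g : ℕ} (hg : Fintype.card N = 2 * g) (R : ℝ) :
    volume {x : N → ℝ | x ⬝ᵥ Q *ᵥ x ≤ R} = el g R := by
  obtain ⟨P, -, h1, h2⟩ := CNT.exists_root hQ
  rcases lt_or_ge R 0 with hR | hR
  · rw [neg g hR]
    refine measure_mono_null (fun x hx => ?_) measure_empty
    rw [Set.mem_ofPred_eq, h2] at hx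
    exact absurd (hx.trans_lt hR) (not_lt.2 (Finset.sum_nonneg fun i _ => sq_nonneg _))
  · rw [← vol_tr (h1 ▸ hd) hg hR]
    congr 1
    ext x
    rw [CNT.mem_tr P (Real.sqrt_nonneg R), Real.sq_sqrt hR, Set.mem_ofPred_eq, h2]

theorem three (n : ℕ) (ι : Type) [Fintype ι] [DecidableEq ι] (Q : Matrix (ι ⊕ ι) (ι ⊕ ι) ℝ)
    (R : ℝ) (hn : Fintype.card ι = n) (hQ : Q.PosDef) (hd : Q.det = 1) :
    ∫⁻ b : ι → ℝ, ∫⁻ a : ι → ℝ,
      (Set.Iic R).indicator 1 (Sum.elim a b ⬝ᵥ Q *ᵥ Sum.elim a b) = el n R := by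
  have hm : MeasurableSet {x : ι ⊕ ι → ℝ | x ⬝ᵥ Q *ᵥ x ≤ R} :=
    (isClosed_le (by fun_prop) continuous_const).measurableSet
  have hp := volume_measurePreserving_sumPiEquivProdPi_symm (fun _ : ι ⊕ ι => ℝ)
  rw [← vol_ell hQ hd (g := n) (by rw [Fintype.card_sum, hn, two_mul]) R,
    ← lintegral_indicator_one hm, hp.lintegral_map_equiv, Measure.volume_eq_prod]
  refine Eq.trans ?_
    (lintegral_prod_symm' _ ((measurable_one.indicator hm).comp hp.measurable)).symm
  refine lintegral_congr fun b => lintegral_congr fun a => ?_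
  have e : (MeasurableEquiv.sumPiEquivProdPi (fun _ : ι ⊕ ι => ℝ)).symm (a, b) =
      Sum.elim a b := by
    funext i
    rcases i with i | i <;> rfl
  rw [Function.comp_apply, e]
  rfl

theorem scale (g : ℝ → ℝ≥0∞) {c : ℝ} (hc : 0 < c) :
    ∫⁻ t, g t = ENNReal.ofReal c * ∫⁻ t, g (c * t) := by
  have h := lintegral_map_equiv (μ := volume) g (MeasurableEquiv.mulLeft₀ c hc.ne')
  conv_lhs => rw [← Real.smul_map_volume_mul_left hc.ne']
  rw [lintegral_smul_measure, abs_of_pos hc, smul_eq_mul]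
  congr 1

theorem ofr {f : ℝ → ℝ} (hf : Continuous f) {a b : ℝ} (hab : a ≤ b)
    (h0 : ∀ t ∈ Set.Icc a b, 0 ≤ f t) :
    ∫⁻ t in Set.Icc a b, ENNReal.ofReal (f t) = ENNReal.ofReal (∫ t in a..b, f t) := by
  rw [intervalIntegral.integral_of_le hab, ← integral_Icc_eq_integral_Ioc,
    ofReal_integral_eq_lintegral_ofReal hf.integrableOn_Icc
      (ae_restrict_of_forall_mem measurableSet_Icc h0)]

theorem sq1 {t : ℝ} (ht : t ∈ Set.Icc (-1 : ℝ) 1) : 0 ≤ 1 - t ^ 2 := by
  nlinarith [ht.1, ht.2]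

theorem six (n : ℕ) : 0 ≤ bv n :=
  mul_nonneg (by positivity) (intervalIntegral.integral_nonneg (by norm_num)
    fun _ ht => pow_nonneg (sq1 ht) n)

theorem four (n : ℕ) (A q : ℝ) (hq : 0 < q) : ∫⁻ t : ℝ, el n (A - q * t ^ 2) =
    ENNReal.ofReal (bv n * max A 0 ^ (((n + 1 : ℕ) : ℝ) - 1 / 2) / √q) := by
  have he : ((n + 1 : ℕ) : ℝ) - 1 / 2 = n + 1 / 2 := by push_cast; ring
  rw [he]
  rcases le_or_gt A 0 with hA | hA
  · rw [max_eq_right hA, Real.zero_rpow (by positivity), mul_zero, zero_div, ENNReal.ofReal_zero]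
    refine lintegral_eq_zero_of_ae_eq_zero ?_
    filter_upwards [Measure.ae_ne volume (0 : ℝ)] with t ht
    have : 0 < q * t ^ 2 := by positivity
    exact neg n (by linarith)
  · have hc : 0 < √A / √q := by positivity
    have e1 : ∀ t : ℝ, el n (A - q * (√A / √q * t) ^ 2) = (Set.Icc (-1 : ℝ) 1).indicator
        (fun t => ENNReal.ofReal (Real.pi ^ n / n.factorial * A ^ n * (1 - t ^ 2) ^ n)) t := by
      intro t
      have e : A - q * (√A / √q * t) ^ 2 = A * (1 - t ^ 2) := by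
        rw [mul_pow, div_pow, Real.sq_sqrt hA.le, Real.sq_sqrt hq.le]
        field_simp
      rw [e]
      by_cases ht : t ∈ Set.Icc (-1 : ℝ) 1
      · rw [Set.indicator_of_mem ht, el, if_pos (mul_nonneg hA.le (sq1 ht)), mul_pow, mul_assoc]
      · rw [Set.indicator_of_notMem ht]
        refine neg n (mul_neg_of_pos_of_neg hA ?_)
        by_contra h
        exact ht (abs_le.1 ((sq_le_one_iff_abs_le_one t).1 (by linarith)))
    rw [scale _ hc]
    simp only [e1]
    rw [lintegral_indicator measurableSet_Icc, ofr (by fun_prop) (by norm_num)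
      (fun t ht => mul_nonneg (by positivity) (pow_nonneg (sq1 ht) n)),
      ← ENNReal.ofReal_mul hc.le, intervalIntegral.integral_const_mul, max_eq_left hA.le,
      Real.rpow_add hA, Real.rpow_natCast, ← Real.sqrt_eq_rpow, bv]
    congr 1
    ring

theorem rad (n : ℕ) (A : ℝ) :
    (∫⁻ r in Set.Ioi (0 : ℝ), ENNReal.ofReal r * el n (A - r ^ 2)) *
      ENNReal.ofReal (2 * Real.pi) = el (n + 1) A := by
  rcases lt_or_ge A 0 with hA | hA
  · rw [neg _ hA, lintegral_congr fun r => by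
      rw [neg n (by nlinarith [sq_nonneg r]), mul_zero], lintegral_zero, zero_mul]
  · have e1 : ∀ r ∈ Set.Ici (0 : ℝ), ENNReal.ofReal r * el n (A - r ^ 2) =
        (Set.Icc 0 √A).indicator (fun r => ENNReal.ofReal
          (r * (Real.pi ^ n / n.factorial * (A - r ^ 2) ^ n))) r := by
      intro r hr
      by_cases h : r ∈ Set.Icc 0 √A
      · rw [Set.indicator_of_mem h, el, if_pos (sub_nonneg.2 ((Real.le_sqrt hr hA).1 h.2)),
          ENNReal.ofReal_mul hr]
      · rw [Set.indicator_of_notMem h, neg, mul_zero]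
        by_contra h'
        exact h ⟨hr, (Real.le_sqrt hr hA).2 (by linarith)⟩
    have e2 : ∫ r in (0 : ℝ)..√A, r * (Real.pi ^ n / n.factorial * (A - r ^ 2) ^ n) =
        Real.pi ^ n / n.factorial * A ^ (n + 1) / (2 * (n + 1)) := by
      rw [intervalIntegral.integral_eq_sub_of_hasDerivAt
        (f := fun r => -(Real.pi ^ n / n.factorial * (A - r ^ 2) ^ (n + 1) / (2 * (n + 1))))
        (fun r _ => ?_) (Continuous.intervalIntegrable (by fun_prop) _ _), Real.sq_sqrt hA]
      · simp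
      · refine ((((((hasDerivAt_id r).pow 2).const_sub A).pow (n + 1)).const_mul
          (Real.pi ^ n / n.factorial)).div_const (2 * (n + 1))).neg.congr_deriv ?_
        simp only [id, Nat.add_sub_cancel, Pi.pow_apply]
        push_cast
        field_simp
    rw [setLIntegral_congr Ioi_ae_eq_Ici, setLIntegral_congr_fun measurableSet_Ici e1,
      lintegral_indicator measurableSet_Icc, Measure.restrict_restrict measurableSet_Icc,
      Set.inter_eq_left.2 Set.Icc_subset_Ici_self, ofr (by fun_prop) (Real.sqrt_nonneg A)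
        (fun r h => mul_nonneg h.1 (mul_nonneg (by positivity)
          (pow_nonneg (sub_nonneg.2 ((Real.le_sqrt h.1 hA).1 h.2)) n))), e2,
      ← ENNReal.ofReal_mul (by positivity), el, if_pos hA]
    congr 1
    rw [Nat.factorial_succ]
    push_cast
    field_simp
    ring

theorem five (n : ℕ) (A q : ℝ) (hq : 0 < q) :
    ∫⁻ x : ℝ, ∫⁻ t : ℝ, el n (A - x ^ 2 / q - q * t ^ 2) = el (n + 1) A := by
  have hc : 0 < √q := by positivity
  have e1 : ∀ x : ℝ, ∫⁻ t : ℝ, el n (A - (√q * x) ^ 2 / q - q * t ^ 2) =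
      ENNReal.ofReal (√q)⁻¹ * ∫⁻ t : ℝ, el n (A - x ^ 2 - t ^ 2) := by
    intro x
    rw [scale _ (inv_pos.2 hc)]
    congr 1
    refine lintegral_congr fun t => ?_
    congr 1
    rw [mul_pow, mul_pow, inv_pow, Real.sq_sqrt hq.le]
    field_simp
  have hm := meas n
  rw [scale _ hc]
  simp only [e1]
  rw [lintegral_const_mul' _ _ ENNReal.ofReal_ne_top, ← mul_assoc, ← ENNReal.ofReal_mul hc.le,
    mul_inv_cancel₀ hc.ne', ENNReal.ofReal_one, one_mul,
    ← lintegral_prod (fun p : ℝ × ℝ => el n (A - p.1 ^ 2 - p.2 ^ 2)) (by fun_prop),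
    ← Measure.volume_eq_prod, ← lintegral_comp_polarCoord_symm, ← rad]
  have e2 : ∀ p : ℝ × ℝ, ENNReal.ofReal p.1 •
      el n (A - (polarCoord.symm p).1 ^ 2 - (polarCoord.symm p).2 ^ 2) =
      ENNReal.ofReal p.1 * el n (A - p.1 ^ 2) := by
    intro p
    rw [smul_eq_mul, polarCoord_symm_apply]
    congr 2
    linear_combination (-p.1 ^ 2) * Real.cos_sq_add_sin_sq p.2
  simp only [e2]
  rw [show polarCoord.target = Set.Ioi (0 : ℝ) ×ˢ Set.Ioo (-Real.pi) Real.pi from rfl,
    Measure.volume_eq_prod, setLIntegral_prod _ (by fun_prop),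
    ← lintegral_mul_const' _ _ ENNReal.ofReal_ne_top]
  refine lintegral_congr fun r => ?_
  simp only [lintegral_const, Measure.restrict_apply_univ, Real.volume_Ioo]
  congr 2
  ring

end SyELL

theorem p_ELL :
    S_ELL := fun n =>
  ⟨SyELL.meas n, SyELL.mono n, SyELL.three n, SyELL.four n, SyELL.five n, SyELL.six n⟩

namespace SyEI

/-- A continuous form of the integrand. -/
noncomputable def gg (n : ℕ) (a q : ℝ) : ℝ :=
  (q ^ 2 - a ^ 2) ^ (((n + 1 : ℕ) : ℝ) - 1 / 2) / max q 1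

lemma pos (n : ℕ) : 0 < ((n + 1 : ℕ) : ℝ) - 1 / 2 := by
  push_cast
  linarith [n.cast_nonneg (α := ℝ)]

lemma cont (n : ℕ) (a : ℝ) : Continuous (gg n a) :=
  ((Real.continuous_rpow_const (pos n).le).comp (by fun_prop)).div (by fun_prop)
    fun q => (one_pos.trans_le (le_max_right q 1)).ne'

lemma nn (n : ℕ) {a q : ℝ} (ha : 0 ≤ a) (h : a ≤ q) : 0 ≤ gg n a q :=
  div_nonneg (Real.rpow_nonneg (by nlinarith) _) (zero_le_one.trans (le_max_right q 1))

lemma mem {a : ℕ} {s : ℝ} (h : a ∈ Finset.Icc 1 ⌊s⌋₊) : (1 : ℝ) ≤ a ∧ (a : ℝ) ≤ s := by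
  obtain ⟨h1, h2⟩ := Finset.mem_Icc.1 h
  exact ⟨by exact_mod_cast h1, (Nat.le_floor_iff' (by omega)).1 h2⟩

lemma eq (n : ℕ) (s : ℝ) :
    esum n s = ∑ a ∈ Finset.Icc 1 ⌊s⌋₊, ∫ q in (a : ℝ)..s, bv n * gg n a q := by
  rw [esum, Finset.mul_sum]
  refine Finset.sum_congr rfl fun a ha => ?_
  rw [intervalIntegral.integral_const_mul]
  congr 1
  refine intervalIntegral.integral_congr fun q hq => ?_
  rw [Set.uIcc_of_le (mem ha).2] at hq
  rw [gg, max_eq_left ((mem ha).1.trans hq.1)]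

lemma pt (n : ℕ) (b : ℝ) {a q : ℝ} (ha : 1 ≤ a) (h : a < q) :
    q ^ n * (b * max (q - a ^ 2 / q) 0 ^ (((n + 1 : ℕ) : ℝ) - 1 / 2) / √q) = b * gg n a q := by
  have hq : 0 < q := by linarith
  have h1 : 0 ≤ q ^ 2 - a ^ 2 := by nlinarith
  have h2 : q ^ (((n + 1 : ℕ) : ℝ) - 1 / 2) * √q = q ^ n * q := by
    rw [Real.sqrt_eq_rpow, ← Real.rpow_add hq, sub_add_cancel, Real.rpow_natCast, pow_succ]
  rw [show q - a ^ 2 / q = (q ^ 2 - a ^ 2) / q by field_simp, max_eq_left (div_nonneg h1 hq.le),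
    Real.div_rpow h1 hq.le, gg, max_eq_left (ha.trans h.le), mul_div_assoc, div_div, h2]
  field_simp

end SyEI

open SyEI in
theorem p_EI (hELL : S_ELL) :
    S_EI := by
  intro n s
  obtain ⟨-, -, -, h4, -, h6⟩ := hELL n
  have hc : ∀ a : ℝ, Continuous fun q => bv n * gg n a q := fun a => (cont n a).const_mul _
  have h0 : ∀ a ∈ Finset.Icc 1 ⌊s⌋₊, 0 ≤ ∫ q in (a : ℝ)..s, bv n * gg n a q := fun a ha =>
    intervalIntegral.integral_nonneg (mem ha).2 fun q hq =>
      mul_nonneg h6 (nn n a.cast_nonneg hq.1)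
  refine ⟨eq n s ▸ Finset.sum_nonneg h0, ?_, ?_⟩
  · refine (continuous_finsetSum (Finset.Icc 1 ⌊s⌋₊) fun a _ =>
      intervalIntegral.continuous_primitive (μ := volume) (fun _ _ => (hc a).intervalIntegrable _ _)
        (a : ℝ)).continuousWithinAt.congr_of_eventuallyEq ?_ (eq n s)
    filter_upwards [Ico_mem_nhdsGE (Nat.lt_floor_add_one s)] with t ht
    have h1 : ⌊t⌋₊ < ⌊s⌋₊ + 1 := (Nat.floor_lt' (by omega)).2 (by exact_mod_cast ht.2)
    rw [eq, le_antisymm (Nat.lt_succ_iff.1 h1) (Nat.floor_mono ht.1)]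
  rw [eq, ENNReal.ofReal_sum_of_nonneg h0]
  refine Finset.sum_congr rfl fun a ha => ?_
  obtain ⟨a1, a2⟩ := mem ha
  rw [intervalIntegral.integral_of_le a2, ofReal_integral_eq_lintegral_ofReal
    ((hc a).integrableOn_Icc.mono_set Set.Ioc_subset_Icc_self)
    ((ae_restrict_iff' measurableSet_Ioc).2 (.of_forall fun q hq =>
      mul_nonneg h6 (nn n a.cast_nonneg hq.1.le))),
    ← lintegral_indicator measurableSet_Ioc, ← lintegral_indicator measurableSet_Ioi]
  refine lintegral_congr fun q => ?_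
  by_cases hq : q ∈ Set.Ioc (a : ℝ) s
  · have q0 : 0 < q := by linarith [hq.1]
    rw [Set.indicator_of_mem hq, Set.indicator_of_mem (Set.mem_Ioi.2 q0),
      Set.indicator_of_mem (Set.mem_Iic.2 hq.2), h4 _ _ q0, Pi.one_apply, one_mul,
      ← ENNReal.ofReal_mul (by positivity), Int.cast_natCast, pt n _ a1 hq.1]
  rw [Set.indicator_of_notMem hq]
  refine Set.indicator_apply_eq_zero.2 fun q0 => ?_
  rcases not_and_or.1 hq with h | h
  · have h1 : q - (a : ℝ) ^ 2 / q ≤ 0 := by
      have q1 : 0 < q := q0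
      rw [sub_nonpos, le_div_iff₀ q1]
      nlinarith [not_lt.1 h]
    rw [h4 _ _ q0, Int.cast_natCast, max_eq_right h1, Real.zero_rpow (pos n).ne']
    simp
  · rw [Set.indicator_of_notMem (show q ∉ Set.Iic s from h), zero_mul, zero_mul]

namespace SyRS

/-- A sum over the integers against an integral, for an even decreasing function. -/
theorem sum_le (F : ℝ → ℝ≥0∞) (hF : ∀ x y : ℝ, x ^ 2 ≤ y ^ 2 → F y ≤ F x) :
    ∑' ν : ℤ, F ν ≤ F 0 + ∫⁻ x, F x := by
  classical
  let ψ : ℤ → ℤ := fun k => if 0 ≤ k then k + 1 else k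
  have hinj : Function.Injective ψ := fun a b h => by
    simp only [ψ] at h
    split_ifs at h <;> omega
  have h0 : ∀ k, ψ k ≠ 0 := fun k => by
    simp only [ψ]
    split_ifs <;> omega
  have hsup : Function.support (fun ν : ℤ => if ν = 0 then 0 else F ν) ⊆ Set.range ψ := by
    intro ν hν
    have hν0 : ν ≠ 0 := fun e => hν (by simp [e])
    by_cases h : 0 < ν
    · exact ⟨ν - 1, by simp only [ψ]; split_ifs <;> omega⟩
    · exact ⟨ν, by simp only [ψ]; split_ifs <;> omega⟩
  rw [ENNReal.tsum_eq_add_tsum_ite (0 : ℤ), Int.cast_zero]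
  refine add_le_add le_rfl (le_trans (le_of_eq ?_) ((hinj.tsum_eq hsup).symm.le.trans ?_))
  · exact tsum_congr fun ν => by congr
  rw [← setLIntegral_univ, ← iUnion_Ico_intCast ℝ,
    lintegral_iUnion (fun _ => measurableSet_Ico) (Set.pairwise_disjoint_Ico_intCast ℝ)]
  refine ENNReal.tsum_le_tsum fun k => ?_
  rw [if_neg (h0 k)]
  calc F (ψ k) = ∫⁻ _ in Set.Ico (k : ℝ) (k + 1), F (ψ k) := by simp
    _ ≤ _ := setLIntegral_mono' measurableSet_Ico fun x hx => hF _ _ (by
      obtain ⟨h1, h2⟩ := hx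
      simp only [ψ]
      split_ifs with h
      · have : (0 : ℝ) ≤ k := by exact_mod_cast h
        push_cast
        nlinarith
      · have : (k : ℝ) + 1 ≤ 0 := by exact_mod_cast (by omega : k + 1 ≤ 0)
        nlinarith)

theorem int_rpow (n : ℕ) {b c : ℝ} (hb : 0 ≤ b) (hc : 0 ≤ c) :
    ∫⁻ q in Set.Ioi (0 : ℝ), (Set.Iic b).indicator 1 q * ENNReal.ofReal (q ^ n) *
      ENNReal.ofReal (c / √q) = ENNReal.ofReal (c * (b ^ ((n : ℝ) + 1 / 2) / (n + 1 / 2))) := by
  have hn : (-1 : ℝ) < (n : ℝ) - 1 / 2 := by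
    have : (0 : ℝ) ≤ n := n.cast_nonneg
    linarith
  have h1 : ∀ q ∈ Set.Ioi (0 : ℝ), (Set.Iic b).indicator (1 : ℝ → ℝ≥0∞) q * ENNReal.ofReal (q ^ n) *
      ENNReal.ofReal (c / √q) =
      (Set.Iic b).indicator (fun q => ENNReal.ofReal (c * q ^ ((n : ℝ) - 1 / 2))) q := by
    intro q hq
    have hq' : 0 < q := hq
    by_cases h : q ∈ Set.Iic b
    · rw [Set.indicator_of_mem h, Set.indicator_of_mem h, Pi.one_apply, one_mul,
        ← ENNReal.ofReal_mul (by positivity), Real.rpow_sub hq', Real.rpow_natCast,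
        Real.sqrt_eq_rpow]
      congr 1
      ring
    · simp [h]
  have h2 : IntervalIntegrable (fun q : ℝ => c * q ^ ((n : ℝ) - 1 / 2)) volume 0 b :=
    (intervalIntegral.intervalIntegrable_rpow' hn).const_mul c
  rw [setLIntegral_congr_fun measurableSet_Ioi h1, lintegral_indicator measurableSet_Iic,
    Measure.restrict_restrict measurableSet_Iic, Set.Iic_inter_Ioi,
    ← ofReal_integral_eq_lintegral_ofReal h2.1
      ((ae_restrict_iff' measurableSet_Ioc).2 (ae_of_all _ fun q hq =>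
        mul_nonneg hc (Real.rpow_nonneg hq.1.le _))),
    ← intervalIntegral.integral_of_le hb, intervalIntegral.integral_const_mul,
    integral_rpow (Or.inl hn), Real.zero_rpow (by linarith), sub_zero]
  congr 3 <;> ring_nf

end SyRS

theorem p_RS (hELL : S_ELL) :
    S_RS := by
  intro n s hs
  obtain ⟨hm, hmono, -, h4, h5, hb⟩ := hELL n
  have hmeas : ∀ ν : ℤ, Measurable fun q : ℝ => (Set.Iio s).indicator (1 : ℝ → ℝ≥0∞) q *
      ENNReal.ofReal (q ^ n) * ∫⁻ t : ℝ, el n (s - ν ^ 2 / q - q * t ^ 2) := fun ν =>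
    ((measurable_one.indicator measurableSet_Iio).mul (by fun_prop)).mul
      (Measurable.lintegral_prod_right' (f := fun p : ℝ × ℝ =>
        el n (s - ν ^ 2 / p.1 - p.1 * p.2 ^ 2)) (hm.comp (by fun_prop)))
  rw [← lintegral_tsum fun ν => (hmeas ν).aemeasurable]
  set c : ℝ := bv n * s ^ (((n + 1 : ℕ) : ℝ) - 1 / 2) with hc
  have hc0 : 0 ≤ c := mul_nonneg hb (Real.rpow_nonneg hs.le _)
  have key : ∀ q ∈ Set.Ioi (0 : ℝ), ∑' ν : ℤ, (Set.Iio s).indicator (1 : ℝ → ℝ≥0∞) q *
      ENNReal.ofReal (q ^ n) * ∫⁻ t : ℝ, el n (s - ν ^ 2 / q - q * t ^ 2) ≤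
      (Set.Iic s).indicator (1 : ℝ → ℝ≥0∞) q * ENNReal.ofReal (q ^ n) * el (n + 1) s +
        (Set.Iic s).indicator (1 : ℝ → ℝ≥0∞) q * ENNReal.ofReal (q ^ n) *
          ENNReal.ofReal (c / √q) := by
    intro q hq
    have hq' : 0 < q := hq
    rw [ENNReal.tsum_mul_left, ← mul_add]
    refine mul_le_mul' (mul_le_mul' ?_ le_rfl) ?_
    · exact Set.indicator_le_indicator_of_subset Set.Iio_subset_Iic_self (fun _ => zero_le) q
    · have := SyRS.sum_le (fun x => ∫⁻ t : ℝ, el n (s - x ^ 2 / q - q * t ^ 2)) fun x y h =>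
        lintegral_mono fun t => hmono (by
          have := div_le_div_of_nonneg_right h hq'.le
          linarith)
      refine this.trans (le_of_eq ?_)
      rw [h5 s q hq', add_comm, h4 _ q hq']
      simp only [ne_eq, OfNat.ofNat_ne_zero, not_false_eq_true, zero_pow, zero_div, sub_zero]
      rw [max_eq_left hs.le]
  have hmi : Measurable fun q : ℝ => (Set.Iic s).indicator (1 : ℝ → ℝ≥0∞) q *
      ENNReal.ofReal (q ^ n) := (measurable_one.indicator measurableSet_Iic).mul (by fun_prop)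
  refine (setLIntegral_mono' measurableSet_Ioi key).trans (le_of_eq ?_)
  rw [lintegral_add_left (hmi.mul_const _), lintegral_mul_const _ hmi, SV.int_pow n hs.le,
    SyRS.int_rpow n hs.le hc0, el, if_pos hs.le, ← ENNReal.ofReal_mul (by positivity),
    ← ENNReal.ofReal_add (by positivity) (by positivity)]
  congr 2
  rw [hc, mul_assoc, ← mul_div_assoc, ← Real.rpow_add hs, ← mul_div_assoc, ← Real.rpow_natCast]
  congr 3
  push_cast
  ring

end Pool.Agent.P.MP_59bdab_ag
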