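import Pool.Agent.P.MP_59bdab_ag.Sys.Iface
import Pool.Agent.P.MP_59bdab_ag.BLKM
import Pool.Agent.P.MP_59bdab_ag.UNF1
import Pool.Agent.P.MP_59bdab_ag.SV

/-! Block coordinates; counting along fibres. -/

set_option linter.unusedSectionVars false

namespace Pool.Agent.P.MP_59bdab_ag

open Matrix MeasureTheory Filter Topology
open scoped ENNReal ComplexOrder

namespace SyBLK2

open BLKM

variable {ι : Type} [Fintype ι] [DecidableEq ι]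

/-- The column of a function of two indices. -/
def cl (y : ι × Fin 1 → ℝ) : ι → ℝ := fun a => y (a, 0)

theorem int_cl (F : (ι → ℝ) → ℝ≥0∞) : ∫⁻ y : ι × Fin 1 → ℝ, F (cl y) = ∫⁻ v, F v :=
  ((volume_preserving_arrowCongr' (Equiv.prodUnique ι (Fin 1)) (MeasurableEquiv.refl ℝ)
    (MeasurePreserving.id _)).lintegral_map_equiv F _).symm

theorem int_sym (F : ℝ → ℝ≥0∞) : ∫⁻ X : Sym2 (Fin 1) → ℝ, F (X s(0, 0)) = ∫⁻ v, F v := by
  rw [(volume_preserving_funUnique (Sym2 (Fin 1)) ℝ).lintegral_map_equiv F _,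
    Subsingleton.elim (Unique.fintype : Fintype (Sym2 (Fin 1))) inferInstance]
  exact lintegral_congr fun q => congrArg F (congrArg q (Subsingleton.elim _ _))

theorem int_inv {A : Matrix ι ι ℝ} (hA : A.PosDef) {F : (ι → ℝ) → ℝ≥0∞} (hF : Measurable F) :
    ∫⁻ v, F (A⁻¹ *ᵥ v) = ENNReal.ofReal A.det * ∫⁻ v, F v := by
  have h := lintegral_map (μ := volume) hF
    (Matrix.toLin' A⁻¹).continuous_of_finiteDimensional.measurable
  rw [Real.map_matrix_volume_pi_eq_smul_volume_pi hA.inv.det_pos.ne', lintegral_smul_measure,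
    det_nonsing_inv, Ring.inverse_eq_inv', inv_inv, abs_of_pos hA.det_pos] at h
  exact h.symm

/-- The coordinates on the ambient space. -/
noncomputable def co (z : Sym2 (ι ⊕ Fin 1) → ℂ) :
    (Sym2 ι → ℂ) × ℝ × (ι → ℝ) × (ι → ℝ) × ℝ :=
  (ul z, (imM z)⁻¹.toBlocks₂₂ 0 0, fun a => ((imM (ul z))⁻¹ * (imM z).toBlocks₁₂) a 0,
    fun a => ((reM z).toBlocks₁₂ - reM (ul z) * ((imM (ul z))⁻¹ * (imM z).toBlocks₁₂)) a 0,
    (reM z).toBlocks₂₂ 0 0)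

theorem meas_co : Measurable (co (ι := ι)) := by
  have c1 : Continuous fun z : Sym2 (ι ⊕ Fin 1) → ℂ => imM (ul z) := cont_imM.comp cont_ul
  have c2 : Continuous fun z : Sym2 (ι ⊕ Fin 1) → ℂ => reM (ul z) := cont_reM.comp cont_ul
  have h1 := meas_mul (meas_inv c1) (N := fun z => (imM z).toBlocks₁₂) fun i (j : Fin 1) =>
    (cont_imM.matrix_elem (Sum.inl i) (Sum.inr j)).measurable
  have h2 := meas_mul (fun i j => (c2.matrix_elem i j).measurable) h1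
  exact cont_ul.measurable.prodMk ((meas_inv cont_imM (Sum.inr 0) (Sum.inr 0)).prodMk
    ((measurable_pi_lambda _ fun a => h1 a 0).prodMk ((measurable_pi_lambda _ fun a =>
      (cont_reM.matrix_elem (Sum.inl a) (Sum.inr 0)).measurable.sub (h2 a 0)).prodMk
      (cont_reM.matrix_elem (Sum.inr 0) (Sum.inr 0)).measurable)))

theorem point (hASM : S_ASM) (G : (Sym2 ι → ℂ) × ℝ × (ι → ℝ) × (ι → ℝ) × ℝ → ℝ≥0∞) (n : ℕ)
    {τ : Sym2 ι → ℂ} (hτ : τ ∈ HS ι) (x y : ι × Fin 1 → ℝ) (X Y : Sym2 (Fin 1) → ℝ) :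
    (HS (ι ⊕ Fin 1)).indicator (fun z => ENNReal.ofReal (((imM z).det ^ n)⁻¹) * G (co z))
      (asm τ x y X Y) =
    ENNReal.ofReal (((imM τ).det ^ n)⁻¹) * gg (fun q => G (τ, q s(0, 0), (imM τ)⁻¹ *ᵥ cl y,
      cl x - reM τ *ᵥ ((imM τ)⁻¹ *ᵥ cl y), X s(0, 0))) n
      (Y - coord ((mx y)ᵀ * (imM τ)⁻¹ * mx y)) := by
  obtain ⟨h1, h2, h3⟩ := (hASM ι (Fin 1)).2.1 τ x y X Y
  have e1 : reM (asm τ x y X Y) = fromBlocks (reM τ) (mx x) (mx x)ᵀ (mat X) := h1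
  have e2 : imM (asm τ x y X Y) = fromBlocks (imM τ) (mx y) (mx y)ᵀ (mat Y) := h2
  have e3 : ul (asm τ x y X Y) = τ := h3
  have hA : (imM τ).PosDef := hτ
  have e4 : mat (Y - coord ((mx y)ᵀ * (imM τ)⁻¹ * mx y)) =
      mat Y - (mx y)ᵀ * (imM τ)⁻¹ * mx y := by
    rw [mat_sub, mat_coord]
    rw [transpose_mul, transpose_mul, transpose_transpose, transpose_nonsing_inv, imM,
      mat_transpose, Matrix.mul_assoc]
  obtain ⟨s1, s2, s3⟩ := schur hA (mx y) (mat Y)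
  rw [← e2, ← e4] at s1 s2 s3
  by_cases h : (mat (Y - coord ((mx y)ᵀ * (imM τ)⁻¹ * mx y))).PosDef
  · rw [Set.indicator_of_mem (show asm τ x y X Y ∈ HS _ from s2.2 h), gg,
      Set.indicator_of_mem (show _ ∈ PD (Fin 1) from h), co, s1, s3 h, e3, e1, e2,
      toBlocks_fromBlocks₁₂, toBlocks_fromBlocks₁₂, toBlocks_fromBlocks₂₂, mul_pow, mul_inv,
      ENNReal.ofReal_mul (inv_nonneg.2 (pow_nonneg hA.det_pos.le _)), coord_mk, add_self_div_two,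
      mul_assoc]
    rfl
  · rw [Set.indicator_of_notMem (fun h' : asm τ x y X Y ∈ HS _ => h (s2.1 h')), gg,
      Set.indicator_of_notMem (show _ ∉ PD (Fin 1) from h), mul_zero]

theorem int_gg2 {α β : Type} [MeasureSpace α] [MeasureSpace β]
    (b : α → β → (Sym2 (Fin 1) → ℝ) → ℝ≥0∞) (n : ℕ) (t : Sym2 (Fin 1) → ℝ) :
    ∫⁻ x, ∫⁻ X, gg (b x X) n t = gg (fun q => ∫⁻ x, ∫⁻ X, b x X q) n t := by
  by_cases h : t ∈ PD (Fin 1)
  · simp only [gg, Set.indicator_of_mem h, lintegral_const_mul' _ _ ENNReal.ofReal_ne_top]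
  · simp only [gg, Set.indicator_of_notMem h, lintegral_zero]

end SyBLK2

open BLKM SyBLK2 in
theorem p_BLK2 (hASM : S_ASM) (hINV : S_INV) (hMEAS : S_MEAS) (hQ : S_Q) :
    S_BLK2 := by
  intro ι _ _ G hG
  have hE := (MeasurableEmbedding.subtype_coe (isOpen_HS ι).measurableSet).prodMap
    (MeasurableEquiv.refl (ℝ × (ι → ℝ) × (ι → ℝ) × ℝ)).measurableEmbedding
  obtain ⟨G', hG', e0⟩ : ∃ G' : (Sym2 ι → ℂ) × ℝ × (ι → ℝ) × (ι → ℝ) × ℝ → ℝ≥0∞,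
      Measurable G' ∧ ∀ (Z : HH ι) r, G (Z, r) = G' (Z.1, r) :=
    ⟨_, hE.measurable_extend hG measurable_zero,
      fun Z r => (hE.injective.extend_apply _ _ (Z, r)).symm⟩
  have e1 : ∀ Z : HH (ι ⊕ Fin 1), qf (Qm Z) (ev (Sum.inr 0)) = (imM Z.1)⁻¹.toBlocks₂₂ 0 0 :=
    fun Z => congrFun (congrFun (gram_eq Z) 0) 0
  have hd : ∀ (ι : Type) [Fintype ι] [DecidableEq ι] (n : ℕ),
      Measurable fun z : Sym2 ι → ℂ => ENNReal.ofReal (((imM z).det ^ n)⁻¹) := fun ι _ _ n =>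
    (cont_imM.matrix_det.measurable.pow_const n).inv.ennreal_ofReal
  have hK : Measurable fun a : (Sym2 ι → ℂ) × ℝ × (ι → ℝ) =>
      ∫⁻ η, ∫⁻ X, G' (a.1, a.2.1, a.2.2, η, X) :=
    Measurable.lintegral_prod_right' (f := fun b : ((Sym2 ι → ℂ) × ℝ × (ι → ℝ)) × (ι → ℝ) =>
      ∫⁻ X, G' (b.1.1, b.1.2.1, b.1.2.2, b.2, X)) (Measurable.lintegral_prod_right'
        (f := fun c : (((Sym2 ι → ℂ) × ℝ × (ι → ℝ)) × (ι → ℝ)) × ℝ =>
          G' (c.1.1.1, c.1.1.2.1, c.1.1.2.2, c.1.2, c.2)) (hG'.comp (by fun_prop)))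
  obtain ⟨K, eK⟩ : ∃ K : (Sym2 ι → ℂ) × ℝ × (ι → ℝ) → ℝ≥0∞, K = fun a =>
    ∫⁻ η, ∫⁻ X, G' (a.1, a.2.1, a.2.2, η, X) := ⟨_, rfl⟩
  have eK' : ∀ τ q ξ, ∫⁻ η, ∫⁻ X, G' (τ, q, ξ, η, X) = K (τ, q, ξ) := fun _ _ _ => by rw [eK]
  rw [← eK] at hK
  have hp : Measurable fun q : ℝ => ENNReal.ofReal (q ^ Fintype.card ι) := by fun_prop
  have hL : Measurable fun τ : Sym2 ι → ℂ => ∫⁻ q in Set.Ioi (0 : ℝ),
      ENNReal.ofReal (q ^ Fintype.card ι) * ∫⁻ ξ, K (τ, q, ξ) :=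
    Measurable.lintegral_prod_right' (f := fun b : (Sym2 ι → ℂ) × ℝ =>
      ENNReal.ofReal (b.2 ^ Fintype.card ι) * ∫⁻ ξ, K (b.1, b.2, ξ))
      ((hp.comp measurable_snd).mul (Measurable.lintegral_prod_right'
        (f := fun c : ((Sym2 ι → ℂ) × ℝ) × (ι → ℝ) => K (c.1.1, c.1.2, c.2))
        (hK.comp (by fun_prop))))
  simp only [e0, e1, eK']
  refine ((hMEAS _).2.2.2.2.2.2.1 _ (hG'.comp meas_co)).trans ?_
  rw [(hMEAS _).2.2.2.2.2.2.1 _ hL, ← lintegral_indicator (isOpen_HS _).measurableSet,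
    ← lintegral_indicator (isOpen_HS _).measurableSet, Fintype.card_sum]
  refine ((hASM ι (Fin 1)).2.2 _ (((hd _ _).mul (hG'.comp meas_co)).indicator
    (isOpen_HS _).measurableSet)).trans (lintegral_congr fun τ => ?_)
  by_cases hτ : τ ∈ HS ι
  · have hA : (imM τ).PosDef := hτ
    have h0 := hA.det_pos
    have i1 : ∀ q ξ c, ∫⁻ x : ι × Fin 1 → ℝ, ∫⁻ X : Sym2 (Fin 1) → ℝ,
        G' (τ, q, ξ, cl x - c, X s(0, 0)) = K (τ, q, ξ) := fun q ξ c => by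
      rw [← eK', ← lintegral_sub_right_eq_self _ c, ← int_cl (ι := ι)]
      exact lintegral_congr fun x => int_sym fun v => G' (τ, q, ξ, cl x - c, v)
    have hM : Measurable (Function.uncurry fun (ξ : ι → ℝ) (q : ℝ) =>
        K (τ, q, ξ) * ENNReal.ofReal (q ^ Fintype.card ι)) :=
      (hK.comp (by fun_prop)).mul (hp.comp measurable_snd)
    simp only [Pi.mul_def, Function.comp_def, point hASM G' _ hτ,
      lintegral_const_mul' _ _ ENNReal.ofReal_ne_top, int_gg2, i1, lintegral_sub_right_eq_self,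
      int_gg hINV]
    have i2 := fun ξ => UNF1.one_dim (fun q => K (τ, q, ξ)) (Fintype.card ι)
    simp only [i2]
    rw [int_cl fun v => ∫⁻ q in Set.Ioi (0 : ℝ),
        K (τ, q, (imM τ)⁻¹ *ᵥ v) * ENNReal.ofReal (q ^ Fintype.card ι),
      int_inv hA hM.lintegral_prod_right, lintegral_lintegral_swap hM.aemeasurable,
      Set.indicator_of_mem hτ, ← mul_assoc, ← ENNReal.ofReal_mul (by positivity)]
    congr 1
    · congr 1
      show _ = ((imM τ).det ^ (Fintype.card ι + 1))⁻¹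
      rw [Fintype.card_fin]
      field_simp
      ring
    · exact lintegral_congr fun q => by
        rw [lintegral_mul_const' _ _ ENNReal.ofReal_ne_top, mul_comm]
  · simp only [point0 hASM _ hτ, lintegral_zero, Set.indicator_of_notMem hτ]

namespace SyQB

variable {ι : Type} [Fintype ι] [DecidableEq ι]

theorem sym {S : Matrix ι ι ℝ} (h : Sᵀ = S) (a b : ι → ℝ) : a ⬝ᵥ S *ᵥ b = b ⬝ᵥ S *ᵥ a := by
  rw [dotProduct_mulVec, ← mulVec_transpose, h, dotProduct_comm]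

theorem qform (Z : HH ι) (a b : ι → ℝ) : Sum.elim a b ⬝ᵥ Qm Z *ᵥ Sum.elim a b =
    (a - Xm Z *ᵥ b) ⬝ᵥ (Ym Z)⁻¹ *ᵥ (a - Xm Z *ᵥ b) + b ⬝ᵥ Ym Z *ᵥ b := by
  have e : ∀ v, b ⬝ᵥ Xm Z *ᵥ v = (Xm Z *ᵥ b) ⬝ᵥ v := fun v => by
    rw [sym (Xm_transpose Z), dotProduct_comm]
  simp only [Qm, fromBlocks_mulVec, sumElim_dotProduct_sumElim, Sum.elim_comp_inl,
    Sum.elim_comp_inr, neg_mulVec, add_mulVec, ← mulVec_mulVec, dotProduct_add, dotProduct_neg,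
    mulVec_sub, dotProduct_sub, sub_dotProduct, e]
  ring

theorem dot1 (a b : ι → ℝ) (c d : ℝ) :
    Sum.elim a (fun _ : Fin 1 => c) ⬝ᵥ Sum.elim b (fun _ => d) = a ⬝ᵥ b + c * d := by
  simp [dotProduct]

theorem mv1 (z : Sym2 (ι ⊕ Fin 1) → ℝ) (a : ι → ℝ) (c : ℝ) :
    mat z *ᵥ Sum.elim a (fun _ => c) =
      Sum.elim (mat (fun p => z (p.map Sum.inl)) *ᵥ a + c • fun i => z s(.inl i, .inr 0))
        fun _ => (fun i => z s(.inl i, .inr 0)) ⬝ᵥ a + z s(.inr 0, .inr 0) * c := by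
  funext i
  rcases i with i | i
  · simp [mulVec, dotProduct, mul_comm]
  · rw [Subsingleton.elim i 0]
    simp [mulVec, dotProduct, Sym2.eq_swap]

theorem inv1 {Y : Matrix (ι ⊕ Fin 1) (ι ⊕ Fin 1) ℝ} {Y1 : Matrix ι ι ℝ} {y ξ : ι → ℝ} {Y2 : ℝ}
    (hY : Y.PosDef) (hY1 : Y1.PosDef) (hs : Y1ᵀ = Y1) (hξ : ξ = Y1⁻¹ *ᵥ y)
    (hm : ∀ a c, Y *ᵥ Sum.elim a (fun _ => c) =
      Sum.elim (Y1 *ᵥ a + c • y) fun _ => y ⬝ᵥ a + Y2 * c) :
    Y1 *ᵥ ξ = y ∧ 0 < Y2 - y ⬝ᵥ ξ ∧ ∀ u1 u2,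
      Sum.elim u1 (fun _ => u2) ⬝ᵥ Y⁻¹ *ᵥ Sum.elim u1 (fun _ => u2) =
        u1 ⬝ᵥ Y1⁻¹ *ᵥ u1 + (u2 - ξ ⬝ᵥ u1) ^ 2 / (Y2 - y ⬝ᵥ ξ) := by
  have c1 : ∀ v, Y1 *ᵥ (Y1⁻¹ *ᵥ v) = v := fun v => by
    rw [mulVec_mulVec, mul_nonsing_inv _ hY1.det_pos.ne'.isUnit, one_mulVec]
  have h1 : Y1 *ᵥ ξ = y := by rw [hξ, c1]
  have h2 : 0 < Y2 - y ⬝ᵥ ξ := by
    have := hY.dotProduct_mulVec_pos (x := Sum.elim (-ξ) fun _ => 1)
      fun h => one_ne_zero (congrFun h (.inr 0))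
    rw [star_trivial, hm, dot1, mulVec_neg, h1] at this
    simpa [sub_eq_neg_add] using this
  refine ⟨h1, h2, fun u1 u2 => ?_⟩
  have h3 : y ⬝ᵥ Y1⁻¹ *ᵥ u1 = ξ ⬝ᵥ u1 := by
    rw [sym (by rw [transpose_nonsing_inv, hs]), ← hξ, dotProduct_comm]
  set c := (u2 - ξ ⬝ᵥ u1) / (Y2 - y ⬝ᵥ ξ) with hc
  have h4 : Y *ᵥ Sum.elim (Y1⁻¹ *ᵥ u1 - c • ξ) (fun _ => c) = Sum.elim u1 fun _ => u2 := by
    rw [hm, mulVec_sub, c1, mulVec_smul, h1, sub_add_cancel, dotProduct_sub, h3, dotProduct_smul]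
    congr 2
    funext _
    have := div_mul_cancel₀ (u2 - ξ ⬝ᵥ u1) h2.ne'
    rw [smul_eq_mul]
    linear_combination this
  conv_lhs => rw [← h4, mulVec_mulVec, nonsing_inv_mul _ hY.det_pos.ne'.isUnit, one_mulVec, h4]
  rw [dot1, dotProduct_sub, dotProduct_smul, dotProduct_comm u1 ξ, smul_eq_mul, hc]
  ring

end SyQB

open SyQB in
theorem p_QB :
    S_QB := by
  intro ι _ _ Z q X ξ η m n μ ν hq hξ hη hX
  set y : ι → ℝ := fun i => (Z.1 s(.inl i, .inr 0)).im with hy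
  set x : ι → ℝ := fun i => (Z.1 s(.inl i, .inr 0)).re with hx
  have hξ' : ξ = (Ym (bT Z))⁻¹ *ᵥ y := hξ
  have hη' : η = x - Xm (bT Z) *ᵥ ξ := by rw [hη, hξ]; rfl
  have mY : ∀ a c, Ym Z *ᵥ Sum.elim a (fun _ => c) = Sum.elim (Ym (bT Z) *ᵥ a + c • y)
      fun _ => y ⬝ᵥ a + (Z.1 s(.inr 0, .inr 0)).im * c := mv1 _
  have mX : ∀ a c, Xm Z *ᵥ Sum.elim a (fun _ => c) = Sum.elim (Xm (bT Z) *ᵥ a + c • x)
      fun _ => x ⬝ᵥ a + X * c := by rw [hX]; exact mv1 _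
  obtain ⟨h1, h2, h3⟩ := inv1 (Ym_posDef Z) (Ym_posDef (bT Z)) (Ym_transpose _) hξ' mY
  set h := (Z.1 s(.inr 0, .inr 0)).im - y ⬝ᵥ ξ with hh
  have e1 : q = 1 / h := by
    have : cz (ev (Sum.inr 0 : ι ⊕ Fin 1)) =
        Sum.elim (Sum.elim (0 : ι → ℝ) fun _ => 1) 0 := by
      funext a
      rcases a with (a | a) | a
      · simp [cz, ev]
      · rw [Subsingleton.elim a 0]; simp [cz, ev]
      · simp [cz, ev]
    rw [hq, qf, this, qform, mulVec_zero, sub_zero, h3]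
    simp
  have e2 : cz (Sum.elim (Sum.elim m fun _ : Fin 1 => μ) (Sum.elim n fun _ : Fin 1 => ν)) =
      Sum.elim (Sum.elim (cz m) fun _ => (μ : ℝ)) (Sum.elim (cz n) fun _ => (ν : ℝ)) := by
    funext a
    rcases a with (a | a) | (a | a) <;> rfl
  have e3 : Sum.elim (cz m) (fun _ : Fin 1 => (μ : ℝ)) - Xm Z *ᵥ Sum.elim (cz n) (fun _ => (ν : ℝ))
      = Sum.elim (cz m - (ν : ℝ) • η - Xm (bT Z) *ᵥ (cz n + (ν : ℝ) • ξ))
        fun _ => μ - (x ⬝ᵥ cz n + X * ν) := by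
    rw [mX, hη', mulVec_add, mulVec_smul]
    funext a
    rcases a with a | a
    · simp only [Pi.sub_apply, Sum.elim_inl, Pi.add_apply, Pi.smul_apply, smul_eq_mul]; ring
    · rfl
  have e4 : x = η + Xm (bT Z) *ᵥ ξ := by rw [hη']; abel
  have e5 := sym (Xm_transpose (bT Z)) ξ (cz n)
  rw [qf, e2, qform, qform, e3, h3, mY, dot1, e1]
  simp only [e4, mulVec_add, mulVec_smul, h1, dotProduct_add, add_dotProduct, dotProduct_sub,
    dotProduct_smul, smul_dotProduct, smul_eq_mul, e5, dotProduct_comm (Xm (bT Z) *ᵥ ξ) (cz n),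
    dotProduct_comm ξ y, dotProduct_comm (cz n) y,
    show ξ ⬝ᵥ Ym (bT Z) *ᵥ cz n = y ⬝ᵥ cz n by
      rw [sym (Ym_transpose _), h1, dotProduct_comm]]
  rw [show (Z.1 s(.inr 0, .inr 0)).im = h + y ⬝ᵥ ξ by rw [hh]; ring]
  field_simp
  ring

namespace SyFIB

theorem unf (hBOX : S_BOX) {ι : Type} [Fintype ι] {ν : ℤ} (hν : ν ≠ 0)
    {F : ((ι → ℝ) × (ι → ℝ)) × ℝ → ℝ≥0∞} (hF : Measurable F)
    (c : (ι → ℝ) → (ι → ℝ) → (ι → ℤ) → (ι → ℤ) → ℝ) :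
    ∫⁻ ξ in ubox ι, ∫⁻ η in ubox ι, ∫⁻ X in Set.Ico (0 : ℝ) 1,
      ∑' u : (ι → ℤ) × (ι → ℤ) × ℤ,
        F ((cz u.1 - (ν : ℝ) • η, cz u.2.1 + (ν : ℝ) • ξ), u.2.2 - ν * X - c ξ η u.1 u.2.1) =
      ∫⁻ t, ∫⁻ b, ∫⁻ a, F ((a, b), t) := by
  have hG : Measurable fun p => ∫⁻ t, F (p, t) := hF.lintegral_prod_right'
  have h1 : ∀ ξ η : ι → ℝ, ∫⁻ X in Set.Ico (0 : ℝ) 1, ∑' u : (ι → ℤ) × (ι → ℤ) × ℤ,
      F ((cz u.1 - (ν : ℝ) • η, cz u.2.1 + (ν : ℝ) • ξ), u.2.2 - ν * X - c ξ η u.1 u.2.1) =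
      ∑' m : ι → ℤ, ∑' n : ι → ℤ,
        ∫⁻ t, F ((cz m + ((-ν : ℤ) : ℝ) • η, cz n + (ν : ℝ) • ξ), t) := fun ξ η => by
    simp only [ENNReal.tsum_prod']
    rw [lintegral_tsum fun m => (Measurable.tsum fun n => Measurable.tsum fun μ =>
      by fun_prop).aemeasurable]
    refine tsum_congr fun m => ?_
    rw [lintegral_tsum fun n => (Measurable.tsum fun μ => by fun_prop).aemeasurable]
    refine tsum_congr fun n => ?_
    rw [Int.cast_neg, neg_smul, ← sub_eq_add_neg]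
    exact hBOX.1 ν _ (fun t => F (_, t)) hν (by fun_prop)
  have h2 : ∀ ξ : ι → ℝ, ∫⁻ η in ubox ι, ∑' m : ι → ℤ, ∑' n : ι → ℤ,
      ∫⁻ t, F ((cz m + ((-ν : ℤ) : ℝ) • η, cz n + (ν : ℝ) • ξ), t) =
      ∑' n : ι → ℤ, ∫⁻ a, ∫⁻ t, F ((a, cz n + (ν : ℝ) • ξ), t) := fun ξ => by
    have m : ∀ b, Measurable fun a => ∫⁻ t, F ((a, b), t) := fun b =>
      hG.comp measurable_prodMk_right
    rw [← lintegral_tsum fun n => (m _).aemeasurable]
    exact hBOX.2.1 ι (-ν) (fun a => ∑' n : ι → ℤ, ∫⁻ t, F ((a, cz n + (ν : ℝ) • ξ), t))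
      (neg_ne_zero.2 hν) (Measurable.tsum fun n => m _)
  simp only [h1, h2]
  have h3 : Measurable (Function.uncurry fun t b => ∫⁻ a, F ((a, b), t)) :=
    Measurable.lintegral_prod_right' (f := fun p : (ℝ × (ι → ℝ)) × (ι → ℝ) =>
      F ((p.2, p.1.2), p.1.1)) (by fun_prop)
  rw [hBOX.2.1 ι ν (fun b => ∫⁻ a, ∫⁻ t, F ((a, b), t)) hν hG.lintegral_prod_left',
    lintegral_lintegral_swap h3.aemeasurable]
  exact lintegral_congr fun b => lintegral_lintegral_swap (Measurable.aemeasurable (by fun_prop))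

end SyFIB

theorem p_FIB (hBOX : S_BOX) (hELL : S_ELL) (hQ : S_Q) :
    S_FIB := by
  intro ι _ _ τ q R ν _ hν
  have hc : Continuous fun p : ((ι → ℝ) × (ι → ℝ)) × ℝ =>
      Sum.elim p.1.1 p.1.2 ⬝ᵥ Qm τ *ᵥ Sum.elim p.1.1 p.1.2 + q * p.2 ^ 2 + ν ^ 2 / q := by
    have : Continuous fun p : ((ι → ℝ) × (ι → ℝ)) × ℝ => Sum.elim p.1.1 p.1.2 :=
      continuous_pi fun i => by cases i <;> simp only [Sum.elim_inl, Sum.elim_inr] <;> fun_prop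
    fun_prop
  refine (SyFIB.unf hBOX hν ((measurable_one.indicator (measurableSet_Iic (a := R))).comp
    hc.measurable) fun ξ η m n => η ⬝ᵥ cz n + ξ ⬝ᵥ cz m - ν * (ξ ⬝ᵥ η + ξ ⬝ᵥ Xm τ *ᵥ ξ)).trans
      (lintegral_congr fun t => ?_)
  rw [← (hELL _).2.2.1 ι (Qm τ) _ rfl ((hQ ι).1 τ).1 ((hQ ι).1 τ).2]
  refine lintegral_congr fun b => lintegral_congr fun a => ?_
  simp only [Function.comp, Set.indicator, Set.mem_Iic, Pi.one_apply]
  exact if_congr ⟨fun h => by linarith, fun h => by linarith⟩ rfl rfl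

namespace SyFIB0

lemma vol_ubox (κ : Type) [Fintype κ] : volume (ubox κ) = 1 := by
  have : ubox κ = Set.pi Set.univ fun _ : κ => Set.Ico (0 : ℝ) 1 := by
    ext x
    simp [ubox]
  rw [this, volume_pi_pi]
  simp

end SyFIB0

theorem p_FIB0 (hBOX : S_BOX) :
    S_FIB0 := by
  intro ι _ _ q R c m n h
  set f : ℝ → ℝ≥0∞ := fun t => (Set.Iic R).indicator (1 : ℝ → ℝ≥0∞) (c + q * t ^ 2) with hf
  have mf : Measurable f :=
    (measurable_one.indicator measurableSet_Iic).comp (f := fun t : ℝ => c + q * t ^ 2)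
      (by fun_prop)
  have e : ∫⁻ t : ℝ, (Set.Iic (R - q * t ^ 2)).indicator (1 : ℝ → ℝ≥0∞) c = ∫⁻ t, f t :=
    lintegral_congr fun t => by
      simp only [hf, Set.indicator_apply, Set.mem_Iic, le_sub_iff_add_le, Pi.one_apply]
  rw [e]
  by_cases hn : n = 0
  · have hm : m ≠ 0 := fun hm => h (by simp [hm, hn])
    have z : cz (0 : ι → ℤ) = 0 := by
      ext i
      simp [cz]
    rw [← hBOX.2.2 ι m 0 f hm mf]
    refine lintegral_congr fun ξ => ?_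
    simp only [hn, z, dotProduct_zero, zero_add, sub_zero, hf]
    rw [setLIntegral_const, SyFIB0.vol_ubox, mul_one]
  · calc _ = ∫⁻ _ in ubox ι, ∫⁻ t, f t := lintegral_congr fun ξ => by
          rw [← hBOX.2.2 ι n (ξ ⬝ᵥ cz m) f hn mf]
          simp only [hf, sub_sub]
      _ = _ := by rw [setLIntegral_const, SyFIB0.vol_ubox, mul_one]

theorem p_SIE (hUNF1 : S_UNF1) (hCNT : S_CNT) (hEXT : S_EXT) (hVFIN : S_VFIN) (hPROP : S_PROP) (hQ : S_Q) :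
    S_SIE := by
  intro n w R hw
  rcases lt_or_ge R 0 with hR | hR
  · refine (lintegral_congr fun Z => ?_).trans_le (lintegral_zero.trans_le zero_le)
    refine mul_eq_zero_of_left (ENNReal.tsum_eq_zero.2 fun u => if_neg ?_) _
    exact (hR.trans ((hQ _).2.2.2.2.2.2.2.1 Z u.1 u.2)).not_ge
  rcases n with _ | n
  · refine (lintegral_congr fun Z => ?_).trans_le (lintegral_zero.trans_le zero_le)
    rw [ENNReal.tsum_eq_zero.2 fun u => (u.2 (Subsingleton.elim _ _)).elim, zero_mul]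
  have h1 := SV.mean hUNF1 hEXT hPROP hQ n hw hR
  have h2 : ∀ Z : HH (Fin (n + 1)), cnt (Qm Z) R =
      1 + ∑' u : {u : Fin (n + 1) ⊕ Fin (n + 1) → ℤ | u ≠ 0},
        (Set.Iic R).indicator 1 (qf (Qm Z) u.1) := fun Z => by
    have h0 : qf (Qm Z) 0 ≤ R := by
      simpa using ((hQ _).2.2.2.2.2.2.2.2.1 Z 0 0).trans_le (by simpa using hR)
    rw [cnt, ← ENNReal.summable.tsum_add_tsum_compl (s := {0}) ENNReal.summable, tsum_singleton,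
      Set.indicator_of_mem (by exact h0), Pi.one_apply]
    rfl
  simp only [h2, add_mul, one_mul] at h1
  rw [lintegral_add_left hw.1, (hPROP _).2.2.1 w hw, ENNReal.add_right_inj (hVFIN.1 _)] at h1
  rw [h1, el, if_pos hR, ENNReal.ofReal_mul' (pow_nonneg hR _), ← mul_assoc,
    mul_comm (vol (Fin (n + 1))), SV.ratio hUNF1 hCNT hEXT hVFIN hPROP hQ n, mul_assoc,
    ← ENNReal.ofReal_mul' (pow_nonneg hR _)]
  exact le_of_eq (by congr 2; ring)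

end Pool.Agent.P.MP_59bdab_ag
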