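import Pool.Agent.P.MP_59bdab_ag.Sys.Iface
import Pool.Agent.P.MP_59bdab_ag.BLKM
import Pool.Agent.P.MP_59bdab_ag.UNF
import Pool.Agent.P.MP_59bdab_ag.JUP
import Pool.Agent.P.MP_59bdab_ag.UNF1

/-! Pairs of lattice vectors; fundamental domains. -/

set_option linter.unusedSectionVars false

namespace Pool.Agent.P.MP_59bdab_ag

open Matrix MeasureTheory Filter Topology
open scoped ENNReal ComplexOrder

namespace SyPAIR0

theorem ind {A : Type} [MeasurableSpace A] (μ : Measure A) {a : Set A} (ha : MeasurableSet a)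
    (r : ℝ≥0∞) {f : A → ℝ≥0∞} (hf : Measurable f) :
    ∫⁻ x, r * (a.indicator 1 x * f x) ∂μ = r * ∫⁻ x in a, f x ∂μ := by
  rw [lintegral_const_mul _ ((measurable_one.indicator ha).fun_mul hf), ← lintegral_indicator ha]
  congr 1
  refine lintegral_congr fun x => ?_
  by_cases h : x ∈ a <;> simp [h]

theorem pull {A B C : Type} [MeasureSpace A] [MeasureSpace B] [MeasureSpace C]
    [SFinite (volume : Measure B)] [SFinite (volume : Measure C)] {a : Set A} {b : Set B}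
    {c : Set C} (ha : MeasurableSet a) (hb : MeasurableSet b) (hc : MeasurableSet c) (r : ℝ≥0∞)
    {K : A × B × C → ℝ≥0∞} (hK : Measurable K) :
    ∫⁻ x, ∫⁻ y, ∫⁻ z, r * a.indicator 1 x * b.indicator 1 y * (c.indicator 1 z * K (x, y, z)) =
      r * ∫⁻ x in a, ∫⁻ y in b, ∫⁻ z in c, K (x, y, z) := by
  have m2 : Measurable fun p : A × B => ∫⁻ z in c, K (p.1, p.2, z) :=
    Measurable.lintegral_prod_right' (f := fun p : (A × B) × C => K (p.1.1, p.1.2, p.2))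
      (hK.comp (by fun_prop))
  have m1 : Measurable fun x : A => ∫⁻ y in b, ∫⁻ z in c, K (x, y, z) :=
    Measurable.lintegral_prod_right' m2
  rw [← ind _ ha r m1]
  refine lintegral_congr fun x => ?_
  rw [← mul_assoc, ← ind _ hb _ (f := fun y => ∫⁻ z in c, K (x, y, z))
    (m2.comp measurable_prodMk_left)]
  refine lintegral_congr fun y => ?_
  rw [ind _ hc _ (f := fun z => K (x, y, z)) (hK.comp (by fun_prop)), mul_assoc]

variable {ι : Type} [Fintype ι] [DecidableEq ι]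

/-- The form in block coordinates. -/
noncomputable def qq (ν : ℤ) (u : (ι → ℤ) × (ι → ℤ) × ℤ)
    (x : HH ι × ℝ × (ι → ℝ) × (ι → ℝ) × ℝ) : ℝ :=
  Sum.elim (cz u.1 - (ν : ℝ) • x.2.2.2.1) (cz u.2.1 + (ν : ℝ) • x.2.2.1) ⬝ᵥ
      Qm x.1 *ᵥ Sum.elim (cz u.1 - (ν : ℝ) • x.2.2.2.1) (cz u.2.1 + (ν : ℝ) • x.2.2.1) +
    x.2.1 * (u.2.2 - ν * x.2.2.2.2 - (x.2.2.2.1 ⬝ᵥ cz u.2.1 + x.2.2.1 ⬝ᵥ cz u.1 -
      ν * (x.2.2.1 ⬝ᵥ x.2.2.2.1 + x.2.2.1 ⬝ᵥ Xm x.1 *ᵥ x.2.2.1))) ^ 2 + ν ^ 2 / x.2.1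

theorem meas_qq (hQ : S_Q) (ν : ℤ) (u : (ι → ℤ) × (ι → ℤ) × ℤ) : Measurable (qq ν u) := by
  have h6 := (hQ ι).2.2.2.2.2.1
  have h7 : Continuous (Xm : HH ι → _) := continuous_Xm
  have h8 : Continuous fun x : HH ι × ℝ × (ι → ℝ) × (ι → ℝ) × ℝ =>
      Sum.elim (cz u.1 - (ν : ℝ) • x.2.2.2.1) (cz u.2.1 + (ν : ℝ) • x.2.2.1) := by
    refine continuous_pi fun a => ?_
    rcases a with a | a
    · exact (continuous_apply a).comp (f := fun x : HH ι × ℝ × (ι → ℝ) × (ι → ℝ) × ℝ =>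
        cz u.1 - (ν : ℝ) • x.2.2.2.1) (by fun_prop)
    · exact (continuous_apply a).comp (f := fun x : HH ι × ℝ × (ι → ℝ) × (ι → ℝ) × ℝ =>
        cz u.2.1 + (ν : ℝ) • x.2.2.1) (by fun_prop)
  refine Measurable.add (Continuous.measurable ?_) (by fun_prop)
  exact (h8.dotProduct ((h6.comp continuous_fst).matrix_mulVec h8)).add (by fun_prop)

/-- The number of vectors in block coordinates. -/
noncomputable def KK (T : ℝ → ℝ) (ν : ℤ) (x : HH ι × ℝ × (ι → ℝ) × (ι → ℝ) × ℝ) : ℝ≥0∞ :=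
  ∑' u : (ι → ℤ) × (ι → ℤ) × ℤ, if ν = 0 ∧ (u.1, u.2.1) = 0 then 0 else
    (Set.Iic (T x.2.1)).indicator 1 (qq ν u x)

theorem meas_le {A : Type} [MeasurableSpace A] {f g : A → ℝ} (hf : Measurable f)
    (hg : Measurable g) : Measurable fun x => (Set.Iic (g x)).indicator (1 : ℝ → ℝ≥0∞) (f x) :=
  measurable_one.indicator (measurableSet_le hf hg)

theorem meas_KK (hQ : S_Q) {T : ℝ → ℝ} (hT : Measurable T) (ν : ℤ) :
    Measurable (KK (ι := ι) T ν) := by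
  refine Measurable.tsum fun u => ?_
  split_ifs
  · exact measurable_const
  · exact meas_le (meas_qq hQ ν u) (hT.comp (by fun_prop))

theorem pc_le (hQB : S_QB) (hLAG : S_LAG) (T : ℝ → ℝ) (ν : ℤ) (Z : HH (ι ⊕ Fin 1)) :
    pc (Sum.inr 0) ν Z (T (qf (Qm Z) (ev (Sum.inr 0)))) ≤
      KK T (-ν) (bT Z, qf (Qm Z) (ev (Sum.inr 0)), fun a => bXi Z a 0, fun a => bEta Z a 0,
        bX Z s(0, 0)) := by
  let e : ((ι ⊕ Fin 1) ⊕ (ι ⊕ Fin 1) → ℤ) → (ι → ℤ) × (ι → ℤ) × ℤ := fun v =>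
    (fun a => v (.inl (.inl a)), fun a => v (.inr (.inl a)), v (.inl (.inr 0)))
  have h1 : ∀ v : (ι ⊕ Fin 1) ⊕ (ι ⊕ Fin 1) → ℤ, om (ev (Sum.inr 0)) v = ν →
      v = Sum.elim (Sum.elim (e v).1 fun _ => (e v).2.2) (Sum.elim (e v).2.1 fun _ => -ν) := by
    intro v hv
    rw [(hLAG _).2.2.2.1] at hv
    funext a
    rcases a with (a | a) | (a | a)
    · rfl
    · rw [Subsingleton.elim a 0]; rfl
    · rfl
    · rw [Subsingleton.elim a 0, ← hv, neg_neg]; rfl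
  refine le_trans (ENNReal.tsum_le_tsum fun v => le_of_eq ?_)
    (ENNReal.tsum_comp_le_tsum_of_injective (f := fun v : {u : (ι ⊕ Fin 1) ⊕ (ι ⊕ Fin 1) → ℤ |
      om (ev (Sum.inr 0)) u = ν ∧ ∀ c : ℤ, u ≠ c • ev (Sum.inr 0)} => e v.1) (fun v v' h => ?_) _)
  · rw [if_neg]
    · conv_lhs => rw [h1 v.1 v.2.1, hQB ι Z _ _ _ _ _ _ _ _ rfl rfl rfl rfl]
      rfl
    · rintro ⟨h2, h3⟩
      refine v.2.2 (e v.1).2.2 ?_
      have h4 : (e v.1).1 = 0 := congrArg Prod.fst h3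
      have h5 : (e v.1).2.1 = 0 := congrArg Prod.snd h3
      refine (h1 v.1 v.2.1).trans ?_
      rw [h2, h4, h5]
      funext a
      rcases a with (a | a) | (a | a)
      · simp [ev]
      · simp [ev, Subsingleton.elim a 0]
      · simp [ev]
      · simp [ev]
  · refine Subtype.ext ?_
    rw [h1 v.1 v.2.1, h1 v'.1 v'.2.1]
    exact congrArg (fun y : (ι → ℤ) × (ι → ℤ) × ℤ => Sum.elim (Sum.elim y.1 fun _ => y.2.2)
      (Sum.elim y.2.1 fun _ => -ν)) h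

omit [Fintype ι] [DecidableEq ι] in
theorem ub1 (M : Matrix ι (Fin 1) ℝ) :
    (ubox (ι × Fin 1)).indicator (1 : (ι × Fin 1 → ℝ) → ℝ≥0∞) (fun a => M a.1 a.2) =
      (ubox ι).indicator 1 fun a => M a 0 := by
  classical
  exact if_congr ⟨fun h a => h (a, 0), fun h a => by
    show M a.1 a.2 ∈ _
    rw [Subsingleton.elim a.2 0]; exact h a.1⟩ rfl rfl

theorem ub2 (X : Sym2 (Fin 1) → ℝ) :
    (ubox (Sym2 (Fin 1))).indicator (1 : (Sym2 (Fin 1) → ℝ) → ℝ≥0∞) X =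
      (Set.Ico (0 : ℝ) 1).indicator 1 (X s(0, 0)) := by
  have h : X ∈ ubox (Sym2 (Fin 1)) ↔ X s(0, 0) ∈ Set.Ico (0 : ℝ) 1 :=
    ⟨fun h => h _, fun h a => by rwa [Subsingleton.elim a s(0, 0)]⟩
  by_cases h1 : X ∈ ubox (Sym2 (Fin 1))
  · rw [Set.indicator_of_mem h1, Set.indicator_of_mem (h.1 h1), Pi.one_apply, Pi.one_apply]
  · rw [Set.indicator_of_notMem h1, Set.indicator_of_notMem (mt h.2 h1)]

/-- The number of nonzero vectors, or its mean. -/
noncomputable def MM (ν : ℤ) (x : HH ι × ℝ) : ℝ≥0∞ :=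
  if ν = 0 then ∑' u : {u : ι ⊕ ι → ℤ | u ≠ 0}, (Set.Iic x.2).indicator 1 (qf (Qm x.1) u.1)
  else el (Fintype.card ι) x.2

theorem meas_qf (hQ : S_Q) (v : ι ⊕ ι → ℤ) : Measurable fun Z : HH ι => qf (Qm Z) v :=
  (continuous_const.dotProduct ((hQ ι).2.2.2.2.2.1.matrix_mulVec continuous_const)).measurable

theorem meas_MM (hELL : S_ELL) (hQ : S_Q) (ν : ℤ) : Measurable (MM (ι := ι) ν) := by
  unfold MM
  split_ifs
  · exact Measurable.tsum fun u => meas_le ((meas_qf hQ _).comp measurable_fst) measurable_snd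
  · exact (hELL _).1.comp measurable_snd

theorem fib (hFIB : S_FIB) (hFIB0 : S_FIB0) (T : ℝ → ℝ) (ν : ℤ) (τ : HH ι) {q : ℝ} (hq : 0 < q) :
    ∫⁻ ξ in ubox ι, ∫⁻ η in ubox ι, ∫⁻ X in Set.Ico (0 : ℝ) 1, KK T ν (τ, q, ξ, η, X) =
      ∫⁻ t : ℝ, MM ν (τ, T q - ν ^ 2 / q - q * t ^ 2) := by
  by_cases hν : ν = 0
  swap
  · simp only [KK, MM, hν, false_and, if_false]
    exact hFIB ι τ q (T q) ν hq hν
  subst hν
  let f : (ι → ℤ) × (ι → ℤ) → (ι → ℝ) × (ι → ℝ) → ℝ≥0∞ := fun u p => ∑' μ : ℤ,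
    (Set.Iic (T q)).indicator 1 (qf (Qm τ) (Sum.elim u.1 u.2) +
      q * (μ - (p.2 ⬝ᵥ cz u.2 + p.1 ⬝ᵥ cz u.1)) ^ 2)
  have hf : ∀ u, Measurable (f u) := fun u =>
    Measurable.tsum fun μ => meas_le (Continuous.measurable (by fun_prop)) measurable_const
  have h1 : ∀ ξ η X, KK T 0 (τ, q, ξ, η, X) =
      ∑' u : {u : (ι → ℤ) × (ι → ℤ) | u ≠ 0}, f u.1 (ξ, η) := fun ξ η X => by
    rw [KK, ← (Equiv.prodAssoc _ _ _).tsum_eq, ENNReal.tsum_prod', tsum_subtype _ fun u => f u (ξ, η)]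
    refine tsum_congr fun u => ?_
    by_cases h : u = 0
    · simp [h]
    · rw [Set.indicator_of_mem (show u ∈ {u : (ι → ℤ) × (ι → ℤ) | u ≠ 0} from h)]
      refine tsum_congr fun μ => (if_neg fun h' => h h'.2).trans ?_
      have e : cz (Sum.elim u.1 u.2) = Sum.elim (cz u.1) (cz u.2) := by
        funext a; rcases a with a | a <;> rfl
      simp [qq, qf, e]
  simp only [h1, lintegral_const, Measure.restrict_apply_univ, Real.volume_Ico, sub_zero,
    ENNReal.ofReal_one, mul_one, MM, if_true, Int.cast_zero, ne_eq, OfNat.ofNat_ne_zero,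
    not_false_eq_true, zero_pow, zero_div]
  have h2 : ∀ ξ, ∫⁻ η in ubox ι, ∑' u : {u : (ι → ℤ) × (ι → ℤ) | u ≠ 0}, f u.1 (ξ, η) =
      ∑' u : {u : (ι → ℤ) × (ι → ℤ) | u ≠ 0}, ∫⁻ η in ubox ι, f u.1 (ξ, η) := fun ξ =>
    lintegral_tsum fun u => ((hf _).comp measurable_prodMk_left).aemeasurable
  let e : {u : (ι → ℤ) × (ι → ℤ) | u ≠ 0} ≃ {u : ι ⊕ ι → ℤ | u ≠ 0} :=
    (Equiv.sumArrowEquivProdArrow ι ι ℤ).symm.subtypeEquiv fun u => not_congr
      ⟨fun h => by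
        rw [h]; funext a; rcases a with a | a <;> rfl,
      fun h => Prod.ext (funext fun a => congrFun h (.inl a)) (funext fun a => congrFun h (.inr a))⟩
  refine (lintegral_congr h2).trans ((lintegral_tsum fun u =>
    (Measurable.lintegral_prod_right' (hf _)).aemeasurable).trans ?_)
  refine Eq.trans ?_ (lintegral_tsum fun u =>
    (meas_le measurable_const (by fun_prop)).aemeasurable).symm
  rw [← e.tsum_eq]
  exact tsum_congr fun u => hFIB0 ι q (T q) _ u.1.1 u.1.2 u.2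

end SyPAIR0

open SyPAIR0 in
theorem p_PAIR0 (hBLK2 : S_BLK2) (hQB : S_QB) (hFIB : S_FIB) (hFIB0 : S_FIB0) (hSIE : S_SIE)
    (hELL : S_ELL) (hLAG : S_LAG) (hPROP : S_PROP) (hQ : S_Q) (hMEAS : S_MEAS) : S_PAIR0 := by
  intro n w β T ν hw hβ hT
  have := (hMEAS (Fin n)).2.2.2.2.2.1
  have hK := meas_KK (ι := Fin n) hQ hT (-ν)
  have hM := meas_MM (ι := Fin n) hELL hQ (-ν)
  have hw1 := hw.1
  have hu := BLKM.meas_ubox (Fin n)
  have h1 := hBLK2 (Fin n) (fun x => β x.2.1 * w x.1 * (ubox (Fin n)).indicator 1 x.2.2.1 *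
    (ubox (Fin n)).indicator 1 x.2.2.2.1 *
    ((Set.Ico (0 : ℝ) 1).indicator 1 x.2.2.2.2 * KK T (-ν) x))
    (((((hβ.comp (by fun_prop)).mul (hw1.comp measurable_fst)).mul
      ((measurable_one.indicator hu).comp (by fun_prop))).mul
      ((measurable_one.indicator hu).comp (by fun_prop))).mul
      (((measurable_one.indicator measurableSet_Ico).comp (by fun_prop)).mul hK))
  refine (lintegral_mono fun Z => ?_).trans (h1.trans_le ?_)
  · refine (mul_le_mul_left (mul_le_mul_right (pc_le hQB hLAG T ν Z) _) _).trans_eq ?_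
    rw [wB, ub1, ub1, ub2]
    ring
  have hA : Measurable fun p : ℝ × ℝ => T p.1 - ν ^ 2 / p.1 - p.1 * p.2 ^ 2 := by fun_prop
  have h2 : ∀ τ : HH (Fin n), ∀ q ∈ Set.Ioi (0 : ℝ), ENNReal.ofReal (q ^ Fintype.card (Fin n)) *
      ∫⁻ ξ, ∫⁻ η, ∫⁻ X, β q * w τ * (ubox (Fin n)).indicator 1 ξ * (ubox (Fin n)).indicator 1 η *
        ((Set.Ico (0 : ℝ) 1).indicator 1 X * KK T (-ν) (τ, q, ξ, η, X)) =
      β q * ENNReal.ofReal (q ^ n) *
        ∫⁻ t : ℝ, MM (-ν) (τ, T q - ν ^ 2 / q - q * t ^ 2) * w τ := fun τ q hq => by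
    rw [pull hu hu measurableSet_Ico _ (K := fun y => KK T (-ν) (τ, q, y)) (hK.comp (by fun_prop)),
      fib hFIB hFIB0 T (-ν) τ hq, lintegral_mul_const _ (hM.fun_comp (by fun_prop)),
      Fintype.card_fin, Int.cast_neg, neg_sq]
    ring
  have h3 : Measurable fun p : (HH (Fin n) × ℝ) × ℝ =>
      MM (-ν) (p.1.1, T p.1.2 - ν ^ 2 / p.1.2 - p.1.2 * p.2 ^ 2) * w p.1.1 :=
    (hM.comp (by fun_prop)).mul (hw1.comp (by fun_prop))
  have h4 := Measurable.lintegral_prod_right' (ν := volume) h3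
  have h5 : Measurable fun q : ℝ => ∫⁻ t : ℝ, el n (T q - ν ^ 2 / q - q * t ^ 2) :=
    Measurable.lintegral_prod_right' ((hELL n).1.comp hA)
  have h6 : ∀ R, ∫⁻ τ, MM (-ν) (τ, R) * w τ ∂μH (Fin n) ≤ vol (Fin n) * el n R := fun R => by
    unfold MM
    split_ifs
    · exact hSIE n w R hw
    · dsimp only
      rw [lintegral_const_mul _ hw1, (hPROP _).2.2.1 w hw, Fintype.card_fin, mul_comm]
  refine (lintegral_congr fun τ => setLIntegral_congr_fun measurableSet_Ioi (h2 τ)).trans_le ?_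
  rw [lintegral_lintegral_swap (((hβ.comp measurable_snd).mul (by fun_prop)).mul h4).aemeasurable,
    ← lintegral_const_mul _ ((hβ.fun_mul (by fun_prop)).fun_mul h5)]
  refine lintegral_mono fun q => ?_
  have h7 : Measurable fun p : HH (Fin n) × ℝ =>
      MM (-ν) (p.1, T q - ν ^ 2 / q - q * p.2 ^ 2) * w p.1 :=
    (hM.comp (by fun_prop)).mul (hw1.comp measurable_fst)
  rw [lintegral_const_mul _ (Measurable.lintegral_prod_right' h7),
    lintegral_lintegral_swap h7.aemeasurable, mul_left_comm,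
    ← lintegral_const_mul _ ((hELL n).1.fun_comp (by fun_prop))]
  exact mul_le_mul_right (lintegral_mono fun t => h6 _) _

namespace SyPAIR

theorem pc_equiv {ι ι' : Type} [Fintype ι] [DecidableEq ι] [Fintype ι'] [DecidableEq ι'] {i : ι}
    {i' : ι'} {Z : HH ι} {Z' : HH ι'} (σ : (ι ⊕ ι → ℤ) ≃ (ι' ⊕ ι' → ℤ))
    (h1 : ∀ c : ℤ, σ (c • ev i) = c • ev i') (h2 : ∀ u, om (ev i') (σ u) = om (ev i) u)
    (h3 : ∀ u, qf (Qm Z') (σ u) = qf (Qm Z) u) (ν : ℤ) (R : ℝ) : pc i' ν Z' R = pc i ν Z R := by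
  unfold pc
  rw [← (σ.subtypeEquiv (p := (· ∈ {u | om (ev i) u = ν ∧ ∀ c : ℤ, u ≠ c • ev i}))
    (q := (· ∈ {u | om (ev i') u = ν ∧ ∀ c : ℤ, u ≠ c • ev i'})) fun u => by
      simp only [Set.mem_ofPred_eq, h2, ← h1, ne_eq, σ.apply_eq_iff_eq]).tsum_eq]
  exact tsum_congr fun u => congrArg _ (h3 u.1)

end SyPAIR

open UNF SyPAIR in
theorem p_PAIR (hPAIR0 : S_PAIR0) (hBLKW : S_BLKW) (hREIDX : S_REIDX) (hWT : S_WT) (hLAG : S_LAG) (hPROP : S_PROP) (hMEAS : S_MEAS) (hQ : S_Q) :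
    S_PAIR := by
  intro ι _ _ i w β T ν hw hβ hT
  have := (hMEAS ι).2.2.1 (st1 i)
  have hm : ∀ v : ι ⊕ ι → ℤ, Measurable fun Z : HH ι => qf (Qm Z) v := fun v =>
    (continuous_const.dotProduct ((hQ ι).2.2.2.2.2.1.matrix_mulVec continuous_const)).measurable
  have hp : Measurable fun Z : HH ι => pc i ν Z (T (qf (Qm Z) (ev i))) :=
    Measurable.tsum fun u =>
      measurable_one.indicator (measurableSet_le (hm u.1) (hT.comp (hm _)))
  refine ⟨hp, ?_⟩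
  have hcard : 1 ≤ Fintype.card ι := Fintype.card_pos_iff.2 ⟨i⟩
  obtain ⟨e, he⟩ : ∃ e : ι ≃ Fin (Fintype.card ι - 1) ⊕ Fin 1, e.symm (Sum.inr 0) = i := by
    let e : ι ≃ Fin (Fintype.card ι - 1) ⊕ Fin 1 := Fintype.equivOfCardEq (by simp; omega)
    exact ⟨(Equiv.swap i (e.symm (Sum.inr 0))).trans e, by simp⟩
  obtain ⟨Φ, ψ, h1, h2, h3, h4, -⟩ := hREIDX _ _ e
  obtain ⟨w', hw'⟩ := (hPROP (Fin (Fintype.card ι - 1))).2.1
  have hB := hBLKW _ (Fin 1) w' hw'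
  have ec := ev_comp e (Sum.inr 0)
  rw [he] at ec
  have hmem : ∀ γ : SpZ ι, γ ∈ st1 i ↔
      ψ γ ∈ stab fun a : Fin 1 => ev (Sum.inr a : Fin (Fintype.card ι - 1) ⊕ Fin 1) := by
    intro γ
    show _ ↔ (fun a : Fin 1 => (ψ γ).1 *ᵥ ev (Sum.inr a)) =
      fun a : Fin 1 => ev (Sum.inr a : Fin (Fintype.card ι - 1) ⊕ Fin 1)
    rw [mem_st1, h3, funext_iff (α := Fin 1), Fin.forall_fin_one, ← ec, reindex_mulVec]
    exact ((e.sumCongr e).symm.surjective.injective_comp_right.eq_iff).symm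
  have hw1 : IsWt (st1 i) (HH ι) (fun Z => wB w' (Φ Z)) := by
    refine ⟨hB.1.comp Φ.measurable, fun Z => ?_⟩
    rw [← hB.2 (Φ Z), ← (Equiv.subtypeEquiv ψ.toEquiv hmem).tsum_eq]
    refine tsum_congr fun γ => ?_
    exact congrArg (wB w') (h2 γ.1 Z)
  have hq : ∀ (Z : HH ι) (u : ι ⊕ ι → ℤ),
      qf (Qm (Φ Z)) (u ∘ (e.sumCongr e).symm) = qf (Qm Z) u := fun Z u => by
    rw [h4]
    exact congrFun₂ (gram_reindex (e.sumCongr e) (Qm Z) fun _ : Unit => u) () ()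
  rw [(hWT (st1 i) (HH ι) (μH ι) w hw).2.1 _
    (fun Z => β (qf (Qm Z) (ev i)) * pc i ν Z (T (qf (Qm Z) (ev i)))) hw1
    ((hβ.comp (hm _)).mul hp) fun γ Z => ?_]
  · refine le_trans (le_of_eq ?_) (hPAIR0 _ w' β T ν hw' hβ hT)
    rw [← h1.lintegral_comp_emb Φ.measurableEmbedding]
    refine lintegral_congr fun Z => ?_
    rw [pc_equiv (i := i) (Z := Z) ((e.sumCongr e).arrowCongr (Equiv.refl ℤ))
      (fun c => ec ▸ rfl) (fun u => by rw [(hLAG _).2.2.2.1, (hLAG _).2.2.2.1, ← he]; rfl) (hq Z),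
      ← ec, hq]
  · have g1 := mem_st1.1 γ.2
    have g2 := (hQ ι).2.2.1 γ.1 Z
    have g3 := g2 (ev i)
    rw [g1] at g3
    show β (qf (Qm (γ.1 • Z)) (ev i)) * pc i ν (γ.1 • Z) (T (qf (Qm (γ.1 • Z)) (ev i))) = _
    rw [g3, pc_equiv (i := i) (Z := Z) ⟨fun u => γ.1.1 *ᵥ u, fun u => γ.1⁻¹.1 *ᵥ u,
      fun u => by simp only [mulVec_mulVec, ← Submonoid.coe_mul, inv_mul_cancel]; exact one_mulVec u,
      fun u => by simp only [mulVec_mulVec, ← Submonoid.coe_mul, mul_inv_cancel]; exact one_mulVec u⟩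
      (fun c => (mulVec_smul _ _ _).trans (congrArg _ g1))
      (fun u => (congrArg (om · _) g1.symm).trans ((hLAG ι).2.2.1 γ.1 _ u)) g2]

namespace SyTIES

theorem om_anti {ι : Type} [Fintype ι] [DecidableEq ι] (u v : ι ⊕ ι → ℤ) : om v u = -om u v := by
  conv_lhs => rw [om, dotProduct_mulVec, ← mulVec_transpose, J_transpose, neg_mulVec,
    neg_dotProduct, dotProduct_comm]
  rfl

theorem null : volume {q : Sym2 (Fin 2) → ℝ | q s(0, 0) = q s(1, 1)} = 0 := by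
  let f : (Sym2 (Fin 2) → ℝ) →ₗ[ℝ] ℝ :=
    LinearMap.proj (R := ℝ) (φ := fun _ : Sym2 (Fin 2) => ℝ) s(0, 0) -
      LinearMap.proj (R := ℝ) (φ := fun _ : Sym2 (Fin 2) => ℝ) s(1, 1)
  have h : {q : Sym2 (Fin 2) → ℝ | q s(0, 0) = q s(1, 1)} = (LinearMap.ker f : Set _) := by
    ext q
    simp [f, sub_eq_zero]
  rw [h]
  refine Measure.addHaar_submodule _ _ fun h' => ?_
  have h1 : (Pi.single s(0, 0) 1 : Sym2 (Fin 2) → ℝ) ∈ LinearMap.ker f := by
    rw [h']; trivial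
  simp [f] at h1

end SyTIES

theorem p_TIES (hUNF2 : S_UNF2) (hLAG : S_LAG) (hQ : S_Q) :
    S_TIES := by
  intro ι _ _ w hw
  refine ae_all_iff.2 fun u => ae_all_iff.2 fun v => ?_
  by_cases hi : LinearIndependent ℤ ![u, v]
  · by_cases ho : om u v = 0
    swap
    · exact Eventually.of_forall fun Z _ h => absurd h ho
    have hiso : Iso ![u, v] := fun a b => by
      fin_cases a <;> fin_cases b
      · exact UNF1.om_self u
      · exact ho
      · exact (SyTIES.om_anti u v).trans (by rw [ho, neg_zero])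
      · exact UNF1.om_self v
    have hr : 2 ≤ Fintype.card ι := by simpa using (hLAG ι).2.2.2.2.1 (Fin 2) _ hi hiso
    set H : Set (Sym2 (Fin 2) → ℝ) := {q | q s(0, 0) = q s(1, 1)} with hH
    have hHm : MeasurableSet H :=
      measurableSet_eq_fun (measurable_pi_apply _) (measurable_pi_apply _)
    have h1 := hUNF2 ι 2 w (fun _ => H.indicator 1) hr hw fun _ => measurable_one.indicator hHm
    have h2 : ∫⁻ q in PD (Fin 2), H.indicator (1 : (Sym2 (Fin 2) → ℝ) → ℝ≥0∞) q *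
        ENNReal.ofReal ((mat q).det ^ (Fintype.card ι - 2)) = 0 := by
      refine lintegral_eq_zero_of_ae_eq_zero (ae_restrict_of_ae ?_)
      filter_upwards [compl_mem_ae_iff.2 SyTIES.null] with q hq
      rw [Set.indicator_of_notMem hq, zero_mul, Pi.zero_apply]
    simp only [h2, mul_zero, tsum_zero] at h1
    have hm : ∀ v : ι ⊕ ι → ℤ, Measurable fun Z : HH ι => qf (Qm Z) v := fun v =>
      (continuous_const.dotProduct ((hQ ι).2.2.2.2.2.1.matrix_mulVec continuous_const)).measurable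
    set A : Set (HH ι) := {Z | qf (Qm Z) v = qf (Qm Z) u} with hA
    have hAm : MeasurableSet A := measurableSet_eq_fun (hm v) (hm u)
    have h3 : (μH ι).withDensity w A = 0 := by
      rw [withDensity_apply _ hAm, ← lintegral_indicator hAm, ← nonpos_iff_eq_zero, ← h1]
      refine lintegral_mono fun Z => ?_
      by_cases hZ : Z ∈ A
      · rw [Set.indicator_of_mem hZ]
        refine le_mul_of_one_le_left' (le_trans (le_of_eq ?_) (ENNReal.le_tsum ⟨_, hi, hiso⟩))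
        have hmem : coord (gram (Qm Z) ![u, v]) ∈ H := by
          show (qf (Qm Z) u + qf (Qm Z) u) / 2 = (qf (Qm Z) v + qf (Qm Z) v) / 2
          rw [show qf (Qm Z) v = qf (Qm Z) u from hZ]
        exact (Set.indicator_of_mem hmem (1 : (Sym2 (Fin 2) → ℝ) → ℝ≥0∞)).symm
      · rw [Set.indicator_of_notMem hZ]
        exact zero_le
    filter_upwards [compl_mem_ae_iff.2 h3] with Z hZ _ _ h
    exact absurd h hZ
  · refine Eventually.of_forall fun Z hu _ h => ?_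
    rw [LinearIndependent.pair_iff] at hi
    push Not at hi
    obtain ⟨a, b, hab, hne⟩ := hi
    have hq := (hQ ι).2.2.2.2.2.2.2.1 Z u hu
    have hs := (hQ ι).2.2.2.2.2.2.2.2.1 Z
    have e : a • u = (-b) • v := by rw [neg_smul]; exact eq_neg_of_add_eq_zero_left hab
    have h1 : (a : ℝ) ^ 2 = ((-b : ℤ) : ℝ) ^ 2 := by
      refine mul_right_cancel₀ hq.ne' ?_
      rw [← hs a u, e, hs, h]
    have h2 : a = -b ∨ a = - -b := sq_eq_sq_iff_eq_or_eq_neg.1 (by exact_mod_cast h1)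
    have ha : a ≠ 0 := fun h0 => hne h0 (by omega)
    rcases h2 with h2 | h2
    · left
      rw [← h2] at e
      exact (smul_right_injective _ ha e).symm
    · right
      rw [show -b = -a by omega, neg_smul, ← smul_neg] at e
      rw [smul_right_injective _ ha e, neg_neg]

namespace SyVV

variable {ι : Type} [Fintype ι] [DecidableEq ι]

theorem re_form (M : Matrix ι ι ℝ) (a b : ι → ℝ) (v : ι → ℂ) (ha : ∀ i, (v i).re = a i)
    (hb : ∀ i, (v i).im = -b i) :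
    (star v ⬝ᵥ cm M *ᵥ v).re = a ⬝ᵥ M *ᵥ a + b ⬝ᵥ M *ᵥ b := by
  simp [dotProduct, mulVec, ha, hb, ← Finset.sum_add_distrib]

theorem per_eq (Z : HH ι) (m n : ι → ℤ) : per Z.1 m n = qf (Qm Z) (Sum.elim m n) := by
  have hu : IsUnit (Ym Z).det := isUnit_iff_ne_zero.mpr (Ym_det_pos Z).ne'
  have e1 : (mat fun p => ((Z.1 p).im : ℂ))⁻¹ = cm (Ym Z)⁻¹ :=
    inv_eq_left_inv (show cm _ * cm (Ym Z) = 1 by rw [← cm_mul, nonsing_inv_mul _ hu, cm_one])
  have e2 : cz (Sum.elim m n) = Sum.elim (cz m) (cz n) := by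
    funext a; rcases a with a | a <;> rfl
  have sX : ∀ x y : ι → ℝ, Xm Z *ᵥ x ⬝ᵥ y = x ⬝ᵥ Xm Z *ᵥ y := fun x y => by
    rw [dotProduct_mulVec, ← mulVec_transpose, Xm_transpose]
  have sY : ∀ x y : ι → ℝ, Ym Z *ᵥ x ⬝ᵥ y = x ⬝ᵥ Ym Z *ᵥ y := fun x y => by
    rw [dotProduct_mulVec, ← mulVec_transpose, Ym_transpose]
  rw [per, e1, re_form _ (cz m - Xm Z *ᵥ cz n) (Ym Z *ᵥ cz n) _
    (fun i => by simp [mulVec, dotProduct, cz, Xm]) (fun i => by simp [mulVec, dotProduct, cz, Ym]),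
    qf, Qm, e2, fromBlocks_mulVec, sumElim_dotProduct_sumElim, mulVec_mulVec (cz n) _ (Ym Z),
    nonsing_inv_mul _ hu, one_mulVec, sY, sub_dotProduct, sX]
  simp only [Sum.elim_comp_inl, Sum.elim_comp_inr, mulVec_sub, dotProduct_sub, dotProduct_add,
    neg_mulVec, add_mulVec, dotProduct_neg, mulVec_mulVec, Matrix.mul_assoc]
  ring

theorem vv_eq (hQ : S_Q) {F : Set (Sym2 ι → ℂ)} (hF : FD F) (s : ℝ) :
    vv F s = (μH ι ({Z : HH ι | Z.1 ∈ F} ∩ (Short ι s)ᶜ)).toReal := by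
  have hH := MeasurableEmbedding.subtype_coe (isOpen_HS ι).measurableSet
  set A := {Z : HH ι | Z.1 ∈ F} ∩ (Short ι s)ᶜ
  have hA : MeasurableSet A :=
    (hH.measurable hF.1).inter ((hQ ι).2.2.2.2.2.2.2.2.2.1 s).measurableSet.compl
  have e : {z ∈ F | ∀ m n : ι → ℤ, (m, n) ≠ 0 → s ≤ per z m n} = Subtype.val '' A := by
    ext z
    constructor
    · rintro ⟨hz, h⟩
      refine ⟨⟨z, hF.2.1 hz⟩, ⟨hz, ?_⟩, rfl⟩
      rintro ⟨v, hv, hlt⟩
      have := h (v ∘ Sum.inl) (v ∘ Sum.inr) fun h0 => hv <| by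
        funext a
        rcases a with a | a
        · exact congrFun (congrArg Prod.fst h0) a
        · exact congrFun (congrArg Prod.snd h0) a
      rw [per_eq ⟨z, hF.2.1 hz⟩, Sum.elim_comp_inl_inr] at this
      exact not_lt.2 this hlt
    · rintro ⟨Z, ⟨hz, h⟩, rfl⟩
      refine ⟨hz, fun m n h0 => not_lt.1 fun hlt => h ⟨Sum.elim m n, fun h1 => h0 ?_, ?_⟩⟩
      · exact Prod.ext (funext fun a => congrFun h1 (.inl a)) (funext fun a => congrFun h1 (.inr a))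
      · rwa [← per_eq]
  have h1 := hH.setIntegral_map (μ := Measure.comap Subtype.val volume)
    (fun z => ((mat fun p => (z p).im).det ^ (Fintype.card ι + 1))⁻¹) (Subtype.val '' A)
  rw [hH.map_comap, Measure.restrict_restrict (hH.measurableSet_image' hA),
    Set.inter_eq_left.2 (Set.image_subset_range _ _),
    Set.preimage_image_eq _ Subtype.val_injective] at h1
  rw [vv, e, h1, μH, withDensity_apply _ hA]
  exact integral_eq_lintegral_of_nonneg_ae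
    (Eventually.of_forall fun Z => inv_nonneg.2 (pow_nonneg (Ym_det_pos Z).le _))
    ((continuous_Ym.matrix_det.pow _).measurable.inv.aestronglyMeasurable)

theorem vv_mass [Nonempty ι] (hFD2 : S_FD2) (hVFIN : S_VFIN) (hPROP : S_PROP) (hQ : S_Q)
    {F : Set (Sym2 ι → ℂ)} {w : HH ι → ℝ≥0∞} (hF : FD F) (hw : IsWt (SpZ ι) (HH ι) w) (s : ℝ) :
    vv F s = 2 * (mass w (Short ι s)ᶜ).toReal := by
  have hS : MeasurableSet (Short ι s)ᶜ := ((hQ ι).2.2.2.2.2.2.2.2.2.1 s).measurableSet.compl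
  have : IsFiniteMeasure (νw w) := isFiniteMeasure_withDensity
    (by rw [(hPROP ι).2.2.1 w hw]; exact hVFIN.1 ι)
  have h := (hFD2 ι F w ((Short ι s)ᶜ.indicator fun _ => 1) hF hw (measurable_const.indicator hS)
    (fun γ Z => by
      classical
      simp only [Set.indicator, Set.mem_compl_iff, (hQ ι).2.2.2.2.2.2.2.2.2.2 s γ Z])
    ((integrable_const _).indicator hS)).2
  rw [integral_indicator hS, integral_indicator hS, setIntegral_const, setIntegral_const,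
    Measure.real, Measure.real, Measure.restrict_apply hS, νw, withDensity_apply _ hS] at h
  rw [vv_eq hQ hF, Set.inter_comm, mass]
  simp only [Complex.real_smul, mul_one] at h
  exact_mod_cast h

end SyVV

theorem p_VV (hFD2 : S_FD2) (hSV : S_SV) (hVFIN : S_VFIN) (hPROP : S_PROP) (hMEAS : S_MEAS) (hQ : S_Q) :
    S_VV := by
  intro g F w s hg hF hw
  have : Nonempty (Fin g) := ⟨⟨0, hg⟩⟩
  have h0 : Short (Fin g) 0 = ∅ := Set.eq_empty_of_forall_notMem fun Z ⟨v, hv, h⟩ =>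
    lt_asymm h ((hQ _).2.2.2.2.2.2.2.1 Z v hv)
  have hv : (vol (Fin g)).toReal ≠ 0 :=
    ENNReal.toReal_ne_zero.2 ⟨(hPROP _).2.2.2.1, hVFIN.1 _⟩
  rw [SyVV.vv_mass hFD2 hVFIN hPROP hQ hF hw, SyVV.vv_mass hFD2 hVFIN hPROP hQ hF hw, h0,
    Set.compl_empty, mass, mass, Measure.restrict_univ, (hPROP _).2.2.1 w hw, ← hSV]
  field_simp

end Pool.Agent.P.MP_59bdab_ag
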