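import Pool.Agent.P.MP_59bdab_ag.Sys.Iface
import Pool.Agent.P.MP_59bdab_ag.LOC
import Pool.Agent.P.MP_59bdab_ag.JLOC
import Pool.Agent.P.MP_59bdab_ag.JUP

/-! Localisation of Fourier-Jacobi coefficients; the lower bound. -/

set_option linter.unusedSectionVars false

namespace Pool.Agent.P.MP_59bdab_ag

open Matrix MeasureTheory Filter Topology
open scoped ENNReal ComplexOrder

namespace SyLOC2

variable {ι : Type} [Fintype ι] [DecidableEq ι]

theorem sum_le {k m : ℕ} {f : (Sym2 ι → ℂ) → ℂ} {s : Finset ℕ} {φ : ℕ → (Sym2 ι → ℂ) → ℂ}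
    (hs : s.card ≤ m) (hf : ∀ Z : HH ι, f Z.1 = ∑ j ∈ s, φ j Z.1) (Z : HH ι) :
    FF k f Z ≤ m * ∑ j ∈ s, FF k (φ j) Z := by
  have h1 : ‖f Z.1‖ ^ 2 ≤ m * ∑ j ∈ s, ‖φ j Z.1‖ ^ 2 := by
    rw [hf]
    calc ‖∑ j ∈ s, φ j Z.1‖ ^ 2 ≤ (∑ j ∈ s, ‖φ j Z.1‖) ^ 2 :=
          pow_le_pow_left₀ (norm_nonneg _) (norm_sum_le _ _) 2
      _ ≤ s.card * ∑ j ∈ s, ‖φ j Z.1‖ ^ 2 := sq_sum_le_card_mul_sum_sq
      _ ≤ _ := mul_le_mul_of_nonneg_right (by exact_mod_cast hs)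
          (Finset.sum_nonneg fun _ _ => sq_nonneg _)
  simp only [FF]
  rw [← Finset.sum_mul, ← mul_assoc]
  exact mul_le_mul_of_nonneg_right h1 (pow_nonneg (Ym_det_pos Z).le _)

end SyLOC2

open LOC in
theorem p_LOC2 (hBERG : S_BERG) (hIK : S_IK) :
    S_LOC2 := by
  intro ι _ _ a s0 C θ hs0 hC hθ0 hθ1
  obtain ⟨n0, hn0, hB⟩ := (hBERG ι).1 s0 hs0
  set N := tri (Fintype.card ι) with hN
  have hc : 0 < cg (Fintype.card ι) := by unfold cg; positivity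
  have hI := (hIK ι).1 (1 / 2) (by norm_num) (by norm_num)
  have habs : |θ| < 1 := by rw [abs_of_nonneg hθ0]; exact hθ1
  refine ⟨fun k => ENNReal.ofReal ((k : ℝ) ^ (N + 2) * θ ^ k * (a ^ 2 * C)) * n0 *
    ((k : ℝ≥0∞) ^ N * Ik ι k (1 / 2))⁻¹, ?_, ?_⟩
  · have h1 : Tendsto (fun k : ℕ => ENNReal.ofReal ((k : ℝ) ^ (N + 2) * θ ^ k * (a ^ 2 * C))) atTop
        (𝓝 0) := by
      have := ENNReal.tendsto_ofReal
        ((tendsto_pow_const_mul_const_pow_of_abs_lt_one (N + 2) habs).mul_const (a ^ 2 * C))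
      simpa using this
    have h2 := ENNReal.Tendsto.mul_const h1 (b := n0) (Or.inr hn0)
    have h3 := ENNReal.Tendsto.mul h2 (Or.inr (ENNReal.inv_ne_top.mpr
      (ENNReal.ofReal_pos.mpr (inv_pos.mpr hc)).ne')) (ENNReal.tendsto_inv_iff.mpr hI)
      (Or.inr (by simp))
    simpa using h3
  have hT : Tendsto (fun k : ℕ => C * θ ^ k) atTop (𝓝 0) := by
    simpa using (tendsto_pow_atTop_nhds_zero_of_lt_one hθ0 hθ1).const_mul C
  filter_upwards [hI.eventually (gt_mem_nhds ENNReal.ofReal_lt_top),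
    hT.eventually (gt_mem_nhds (by norm_num : (0 : ℝ) < 1 / 2)), eventually_ge_atTop 1]
    with k hk1 hk2 hk3 G w R D f s φ hw hR hD hDi hs hf hφ
  have hk0 : ((k : ℝ≥0∞) ^ N) ≠ 0 := pow_ne_zero _ (by exact_mod_cast (by omega : k ≠ 0))
  have hkt : ((k : ℝ≥0∞) ^ N) ≠ ⊤ := ENNReal.pow_ne_top (ENNReal.natCast_ne_top k)
  have hI0 : Ik ι k (1 / 2) ≠ 0 := (hIK ι).2.2.1 k _ (by norm_num)
  have hIt : Ik ι k (1 / 2) ≠ ⊤ := by
    intro h
    rw [h, ENNReal.mul_top hk0] at hk1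
    exact lt_irrefl _ hk1
  have hCθ : 0 ≤ C * θ ^ k := mul_nonneg hC (pow_nonneg hθ0 _)
  have hfin : nrm w k f ≠ ⊤ := by
    choose! M hM using fun j (hj : j ∈ s) => (hφ j hj).2.2.1
    have h1 : ∀ Z, FF k f Z ≤ ((a * k : ℕ) * ∑ j ∈ s, M j) * D Z := by
      intro Z
      refine (SyLOC2.sum_le hs hf Z).trans ?_
      rw [mul_assoc, Finset.sum_mul]
      refine mul_le_mul_of_nonneg_left (Finset.sum_le_sum fun j hj => ?_) (Nat.cast_nonneg _)
      rw [mul_comm]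
      exact ((hφ j hj).2.2.2 (M j) (hM j hj) Z).1
    have h2 : nrm w k f ≤ ENNReal.ofReal ((a * k : ℕ) * ∑ j ∈ s, M j) *
        ∫⁻ Z, ENNReal.ofReal (D Z) * w Z ∂μH ι := by
      rw [← lintegral_const_mul' _ _ ENNReal.ofReal_ne_top]
      refine lintegral_mono fun Z => ?_
      show _ ≤ ENNReal.ofReal ((a * k : ℕ) * ∑ j ∈ s, M j) * (ENNReal.ofReal (D Z) * w Z)
      rw [← mul_assoc, ← ENNReal.ofReal_mul' (hD Z).1]
      exact mul_le_mul_left (ENNReal.ofReal_le_ofReal (h1 Z)) _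
    exact ne_top_of_le_ne_top (ENNReal.mul_ne_top ENNReal.ofReal_ne_top hDi) h2
  refine ⟨mod_sum hf fun j hj => (hφ j hj).1, hfin, fun Z hZ => ?_⟩
  set A := n0 * nrm w k f / Ik ι k (1 / 2) with hA
  have hAt : A ≠ ⊤ := ENNReal.div_ne_top (ENNReal.mul_ne_top hn0 hfin) hI0
  have hbd : ∀ j ∈ s, ∀ W, FF k (φ j) W ≤ A.toReal := by
    intro j hj
    refine bound_of_loc (hφ j hj).2.2 hD hCθ hk2.le ENNReal.toReal_nonneg fun W hW => ?_
    rw [← ENNReal.ofReal_le_iff_le_toReal hAt, hA,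
      ENNReal.le_div_iff_mul_le (Or.inl hI0) (Or.inl hIt)]
    exact (hB G w k (φ j) hw (hφ j hj).1 W (Set.disjoint_left.mp hR hW)).trans
      (mul_le_mul_right (hφ j hj).2.1 _)
  have h1 : FF k f Z ≤ (k : ℝ) ^ 2 * θ ^ k * (a ^ 2 * C) * D Z * A.toReal := by
    refine (SyLOC2.sum_le hs hf Z).trans ?_
    have h2 : ∑ j ∈ s, FF k (φ j) Z ≤ s.card • (C * θ ^ k * D Z * A.toReal) :=
      Finset.sum_le_card_nsmul _ _ _ fun j hj => ((hφ j hj).2.2.2 _ (hbd j hj) Z).2 hZ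
    rw [nsmul_eq_mul] at h2
    have h3 : 0 ≤ C * θ ^ k * D Z * A.toReal :=
      mul_nonneg (mul_nonneg hCθ (hD Z).1) ENNReal.toReal_nonneg
    have h4 : (s.card : ℝ) ≤ (a * k : ℕ) := by exact_mod_cast hs
    calc ((a * k : ℕ) : ℝ) * ∑ j ∈ s, FF k (φ j) Z
          ≤ (a * k : ℕ) * ((a * k : ℕ) * (C * θ ^ k * D Z * A.toReal)) :=
          mul_le_mul_of_nonneg_left (h2.trans (mul_le_mul_of_nonneg_right h4 h3))
            (Nat.cast_nonneg _)
      _ = _ := by push_cast; ring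
  refine (ENNReal.ofReal_le_ofReal h1).trans (le_of_eq ?_)
  have e : (k : ℝ) ^ (N + 2) * θ ^ k * (a ^ 2 * C) =
      (k : ℝ) ^ N * ((k : ℝ) ^ 2 * θ ^ k * (a ^ 2 * C)) := by ring
  rw [ENNReal.ofReal_mul' ENNReal.toReal_nonneg, ENNReal.ofReal_mul' (hD Z).1,
    ENNReal.ofReal_toReal hAt, e, ENNReal.ofReal_mul (pow_nonneg (Nat.cast_nonneg k) N),
    ENNReal.ofReal_pow (Nat.cast_nonneg _), ENNReal.ofReal_natCast,
    ENNReal.mul_inv (Or.inl hk0) (Or.inl hkt), hA, div_eq_mul_inv]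
  calc _ = ((k : ℝ≥0∞) ^ N * ((k : ℝ≥0∞) ^ N)⁻¹) *
        (ENNReal.ofReal ((k : ℝ) ^ 2 * θ ^ k * (a ^ 2 * C)) *
        ENNReal.ofReal (D Z) * (n0 * nrm w k f * (Ik ι k (1 / 2))⁻¹)) := by
        rw [ENNReal.mul_inv_cancel hk0 hkt, one_mul]
    _ = _ := by ring

namespace SyJLOC2

theorem big {ε σ q s : ℝ} (h : 0 < ε) (h0 : 0 < σ) (h1 : σ ≤ s) (hq : σ + ε ≤ q) :
    psi (σ / q) ≤ JLOC.th (ε / s) := by
  have s0 := h0.trans_le h1
  rw [← div_div_div_cancel_right₀ s0.ne']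
  exact JLOC.big (div_pos h s0) (div_pos h0 s0) ((div_le_one s0).2 h1)
    (add_div σ ε s ▸ div_le_div_of_nonneg_right hq s0.le)

theorem small {ε σ q s : ℝ} (h : 0 < ε) (h0 : 0 < q) (h1 : σ ≤ s) (hq : q ≤ σ - ε) :
    psi (σ / q) ≤ JLOC.th (ε / s) := by
  have s0 : 0 < s := by linarith
  rw [← div_div_div_cancel_right₀ s0.ne']
  exact JLOC.small (div_pos h s0) (div_pos h0 s0) ((div_le_one s0).2 h1)
    (sub_div σ ε s ▸ div_le_div_of_nonneg_right hq s0.le)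

theorem dom {σ q s : ℝ} (h0 : 0 < σ) (h1 : σ ≤ s) (hq : 0 < q) (n : ℕ) :
    psi (σ / q) ^ n ≤ min 1 ((Real.exp 1 * s / q) ^ n) := by
  have h2 := psi_nonneg (div_pos h0 hq).le
  refine le_min (pow_le_one₀ h2 (psi_le_one _)) (pow_le_pow_left₀ h2
    ((psi_le_mul (div_pos h0 hq).le).trans ?_) n)
  rw [← mul_div_assoc]
  exact div_le_div_of_nonneg_right (mul_le_mul_of_nonneg_left h1 (Real.exp_pos 1).le) hq.le

end SyJLOC2

open SyJLOC2 in
theorem p_JLOC2 (hMOVE : S_MOVE) (hDEC : S_DEC) (hLAG : S_LAG) (hQ : S_Q) :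
    S_JLOC2 := by
  intro ι _ _ i s0 s ε hε hs0
  rcases lt_or_ge s s0 with hs | hs
  · exact ⟨0, 0, le_rfl, le_rfl, one_pos, fun _ _ _ _ h1 h2 => absurd (h1.trans h2) hs.not_ge⟩
  have t0 := JLOC.th_pos (div_pos hε (show 0 < s by linarith))
  have t1 := JLOC.th_lt (div_pos hε (show 0 < s by linarith))
  refine ⟨(JLOC.th (ε / s))⁻¹ ^ (Fintype.card ι + 1), _, by positivity, t0.le, t1,
    fun k j f hk h1 h2 hM hV hE hb => ⟨hb, fun M hbM Z => ?_⟩⟩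
  have hk0 : 0 < k := by omega
  have hσ : 0 < 4 * Real.pi * j / k := by linarith
  have hj : 0 < j := by
    rcases Nat.eq_zero_or_pos j with rfl | h
    · simp at hσ
    · exact h
  obtain ⟨-, -, -, -, -, -, -, q8, -⟩ := hQ ι
  have hq : 0 < qf (Qm Z) (ev i) := q8 Z _ fun h => by simpa [ev] using congrFun h (Sum.inl i)
  obtain ⟨Z', hZ'⟩ := (hMOVE ι k j f Z hk0 hj hM.1).2 i hE
  have hM0 : 0 ≤ M := (FF_nonneg k f Z).trans (hbM Z)
  set σ := 4 * Real.pi * j / k with hσd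
  set q := qf (Qm Z) (ev i) with hqd
  have p0 := psi_nonneg (div_pos hσ hq).le
  have hD : psi (σ / q) ^ (Fintype.card ι + 1) ≤ DJ2 i (Real.exp 1 * s) Z := dom hσ h2 hq _
  have hD0 : 0 ≤ DJ2 i (Real.exp 1 * s) Z := (pow_nonneg p0 _).trans hD
  obtain ⟨m, rfl⟩ := Nat.exists_eq_add_of_le hk
  have key : ∀ t, 0 ≤ t → psi (σ / q) ≤ t →
      FF (Fintype.card ι + 1 + m) f Z ≤ t ^ m * DJ2 i (Real.exp 1 * s) Z * M := fun t ht h => by
    rw [hZ', pow_add, mul_comm _ (_ ^ m)]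
    exact mul_le_mul (mul_le_mul (pow_le_pow_left₀ p0 h m) hD (by positivity) (by positivity))
      (hbM Z') (FF_nonneg _ _ _) (by positivity)
  refine ⟨by simpa using key 1 zero_le_one (psi_le_one _), fun hZ => ?_⟩
  rw [pow_add (JLOC.th _), ← mul_assoc, ← mul_pow, inv_mul_cancel₀ t0.ne', one_pow, one_mul]
  rcases le_total (σ + ε) q with c1 | c1
  · exact key _ t0.le (big hε hσ h2 c1)
  rcases le_total q (σ - ε) with c2 | c2
  · exact key _ t0.le (small hε hq h2 c2)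
  obtain ⟨v, hv, ho, hv'⟩ : ∃ v : ι ⊕ ι → ℤ, v ≠ 0 ∧ om (ev i) v = 0 ∧ qf (Qm Z) v < q - 2 * ε := by
    by_contra hn
    simp only [not_exists, not_and, not_lt] at hn
    exact hZ ⟨⟨by linarith, hn⟩, show s0 - ε ≤ q by linarith⟩
  have hv0 := q8 Z v hv
  obtain ⟨γ, g1, g2⟩ := (hLAG ι).1 v
  rw [(hLAG ι).2.2.2.1 i v, neg_eq_zero] at ho
  have h5 := hDEC ι (st1 i) _ j f M hk0 hj hM hV hbM Z v hv ⟨γ, mem_st1.2 (g2 i ho), g1⟩
    (by linarith)
  have h6 : DJ2 i (Real.exp 1 * s) Z = 1 := min_eq_left (one_le_pow₀ ((one_le_div hq).2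
    (by nlinarith [Real.add_one_le_exp 1])))
  rw [h6, mul_one]
  refine h5.trans (mul_le_mul_of_nonneg_right ((pow_le_pow_left₀
    (psi_nonneg (div_pos hσ hv0).le) (small hε hv0 h2 (by linarith)) _).trans ?_) hM0)
  exact pow_le_pow_of_le_one t0.le t1.le (Nat.le_add_left _ _)

namespace SyJUP2

open JUP

variable {ι : Type} [Fintype ι] [DecidableEq ι]

theorem closed_RR2 (hQ : S_Q) (i : ι) (s ε : ℝ) : IsClosed (RR2 i s ε) := by
  have h : RR2 i s ε = {Z | qf (Qm Z) (ev i) ≤ s + ε} ∩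
      ⋂ v : {v : ι ⊕ ι → ℤ // v ≠ 0 ∧ om (ev i) v = 0},
        {Z | qf (Qm Z) (ev i) - 2 * ε ≤ qf (Qm Z) v.1} := by
    ext Z
    simp [RR2]
  rw [h]
  exact (isClosed_le (cont_qf hQ _) continuous_const).inter (isClosed_iInter fun v =>
    isClosed_le ((cont_qf hQ _).sub continuous_const) (cont_qf hQ _))

theorem DJ2_mem (hQ : S_Q) (i : ι) {a : ℝ} (ha : 0 ≤ a) (Z : HH ι) :
    0 ≤ DJ2 i a Z ∧ DJ2 i a Z ≤ 1 := by
  have h := (hQ ι).2.2.2.2.2.2.2.1 Z _ (ev_ne i)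
  exact ⟨le_min zero_le_one (by positivity), min_le_left _ _⟩

theorem meas_DJ2 (hQ : S_Q) (i : ι) (a : ℝ) :
    Measurable fun Z : HH ι => ENNReal.ofReal (DJ2 i a Z) :=
  (measurable_const.min ((measurable_const.div (cont_qf hQ _).measurable).pow_const _)).ennreal_ofReal

theorem DJ2_le (hQ : S_Q) (i : ι) (s : ℝ) (Z : HH ι) :
    DJ2 i (Real.exp 1 * s) Z ≤ max 1 (s ^ (Fintype.card ι + 1)) * DJ i Z := by
  have h := (hQ ι).2.2.2.2.2.2.2.1 Z _ (ev_ne i)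
  have h0 : (0 : ℝ) ≤ max 1 (s ^ (Fintype.card ι + 1)) := zero_le_one.trans (le_max_left _ _)
  rw [DJ2, DJ, mul_min_of_nonneg _ _ h0, mul_one]
  refine min_le_min (le_max_left _ _) ?_
  rw [mul_comm (Real.exp 1) s, mul_div_assoc, mul_pow]
  exact mul_le_mul_of_nonneg_right (le_max_right _ _) (by positivity)

theorem int_DJ2 (hQ : S_Q) (i : ι) (s : ℝ) (w : HH ι → ℝ≥0∞)
    (hD : ∫⁻ Z, ENNReal.ofReal (DJ i Z) * w Z ∂μH ι ≠ ⊤) :
    ∫⁻ Z, ENNReal.ofReal (DJ2 i (Real.exp 1 * s) Z) * w Z ∂μH ι ≠ ⊤ := by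
  have h0 : (0 : ℝ) ≤ max 1 (s ^ (Fintype.card ι + 1)) := zero_le_one.trans (le_max_left _ _)
  refine ne_top_of_le_ne_top (ENNReal.mul_ne_top
    (ENNReal.ofReal_ne_top (r := max 1 (s ^ (Fintype.card ι + 1)))) hD) ?_
  rw [← lintegral_const_mul' _ _ ENNReal.ofReal_ne_top]
  refine lintegral_mono fun Z => ?_
  rw [← mul_assoc, ← ENNReal.ofReal_mul h0]
  exact mul_le_mul_left (ENNReal.ofReal_le_ofReal (DJ2_le hQ i s Z)) _

theorem disj (hQ : S_Q) (i : ι) {s0 s ε : ℝ} (hs : 0 < s + ε) :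
    Disjoint (RR2 i s ε ∩ {Z | s0 - ε ≤ qf (Qm Z) (ev i)})
      (Short ι (min (s0 - 3 * ε) (1 / (s + ε)))) := by
  rw [Set.disjoint_left]
  rintro Z ⟨⟨h0, h1⟩, h2⟩ ⟨v, hv, h3⟩
  have h5 : s0 - ε ≤ qf (Qm Z) (ev i) := h2
  obtain ⟨h6, h7⟩ := lt_min_iff.1 h3
  by_cases ho : om (ev i) v = 0
  · have h4 := h1 v hv ho
    linarith
  · have h4 := (hQ ι).2.2.2.2.1 Z (ev i) v
    have h8 : (1 : ℝ) ≤ (om (ev i) v : ℝ) ^ 2 := by
      have : (1 : ℤ) ≤ om (ev i) v ^ 2 := by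
        have := sq_pos_of_ne_zero ho
        omega
      exact_mod_cast this
    have h9 := (hQ ι).2.2.2.2.2.2.2.1 Z v hv
    rw [lt_div_iff₀ hs] at h7
    nlinarith [mul_le_mul_of_nonneg_right h0 h9.le]

end SyJUP2

open JUP SyJUP2 in
theorem p_JUP2 (hFIL : S_FIL) (hUBD : S_UBD) (hLOC2 : S_LOC2) (hJLOC2 : S_JLOC2) (hPROJ : S_PROJ) (hNRM : S_NRM) (hBDD : S_BDD) (hUNF1 : S_UNF1) (hVFIN : S_VFIN) (hPROP : S_PROP) (hQ : S_Q) :
    S_JUP2 := by
  intro ι _ _ i w k a m s0 s ε hw hk hε hs0 hs hev δ hδ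
  have hs1 : 0 < s := by linarith
  have hse : 0 < s + ε := by linarith
  have hes : 0 ≤ Real.exp 1 * s := by positivity
  set R : Set (HH ι) := RR2 i s ε ∩ {Z | s0 - ε ≤ qf (Qm Z) (ev i)} with hR
  have hRm : MeasurableSet R :=
    ((closed_RR2 hQ i s ε).inter (isClosed_le continuous_const (cont_qf hQ _))).measurableSet
  set s1 : ℝ := min (s0 - 3 * ε) (1 / (s + ε)) with hs1'
  have hs2 : 0 < s1 := lt_min (by linarith) (by positivity)
  have hdis : Disjoint R (Short ι s1) := disj hQ i hse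
  obtain ⟨w0, hw0⟩ := (hPROP ι).2.1
  obtain ⟨hD0, hM⟩ := (hUNF1 ι i w0 w hw0 hw).2.2 (hVFIN.1 _)
  have hD := int_DJ2 hQ i s w hD0
  have hRR : mass w (RR2 i s ε) ≠ ⊤ :=
    ne_top_of_le_ne_top (hM (s + ε)) (lintegral_mono_set fun Z hZ => hZ.1)
  have hle : mass w R ≤ mass w (RR2 i s ε) := lintegral_mono_set Set.inter_subset_left
  obtain ⟨C, θ, hC, hθ0, hθ1, hJ⟩ := hJLOC2 ι i s0 s ε hε (by linarith)
  obtain ⟨η, hη, hL⟩ := hLOC2 ι ⌈s⌉₊ s1 C θ hs2 hC hθ0 hθ1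
  have hV : ∀ n, ∃ V : Submodule ℂ ((Sym2 ι → ℂ) → ℂ),
      a n ≤ m n → FiniteDimensional ℂ (SF ι (k n) (a n)) →
      (∀ v ∈ V, ∃ f : ℕ → (Sym2 ι → ℂ) → ℂ, (∀ j, a n ≤ j → f j ∈ SF ι (k n) j) ∧
        v = ∑ j ∈ Finset.Ico (a n) (m n), fj (f j) i (j : ℕ)) ∧
      Module.finrank ℂ (SF ι (k n) (a n)) =
        Module.finrank ℂ (SF ι (k n) (m n)) + Module.finrank ℂ V := by
    intro n
    by_cases h : a n ≤ m n ∧ FiniteDimensional ℂ (SF ι (k n) (a n))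
    · obtain ⟨-, p2, p3, p4, p5⟩ := hPROJ ι i (k n)
      have := h.2
      obtain ⟨V, -, h1, h2⟩ := hFIL _ (SF ι (k n)) (fun j f => fj f i (j : ℕ)) (a n) p5
        (fun j _ f hf => p2 j f hf) (fun j c f hf g hg => p3 (a n) j c f hf g hg)
        (fun t f hf => p4 (a n) t f hf) (m n) h.1
      exact ⟨V, fun _ _ => ⟨h1, h2⟩⟩
    · exact ⟨⊥, fun h1 h2 => (h ⟨h1, h2⟩).elim⟩
  choose V hV using hV
  have hU := hUBD ι (st1 i) w 1 R s1 (fun Z => ENNReal.ofReal (DJ2 i (Real.exp 1 * s) Z)) k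
    (fun n => η (k n)) V hw (encard_le i) hRm hs2 hdis (ne_top_of_le_ne_top hRR hle)
    (meas_DJ2 hQ i _) hD hk (hη.comp hk) (by
      filter_upwards [hev, hk.eventually hL, hk.eventually_ge_atTop 13,
        hk.eventually_ge_atTop (Fintype.card ι + 1)] with n hn hLn h13 hg v hv
      obtain ⟨h1, h2, h3, h4⟩ := hn
      obtain ⟨f, hf, rfl⟩ := (hV n h2 h4).1 v hv
      have hk0 : (0 : ℝ) < k n := by exact_mod_cast (by omega : 0 < k n)
      have hP := fun j (hj : j ∈ Finset.Ico (a n) (m n)) =>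
        (hPROJ ι i (k n)).1 j j (f j) (hf j (Finset.mem_Ico.1 hj).1)
      have ha1 : 1 ≤ a n := by
        rcases Nat.eq_zero_or_pos (a n) with h0 | h0
        · rw [h0] at h1
          simp only [Nat.cast_zero, mul_zero, zero_div] at h1
          linarith
        · exact h0
      have hmk : m n ≤ ⌈s⌉₊ * k n := by
        have h5 : 4 * Real.pi * m n ≤ s * k n := by rwa [div_le_iff₀ hk0] at h3
        have h7 : (m n : ℝ) ≤ 4 * Real.pi * m n :=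
          le_mul_of_one_le_left (Nat.cast_nonneg _) (by linarith [Real.pi_gt_three])
        have h8 : s * k n ≤ (⌈s⌉₊ : ℝ) * k n := mul_le_mul_of_nonneg_right (Nat.le_ceil s) hk0.le
        exact_mod_cast h7.trans (h5.trans h8)
      refine ⟨fun z hz => ?_, hLn (st1 i) w R (DJ2 i (Real.exp 1 * s)) _ (Finset.Ico (a n) (m n))
        (fun j => fj (f j) i (j : ℕ)) hw hdis (DJ2_mem hQ i hes) hD ?_ (fun Z => ?_) fun j hj => ?_⟩
      · rw [Finset.sum_apply]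
        exact Finset.sum_eq_zero fun j hj => (hP j hj).1 z hz
      · rw [Nat.card_Ico]
        omega
      · rw [Finset.sum_apply]
      · obtain ⟨j1, j2⟩ := Finset.mem_Ico.1 hj
        obtain ⟨-, q2, q3, q4, q5⟩ := hP j hj
        obtain ⟨M, hM⟩ := (hBDD ι (k n) (f j)).1 j (ha1.trans j1) h13 (hf j j1)
        have j1' : (a n : ℝ) ≤ j := by exact_mod_cast j1
        have j2' : (j : ℝ) ≤ m n := by exact_mod_cast j2.le
        refine ⟨q2, hNRM ι i (k n) w _ (fun j => fj (f j) i (j : ℕ)) hw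
          (fun l hl => ⟨(hP l hl).2.1, (hP l hl).2.2.2.1⟩) j hj,
          hJ (k n) j _ hg (h1.trans ?_) (le_trans ?_ h3) q2 q3 q4 ⟨M, q5 M hM⟩⟩
        · gcongr
        · gcongr)
  filter_upwards [hev, hU.2 δ hδ] with n hn h1
  rw [(hV n hn.2.1 hn.2.2.2).2, Nat.cast_add]
  refine add_le_add le_rfl (h1.trans ?_)
  have h2 : (mass w R).toReal ≤ (mass w (RR2 i s ε)).toReal := ENNReal.toReal_mono hRR hle
  have h3 := cg_nonneg (Fintype.card ι)
  rw [Nat.cast_one, one_mul]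
  gcongr

theorem p_LOW2 (hLOW1 : S_LOW1) (hMUL : S_MUL) (hUP : S_UP) (hJUP2 : S_JUP2) (hPROP : S_PROP) :
    S_LOW2 := by
  intro ι _ _ i w₁ k m s0 s L hw₁ hk hev hs0 hs0s hT0 hm ε hε
  have : Nonempty ι := ⟨i⟩
  have hpi := Real.pi_pos
  obtain ⟨⟨k0, hk0, χ, hχ, hχ0⟩, hL⟩ := hLOW1 ι
  set N := tri (Fintype.card ι) with hN
  set c := cg (Fintype.card ι) with hc
  have hc0 : 0 < c := by rw [hc]; unfold cg; positivity
  set v := (vol ι).toReal with hv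
  have hv0 : 0 ≤ v := ENNReal.toReal_nonneg
  obtain ⟨w, hw⟩ := (hPROP ι).2.1
  -- choice of `δ`
  have hcont : Continuous fun δ : ℝ => 2 * c * v * (1 - δ * k0) ^ N := by fun_prop
  have h1 : ∀ᶠ δ in 𝓝[>] (0 : ℝ), (2 * c * v - ε / 4 < 2 * c * v * (1 - δ * k0) ^ N ∧
      4 * Real.pi * δ < s0) ∧ δ * k0 < 1 / 2 := by
    refine Eventually.filter_mono nhdsWithin_le_nhds (Eventually.and (Eventually.and ?_ ?_) ?_)
    · exact (hcont.tendsto 0).eventually_const_lt (by simp; linarith)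
    · exact ((by fun_prop : Continuous fun δ : ℝ => 4 * Real.pi * δ).tendsto 0).eventually_lt_const
        (by simpa using hs0)
    · exact ((by fun_prop : Continuous fun δ : ℝ => δ * k0).tendsto 0).eventually_lt_const
        (by simp)
  obtain ⟨δ, ⟨⟨hδ1, hδ2⟩, hδ3⟩, hδ0⟩ := (h1.and self_mem_nhdsWithin).exists
  have hδ0 : 0 < δ := hδ0
  set a : ℕ → ℕ := fun n => ⌊δ * k n⌋₊ with ha
  have ha1 : ∀ n, (a n : ℝ) ≤ δ * k n := fun n => Nat.floor_le (by positivity)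
  have ha2 : ∀ n, δ * k n < (a n : ℝ) + 1 := fun n => Nat.lt_floor_add_one _
  have hak : ∀ n, ((a n * k0 : ℕ) : ℝ) ≤ δ * k0 * k n := fun n => by
    push_cast
    have := mul_le_mul_of_nonneg_right (ha1 n) (Nat.cast_nonneg (α := ℝ) k0)
    linarith
  have hle : ∀ n, a n * k0 ≤ k n := fun n => by
    have h := hak n
    have h2 : (0 : ℝ) ≤ k n := Nat.cast_nonneg _
    have : ((a n * k0 : ℕ) : ℝ) ≤ k n := by nlinarith
    exact_mod_cast this
  set k' : ℕ → ℕ := fun n => k n - a n * k0 with hk'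
  have hkk : ∀ n, k' n + a n * k0 = k n := fun n => Nat.sub_add_cancel (hle n)
  have hk'ge : ∀ n, (1 - δ * k0) * k n ≤ k' n := fun n => by
    have h := hak n
    have h2 : ((k' n : ℝ)) + ((a n * k0 : ℕ) : ℝ) = k n := by exact_mod_cast hkk n
    linarith
  have hkR : Tendsto (fun n => (k n : ℝ)) atTop atTop := tendsto_natCast_atTop_atTop.comp hk
  have hk'top : Tendsto k' atTop atTop := by
    rw [← tendsto_natCast_atTop_iff (R := ℝ)]
    exact tendsto_atTop_mono hk'ge (hkR.const_mul_atTop (by linarith))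
  have hev' : ∀ n, Even (Fintype.card ι * k' n) := fun n => by
    have h := hev n
    rw [← hkk n, mul_add, Nat.even_add] at h
    exact h.mpr ((hk0.mul_left _).mul_left _)
  have hkpos : ∀ᶠ n in atTop, (0 : ℝ) < k n := hkR.eventually_gt_atTop 0
  have hlow : ∀ᶠ n in atTop, 4 * Real.pi * δ ≤ 4 * Real.pi * ((a n + 1 : ℕ) : ℝ) / k n := by
    filter_upwards [hkpos] with n hn
    rw [le_div_iff₀ hn]
    push_cast
    have := ha2 n
    nlinarith
  have hfin := (hUP ι w k (fun n => a n + 1) (4 * Real.pi * δ) (2 * Real.pi * δ) hw hk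
    (by positivity) (by nlinarith [mul_pos hpi hδ0]) hlow).1
  have ham : ∀ᶠ n in atTop, a n + 1 ≤ m n := by
    filter_upwards [hkpos, hm, hkR.eventually_ge_atTop (4 * Real.pi / (s0 - 4 * Real.pi * δ))]
      with n hn h2 h3
    have h4 := h2.1
    rw [le_div_iff₀ hn] at h4
    rw [div_le_iff₀ (by linarith)] at h3
    have h5 := ha1 n
    have h6 : 4 * Real.pi * ((a n + 1 : ℕ) : ℝ) ≤ 4 * Real.pi * m n := by
      push_cast; nlinarith
    exact_mod_cast le_of_mul_le_mul_left h6 (by positivity)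
  obtain ⟨ε₁, hε₁, hε₁', hT⟩ := hT0 (ε / (4 * c)) (by positivity) (4 * Real.pi * δ / 3)
    (by positivity)
  have hJ := hJUP2 ι i w₁ k (fun n => a n + 1) m (4 * Real.pi * δ) s ε₁ hw₁ hk hε₁
    (by linarith) (by linarith) (by
      filter_upwards [hlow, ham, hm, hfin] with n h1 h2 h3 h4 using ⟨h1, h2, h3.2, h4⟩)
    (ε / 4) (by positivity)
  have hL' := hk'top.eventually (hL (ε / 4) (by positivity))
  filter_upwards [hJ, hL', hfin, hkpos] with n h1 h2 h3 h4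
  have h5 := (hMUL ι).2 k0 χ hχ hχ0 (k' n) (a n) (by rw [hkk n]; exact h3)
  have h6 := h2 (hev' n) h5.1
  have h7 : (Module.finrank ℂ (SF ι (k' n) 1) : ℝ) ≤ Module.finrank ℂ (SF ι (k n) (a n + 1)) := by
    have := h5.2
    rw [hkk n] at this
    exact_mod_cast this
  have hK : (0 : ℝ) < (k n : ℝ) ^ N := by positivity
  have h8 : ((1 - δ * k0) * k n) ^ N ≤ (k' n : ℝ) ^ N :=
    pow_le_pow_left₀ (mul_nonneg (by linarith) h4.le) (hk'ge n) N
  have h9 : (k' n : ℝ) ^ N ≤ (k n : ℝ) ^ N :=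
    pow_le_pow_left₀ (Nat.cast_nonneg _) (by exact_mod_cast Nat.sub_le _ _) N
  rw [mul_pow] at h8
  have h10 : c * (mass w₁ (RR2 i s ε₁)).toReal ≤ c * L + ε / 4 := by
    have := mul_le_mul_of_nonneg_left hT hc0.le
    have e : c * (ε / (4 * c)) = ε / 4 := by field_simp
    nlinarith
  have h11 : (2 * c * v - ε / 2) * (k n : ℝ) ^ N ≤ (2 * c * v - ε / 4) * (k' n : ℝ) ^ N := by
    have h12 := mul_le_mul_of_nonneg_left h8 (by positivity : 0 ≤ 2 * c * v)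
    have h13 := mul_le_mul_of_nonneg_right hδ1.le hK.le
    nlinarith
  have h14 := mul_le_mul_of_nonneg_right h10 hK.le
  nlinarith

end Pool.Agent.P.MP_59bdab_ag
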