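import Pool.Agent.P.MP_59bdab_ag.Sys.Iface
import Pool.Agent.P.MP_59bdab_ag.TIE
import Pool.Agent.P.MP_59bdab_ag.JUP
import Pool.Agent.P.MP_59bdab_ag.UNF1
import Pool.Agent.P.MP_59bdab_ag.SV

/-! Masses of the regions with a short vector. -/

set_option linter.unusedSectionVars false

namespace Pool.Agent.P.MP_59bdab_ag

open Matrix MeasureTheory Filter Topology
open scoped ENNReal ComplexOrder

namespace SyTIE2

variable {ι : Type} [Fintype ι] [DecidableEq ι]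

theorem anti (u v : ι ⊕ ι → ℤ) : om u v = -om v u := by
  rw [om, om, dotProduct_mulVec, ← mulVec_transpose, J_transpose, neg_mulVec, neg_dotProduct,
    dotProduct_comm]

theorem cont (hQ : S_Q) (y : ι ⊕ ι → ℤ) : Continuous fun Z : HH ι => qf (Qm Z) y :=
  continuous_const.dotProduct ((hQ ι).2.2.2.2.2.1.matrix_mulVec continuous_const)

/-- The vector `v` is short, minimal, and shorter than the vectors that are not orthogonal to it. -/
def A (s : ℝ) (v : ι ⊕ ι → ℤ) : Set (HH ι) :=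
  {Z | qf (Qm Z) v ≤ s ∧ (∀ y, y ≠ 0 → om v y = 0 → qf (Qm Z) v ≤ qf (Qm Z) y) ∧
    ∀ y, om v y ≠ 0 → qf (Qm Z) v < qf (Qm Z) y}

theorem meas (hQ : S_Q) (s : ℝ) (v : ι ⊕ ι → ℤ) : MeasurableSet (A s v) := by
  simp only [A, Set.ofPred_and, Set.ofPred_forall]
  exact (isClosed_le (cont hQ v) continuous_const).measurableSet.inter
    ((isClosed_iInter fun y => isClosed_iInter fun _ => isClosed_iInter fun _ =>
      isClosed_le (cont hQ v) (cont hQ y)).measurableSet.inter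
      (.iInter fun y => .iInter fun _ => (isOpen_lt (cont hQ v) (cont hQ y)).measurableSet))

theorem measR (hQ : S_Q) (i : ι) (s ε : ℝ) : MeasurableSet (RR2 i s ε) := by
  simp only [RR2, Set.ofPred_and, Set.ofPred_forall]
  exact ((isClosed_le (cont hQ _) continuous_const).inter
    (isClosed_iInter fun y => isClosed_iInter fun _ => isClosed_iInter fun _ =>
      isClosed_le ((cont hQ _).sub continuous_const) (cont hQ y))).measurableSet

theorem mv (hL : S_LAG) (hQ : S_Q) {s : ℝ} (γ : SpZ ι) (Z : HH ι) (v : ι ⊕ ι → ℤ)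
    (h : γ • Z ∈ A s (γ.1 *ᵥ v)) : Z ∈ A s v := by
  have q3 := (hQ ι).2.2.1 γ Z
  have o3 := (hL ι).2.2.1 γ v
  refine ⟨q3 v ▸ h.1, fun y hy ho => ?_, fun y ho => ?_⟩ <;> rw [← q3 v, ← q3 y]
  · exact h.2.1 _ (fun h0 => hy (by rw [← TIE.back γ y, h0, mulVec_zero])) ((o3 y).trans ho)
  · exact h.2.2 _ (o3 y ▸ ho)

theorem mv_iff (hL : S_LAG) (hQ : S_Q) {s : ℝ} (γ : SpZ ι) (Z : HH ι) (v : ι ⊕ ι → ℤ) :
    γ • Z ∈ A s (γ.1 *ᵥ v) ↔ Z ∈ A s v :=
  ⟨mv hL hQ γ Z v, fun h => mv hL hQ γ⁻¹ _ _ (by rwa [inv_smul_smul, TIE.back])⟩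

theorem one (hT : S_TIES) (hU : S_UNF1) (hL : S_LAG) (hQ : S_Q) (i : ι) {w w₁ : HH ι → ℝ≥0∞}
    {s s' : ℝ} (hw : IsWt (SpZ ι) (HH ι) w) (hw₁ : IsWt (st1 i) (HH ι) w₁) (h1 : s < s') :
    ∫⁻ Z, (A s (ev i)).indicator 1 Z * w₁ Z ∂μH ι ≤ 2 * mass w (Short ι s') := by
  classical
  have hS : MeasurableSet (Short ι s') := ((hQ ι).2.2.2.2.2.2.2.2.2.1 s').measurableSet
  rw [(hU ι i w w₁ hw hw₁).1 (fun Z v => (A s v).indicator 1 Z)
    (fun v => measurable_one.indicator (meas hQ s v)) fun γ Z v => by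
      simp only [Set.indicator_apply, mv_iff hL hQ, Pi.one_apply],
    mass, ← lintegral_indicator hS, ← lintegral_const_mul' _ _ (by simp)]
  refine lintegral_mono_ae ?_
  filter_upwards [(ae_withDensity_iff hw.1).1 (hT ι w hw)] with Z hZ
  by_cases hw0 : w Z = 0
  · simp [hw0]
  by_cases hu : ∃ u, Prim1 u ∧ Z ∈ A s u
  · obtain ⟨u, u1, u2, u3, u4⟩ := hu
    have u0 := TIE.prim_ne u1
    rw [Set.indicator_of_mem (show Z ∈ Short ι s' from ⟨u, u0, u2.trans_lt h1⟩)]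
    refine mul_le_mul_left ?_ _
    calc _ ≤ ∑' p : {p : ι ⊕ ι → ℤ | Prim1 p},
          ((if p.1 = u then 1 else 0) + if p.1 = -u then 1 else 0 : ℝ≥0∞) := by
          refine ENNReal.tsum_le_tsum fun p => ?_
          by_cases hp : Z ∈ A s p.1
          · have o1 : om u p.1 = 0 := by_contra fun e =>
              (u4 _ e).not_gt (hp.2.2 u (by rwa [anti, neg_ne_zero]))
            rw [Set.indicator_of_mem hp]
            rcases hZ hw0 u p.1 u0 o1 (le_antisymm (hp.2.1 u u0 (by rw [anti, o1, neg_zero]))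
              (u3 _ (TIE.prim_ne p.2) o1)) with e1 | e1
            · rw [if_pos e1]
              exact le_self_add
            · rw [if_pos e1]
              exact le_add_self
          · rw [Set.indicator_of_notMem hp]
            exact zero_le
      _ ≤ ∑' v : ι ⊕ ι → ℤ, ((if v = u then 1 else 0) + if v = -u then 1 else 0 : ℝ≥0∞) :=
          ENNReal.tsum_comp_le_tsum_of_injective Subtype.val_injective
            fun v => (if v = u then 1 else 0) + if v = -u then 1 else 0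
      _ = 2 := by rw [ENNReal.tsum_add, tsum_ite_eq, tsum_ite_eq, one_add_one_eq_two]
  · have e0 : ∀ p : {p : ι ⊕ ι → ℤ | Prim1 p}, (A s p.1).indicator (1 : HH ι → ℝ≥0∞) Z = 0 :=
      fun p => Set.indicator_of_notMem (fun hp => hu ⟨p.1, p.2, hp⟩) _
    simp [e0]

theorem cover (hL : S_LAG) (hQ : S_Q) {i : ι} {s : ℝ} {Z : HH ι} (h : Z ∈ RR2 i s 0)
    (h' : Z ∉ A s (ev i)) : 1 ≤ ∑ a ∈ Finset.Icc 1 ⌊s⌋₊,
      (Set.Iic s).indicator 1 (qf (Qm Z) (ev i)) * pc i (a : ℕ) Z (qf (Qm Z) (ev i)) := by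
  have h1 : qf (Qm Z) (ev i) ≤ s := by simpa using h.1
  obtain ⟨y, y1, y2⟩ : ∃ y, om (ev i) y ≠ 0 ∧ qf (Qm Z) y ≤ qf (Qm Z) (ev i) := by
    by_contra e
    exact h' ⟨h1, fun y a b => by simpa using h.2 y a b, fun y a => not_le.1 fun b => e ⟨y, a, b⟩⟩
  have o4 := (hL ι).2.2.2.1 i
  obtain ⟨u, a, u0, u1, u2⟩ : ∃ u, ∃ a : ℕ, 0 < a ∧ om (ev i) u = a ∧
      qf (Qm Z) u ≤ qf (Qm Z) (ev i) := by
    rcases Int.natAbs_eq (om (ev i) y) with e | e
    · exact ⟨y, _, Int.natAbs_pos.2 y1, e, y2⟩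
    · refine ⟨(-1 : ℤ) • y, _, Int.natAbs_pos.2 y1, ?_, ?_⟩
      · rw [← neg_inj, ← e, o4, o4]
        simp
      · rw [(hQ ι).2.2.2.2.2.2.2.2.1]
        simpa using y2
  have q0 : 0 < qf (Qm Z) u := (hQ ι).2.2.2.2.2.2.2.1 Z u fun e => by
    rw [e, o4] at u1
    simp at u1
    omega
  have a1 : (a : ℝ) ≤ s := by
    have := (hQ ι).2.2.2.2.1 Z (ev i) u
    rw [u1, Int.cast_natCast] at this
    exact (pow_le_pow_iff_left₀ a.cast_nonneg (by linarith) two_ne_zero).1 (by nlinarith)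
  refine le_trans ?_ (Finset.single_le_sum (f := fun a : ℕ => (Set.Iic s).indicator 1
    (qf (Qm Z) (ev i)) * pc i a Z (qf (Qm Z) (ev i))) (fun _ _ => zero_le)
    (Finset.mem_Icc.2 ⟨u0, Nat.le_floor a1⟩))
  rw [Set.indicator_of_mem (Set.mem_Iic.2 h1), Pi.one_apply, one_mul]
  refine le_trans ?_ (ENNReal.le_tsum ⟨u, u1, fun c e => ?_⟩)
  · rw [Set.indicator_of_mem (Set.mem_Iic.2 u2), Pi.one_apply]
  · rw [e, o4] at u1
    simp [ev] at u1
    omega

theorem zero (hP : S_PAIR) (hT : S_TIES) (hE : S_EI) (hU : S_UNF1) (hL : S_LAG) (hQ : S_Q) (i : ι)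
    {w w₁ : HH ι → ℝ≥0∞} {s s' : ℝ} (hw : IsWt (SpZ ι) (HH ι) w) (hw₁ : IsWt (st1 i) (HH ι) w₁)
    (h1 : s < s') : mass w₁ (RR2 i s 0) ≤ 2 * mass w (Short ι s') +
      vol (Fin (Fintype.card ι - 1)) * ENNReal.ofReal (esum (Fintype.card ι - 1) s) := by
  have hβ : Measurable ((Set.Iic s).indicator (1 : ℝ → ℝ≥0∞)) :=
    measurable_one.indicator measurableSet_Iic
  have hp := fun a : ℕ => hP ι i w₁ _ (fun q => q) a hw₁ hβ measurable_id
  rw [← (hE _ s).2.2, Finset.mul_sum]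
  refine le_trans ?_ (add_le_add (one hT hU hL hQ i hw hw₁ h1)
    (Finset.sum_le_sum fun a _ => (hp a).2))
  have m1 : ∀ a : ℕ, Measurable fun Z : HH ι => (Set.Iic s).indicator 1 (qf (Qm Z) (ev i)) *
      pc i a Z (qf (Qm Z) (ev i)) * w₁ Z :=
    fun a => ((hβ.comp (cont hQ _).measurable).mul (hp a).1).mul hw₁.1
  have m2 : Measurable fun Z : HH ι => (A s (ev i)).indicator 1 Z * w₁ Z :=
    (measurable_one.indicator (meas hQ s _)).mul hw₁.1
  rw [← lintegral_finsetSum _ fun a _ => m1 a, ← lintegral_add_left m2, mass,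
    ← lintegral_indicator (measR hQ i s 0)]
  refine lintegral_mono fun Z => ?_
  by_cases h : Z ∈ RR2 i s 0
  · rw [Set.indicator_of_mem h]
    by_cases h' : Z ∈ A s (ev i)
    · rw [Set.indicator_of_mem h', Pi.one_apply, one_mul]
      exact le_self_add
    · rw [← Finset.sum_mul]
      exact (le_mul_of_one_le_left zero_le (cover hL hQ h h')).trans le_add_self
  · rw [Set.indicator_of_notMem h]
    exact zero_le

end SyTIE2

theorem p_TIE2 (hPAIR : S_PAIR) (hTIES : S_TIES) (hEI : S_EI) (hUNF1 : S_UNF1) (hVFIN : S_VFIN) (hPROP : S_PROP) (hLAG : S_LAG) (hQ : S_Q) :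
    S_TIE2 := by
  intro ι _ _ i w w₁ s s' hw hw₁ h1 δ hδ ε0 hε
  have hz := SyTIE2.zero hPAIR hTIES hEI hUNF1 hLAG hQ i hw hw₁ h1
  have hf : mass w (Short ι s') ≠ ⊤ :=
    ne_top_of_le_ne_top (((hPROP ι).2.2.1 w hw).trans_ne (hVFIN.1 ι))
      (setLIntegral_le_lintegral _ _)
  have hf1 : 2 * mass w (Short ι s') ≠ ⊤ := ENNReal.mul_ne_top (by simp) hf
  have hf3 := ENNReal.mul_ne_top (hVFIN.1 (Fin (Fintype.card ι - 1)))
    (ENNReal.ofReal_ne_top (r := esum (Fintype.card ι - 1) s))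
  have hf2 := ENNReal.add_ne_top.2 ⟨hf1, hf3⟩
  have hm := SyTIE2.measR hQ i s
  have e : ∀ ε, (μH ι).withDensity w₁ (RR2 i s ε) = mass w₁ (RR2 i s ε) :=
    fun ε => withDensity_apply _ (hm ε)
  have hl : Tendsto (fun n : ℕ => ε0 / ((n : ℝ) + 2)) atTop (𝓝 0) :=
    tendsto_const_nhds.div_atTop (tendsto_atTop_add_const_right _ _ tendsto_natCast_atTop_atTop)
  have ht := tendsto_measure_iInter_atTop (μ := (μH ι).withDensity w₁)
    (s := fun n : ℕ => RR2 i s (ε0 / ((n : ℝ) + 2)))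
    (fun n => (hm _).nullMeasurableSet) (fun m n hmn Z hZ => by
      have a0 : (m : ℝ) ≤ n := Nat.cast_le.2 hmn
      have a1 : ε0 / ((n : ℝ) + 2) ≤ ε0 / ((m : ℝ) + 2) :=
        div_le_div_of_nonneg_left hε.le (by positivity) (by linarith)
      exact ⟨by linarith [hZ.1], fun y hy ho => by linarith [hZ.2 y hy ho]⟩)
    ⟨0, by
      rw [e]
      exact ne_top_of_le_ne_top (((hUNF1 ι i w w₁ hw hw₁).2.2 (hVFIN.1 _)).2 _)
        (lintegral_mono_set fun Z hZ => hZ.1)⟩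
  have hsub : (⋂ n : ℕ, RR2 i s (ε0 / ((n : ℝ) + 2))) ⊆ RR2 i s 0 := fun Z hZ => by
    rw [Set.mem_iInter] at hZ
    exact ⟨ge_of_tendsto' (tendsto_const_nhds.add hl) fun n => (hZ n).1, fun y hy ho =>
      le_of_tendsto' (tendsto_const_nhds.sub (hl.const_mul 2)) fun n => (hZ n).2 y hy ho⟩
  have hlt := ((measure_mono hsub).trans ((e 0).le.trans hz)).trans_lt
    (ENNReal.lt_add_right hf2 (ENNReal.ofReal_pos.2 hδ).ne')
  obtain ⟨n, hn⟩ := (ht.eventually_lt_const hlt).exists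
  refine ⟨ε0 / ((n : ℝ) + 2), by positivity, div_lt_self hε ?_, ?_⟩
  · linarith [Nat.cast_nonneg (α := ℝ) n]
  · have h3 := ENNReal.toReal_mono (ENNReal.add_ne_top.2 ⟨hf2, ENNReal.ofReal_ne_top⟩)
      ((e _).ge.trans hn.le)
    rwa [ENNReal.toReal_add hf2 ENNReal.ofReal_ne_top, ENNReal.toReal_add hf1 hf3,
      ENNReal.toReal_mul, ENNReal.toReal_mul, ENNReal.toReal_ofReal hδ.le,
      ENNReal.toReal_ofReal (hEI _ s).1, ENNReal.toReal_ofNat] at h3

namespace SySEC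

open scoped Classical

theorem comb {V : Type} [AddCommGroup V] (A : Finset V) (h : ∀ p ∈ A, -p ∈ A)
    (h' : ∀ p ∈ A, -p ≠ p) (j : ℕ) : 4 * j * A.card ≤ 4 * j * (j + 1) + A.card * (A.card - 2) := by
  have := Finset.sum_involution (s := A) (f := fun _ => (1 : ZMod 2)) (fun p _ => -p)
    (fun _ _ => rfl) (fun p hp _ => h' p hp) h fun _ _ => neg_neg _
  rw [Finset.sum_const, nsmul_one, ZMod.natCast_eq_zero_iff_even] at this
  obtain ⟨M, hM⟩ := this
  rw [hM]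
  rcases M with _ | M
  · simp
  · rw [show M + 1 + (M + 1) - 2 = 2 * M by omega]
    zify
    rcases le_or_gt (j : ℤ) M with a | a <;> nlinarith

theorem prim_neg {n : Type} {p : n → ℤ} (hp : Prim1 p) : Prim1 (-p) := fun c h =>
  hp c fun i => (h i).elim fun z hz => ⟨-z, by simpa [neg_eq_iff_eq_neg] using hz⟩

theorem prim_mul {n : Type} {p : n → ℤ} {c : ℤ} (hp : Prim1 (c • p)) : c = 1 ∨ c = -1 := by
  have h0 : (c : ℚ) ≠ 0 := Int.cast_ne_zero.2 fun e => TIE.prim_ne hp (by simp [e])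
  obtain ⟨z, hz⟩ := hp (fun _ => (c : ℚ)⁻¹) (fun i => ⟨p i, by simp [h0]⟩) 0
  have : (c * z : ℚ) = 1 := by rw [← hz, mul_inv_cancel₀ h0]
  exact Int.eq_one_or_neg_one_of_mul_eq_one (by exact_mod_cast this)

variable {ι : Type} [Fintype ι] [DecidableEq ι]

/-- The number of short vectors that are not multiples of `p`. -/
noncomputable def F (s : ℝ) (Z : HH ι) (p : ι ⊕ ι → ℤ) : ℝ≥0∞ :=
  ∑' u : ι ⊕ ι → ℤ, if ∀ c : ℤ, u ≠ c • p then (Set.Iic s).indicator 1 (qf (Qm Z) u) else 0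

theorem mq (hQ : S_Q) (v : ι ⊕ ι → ℤ) : Measurable fun Z : HH ι => qf (Qm Z) v := by
  have h6 := (hQ ι).2.2.2.2.2.1
  exact Continuous.measurable (by unfold qf; fun_prop)

theorem mF (hQ : S_Q) (s : ℝ) (p : ι ⊕ ι → ℤ) : Measurable fun Z : HH ι => F s Z p := by
  refine Measurable.tsum fun u => ?_
  split_ifs
  exacts [(measurable_one.indicator measurableSet_Iic).comp (mq hQ u), measurable_const]

theorem F_smul (hQ : S_Q) (s : ℝ) (γ : SpZ ι) (Z : HH ι) (p : ι ⊕ ι → ℤ) :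
    F s (γ • Z) (γ.1 *ᵥ p) = F s Z p := by
  have k : ∀ (γ : SpZ ι) u, (γ⁻¹).1 *ᵥ (γ.1 *ᵥ u) = u := fun γ u => by
    rw [mulVec_mulVec, show (γ⁻¹).1 * γ.1 = 1 from congrArg Subtype.val (inv_mul_cancel γ),
      one_mulVec]
  let e : (ι ⊕ ι → ℤ) ≃ (ι ⊕ ι → ℤ) :=
    ⟨(γ.1 *ᵥ ·), ((γ⁻¹).1 *ᵥ ·), k γ, fun u => by simpa only [inv_inv] using k γ⁻¹ u⟩
  refine (e.tsum_eq _).symm.trans (tsum_congr fun u => if_congr (forall_congr' fun c => ?_)
    (congrArg _ ((hQ ι).2.2.1 γ Z u)) rfl)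
  rw [← mulVec_smul]
  exact e.injective.ne_iff

theorem F_le (s : ℝ) (Z : HH ι) (i : ι) : F s Z (ev i) ≤ ∑' ν : ℤ, pc i ν Z s := by
  simp only [pc, tsum_subtype _ fun u => (Set.Iic s).indicator (1 : ℝ → ℝ≥0∞) (qf (Qm Z) u)]
  rw [ENNReal.tsum_comm]
  refine ENNReal.tsum_le_tsum fun u => ?_
  split_ifs with h
  · refine le_trans ?_ (ENNReal.le_tsum (om (ev i) u))
    rw [Set.indicator_of_mem (a := u) (by exact ⟨rfl, h⟩)]
  · exact zero_le

theorem pw (hQC : S_QC) (hQ : S_Q) (s : ℝ) (j : ℕ) (Z : HH ι) :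
    4 * j * ∑' p : {p : ι ⊕ ι → ℤ | Prim1 p}, (Set.Iio s).indicator 1 (qf (Qm Z) p.1) ≤
      4 * j * (j + 1) * (Short ι s).indicator 1 Z + ∑' p : {p : ι ⊕ ι → ℤ | Prim1 p},
        (Set.Iio s).indicator 1 (qf (Qm Z) p.1) * F s Z p.1 := by
  obtain ⟨A, hA⟩ : ∃ A : Finset (ι ⊕ ι → ℤ), ∀ p, p ∈ A ↔ Prim1 p ∧ qf (Qm Z) p < s :=
    ⟨(((hQC ι).2.2.1 Z s).subset fun p (h : Prim1 p ∧ qf (Qm Z) p < s) => h.2.le).toFinset,
      fun p => Set.Finite.mem_toFinset _⟩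
  have k : ∀ g : (ι ⊕ ι → ℤ) → ℝ≥0∞, ∑' p : {p : ι ⊕ ι → ℤ | Prim1 p},
      (Set.Iio s).indicator 1 (qf (Qm Z) p.1) * g p.1 = ∑ p ∈ A, g p := fun g => by
    rw [tsum_subtype _ fun p => (Set.Iio s).indicator 1 (qf (Qm Z) p) * g p, tsum_eq_sum (s := A)]
    · exact Finset.sum_congr rfl fun p hp => by simp [(hA p).1 hp]
    · intro p hp
      by_cases a : Prim1 p
      · simp [a, mt (fun b => (hA p).2 ⟨a, b⟩) hp]
      · simp [a]
  have k1 := k fun _ => 1
  simp only [mul_one, Finset.sum_const, nsmul_one] at k1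
  rw [k1, k]
  rcases A.eq_empty_or_nonempty with rfl | ⟨q, hq⟩
  · simp
  rw [Set.indicator_of_mem (show Z ∈ Short ι s from ⟨q, TIE.prim_ne ((hA q).1 hq).1, ((hA q).1 hq).2⟩),
    Pi.one_apply, mul_one]
  have c := comb A (fun p hp => (hA _).2 ⟨prim_neg ((hA p).1 hp).1, by
    have := (hQ ι).2.2.2.2.2.2.2.2.1 Z (-1) p
    rw [neg_one_smul] at this
    simpa [this] using ((hA p).1 hp).2⟩)
    (fun p hp e => TIE.prim_ne ((hA p).1 hp).1 (neg_eq_self.1 e)) j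
  refine le_trans (by exact_mod_cast c) (add_le_add_right
    (show ((A.card * (A.card - 2) : ℕ) : ℝ≥0∞) ≤ _ from ?_) _)
  rw [Nat.cast_mul, ← nsmul_eq_mul]
  refine Finset.card_nsmul_le_sum _ _ _ fun p hp => le_trans ?_
    (ENNReal.sum_le_tsum (A \ {p, -p}))
  rw [Finset.sum_congr rfl (g := fun _ => 1), Finset.sum_const, nsmul_one, Nat.cast_le]
  · exact (Nat.sub_le_sub_left Finset.card_le_two _).trans (Finset.le_card_sdiff _ _)
  · intro u hu
    rw [Finset.mem_sdiff, hA] at hu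
    rw [if_pos, Set.indicator_of_mem (by exact hu.1.2.le), Pi.one_apply]
    rintro c rfl
    rcases prim_mul hu.1.1 with rfl | rfl <;> simp at hu

end SySEC

theorem p_SEC (hPAIR : S_PAIR) (hRS : S_RS) (hELL : S_ELL) (hUNF1 : S_UNF1) (hEXT : S_EXT) (hQC : S_QC) (hVFIN : S_VFIN) (hPROP : S_PROP) (hLAG : S_LAG) (hQ : S_Q) :
    S_SEC := by
  intro n j w s hw hs
  obtain ⟨w₁, h1⟩ := (hPROP (Fin (n + 1))).1 (st1 0)
  obtain ⟨u1, u2, -⟩ := hUNF1 _ 0 w w₁ hw h1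
  have mβ : Measurable ((Set.Iio s).indicator (1 : ℝ → ℝ≥0∞)) :=
    measurable_one.indicator measurableSet_Iio
  have hS : MeasurableSet (Short (Fin (n + 1)) s) := ((hQ _).2.2.2.2.2.2.2.2.2.1 s).measurableSet
  have a1 := u2 _ mβ
  rw [Fintype.card_fin, Nat.add_sub_cancel, (lintegral_congr_ae (ae_restrict_of_ae
    ((indicator_ae_eq_of_ae_eq_set Iio_ae_eq_Iic).fun_mul (.refl _ _)))).trans
      (SV.int_pow n hs.le)] at a1
  have a2 := u1 (fun Z p => (Set.Iio s).indicator 1 (qf (Qm Z) p) * SySEC.F s Z p)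
    (fun v => (mβ.comp (SySEC.mq hQ v)).mul (SySEC.mF hQ s v))
    fun γ Z v => by rw [(hQ _).2.2.1, SySEC.F_smul hQ]
  have a3 := fun ν => hPAIR _ 0 w₁ _ (fun _ => s) ν h1 mβ measurable_const
  rw [Fintype.card_fin, Nat.add_sub_cancel] at a3
  have a4 := a2.ge.trans ((lintegral_mono fun Z => ((mul_le_mul_left (mul_le_mul_right
    (SySEC.F_le s Z 0) _) _).trans_eq (by
      rw [← ENNReal.tsum_mul_left, ← ENNReal.tsum_mul_right]; rfl))).trans
    ((lintegral_tsum fun ν => (((mβ.comp (SySEC.mq hQ _)).mul (a3 ν).1).mul h1.1).aemeasurable).trans_le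
      ((ENNReal.tsum_le_tsum fun ν => (a3 ν).2).trans (ENNReal.tsum_mul_left.trans_le
        (mul_le_mul_right (hRS n s hs) _)))))
  have a5 := lintegral_mono (μ := μH (Fin (n + 1))) fun Z =>
    mul_le_mul_left (SySEC.pw hQC hQ s j Z) (w Z)
  simp only [add_mul _ _ (w _), mul_assoc _ _ (w _)] at a5
  rw [lintegral_const_mul' _ _ (by finiteness), a1, lintegral_add_left
    (((measurable_one.indicator hS).fun_mul hw.1).const_mul _),
    lintegral_const_mul' _ _ (by finiteness)] at a5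
  have a6 : ∫⁻ Z, (Short (Fin (n + 1)) s).indicator 1 Z * w Z ∂μH _ = mass w (Short _ s) := by
    rw [mass, ← lintegral_indicator hS]
    exact lintegral_congr fun Z => by by_cases hZ : Z ∈ Short (Fin (n + 1)) s <;> simp [hZ]
  have a7 : mass w (Short _ s) ≠ ⊤ := ne_top_of_le_ne_top (hVFIN.1 _)
    ((setLIntegral_le_lintegral _ _).trans_eq ((hPROP _).2.2.1 w hw))
  have a8 := hVFIN.1 (Fin n)
  have a9 := (hELL n).2.2.2.2.2
  have := ENNReal.toReal_mono (by finiteness) ((a6 ▸ a5).trans (add_le_add_right a4 _))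
  rw [ENNReal.toReal_add (by finiteness) (by finiteness)] at this
  simp only [ENNReal.toReal_mul] at this
  rw [ENNReal.toReal_ofReal (by positivity), ENNReal.toReal_ofReal (by positivity)] at this
  simpa [ENNReal.toReal_add] using this

namespace SyLIP

theorem int_ab (n : ℕ) {a b : ℝ} (ha : 0 ≤ a) (hab : a ≤ b) :
    ∫⁻ q in Set.Ioi (0 : ℝ), (Set.Icc a b).indicator 1 q * ENNReal.ofReal (q ^ n) ≤
      ENNReal.ofReal ((b ^ (n + 1) - a ^ (n + 1)) / (n + 1)) := by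
  have h1 : (fun q : ℝ => (Set.Icc a b).indicator (1 : ℝ → ℝ≥0∞) q * ENNReal.ofReal (q ^ n)) =
      (Set.Icc a b).indicator fun q => ENNReal.ofReal (q ^ n) := by
    funext q
    by_cases h : q ∈ Set.Icc a b
    · rw [Set.indicator_of_mem h, Set.indicator_of_mem h, Pi.one_apply, one_mul]
    · rw [Set.indicator_of_notMem h, Set.indicator_of_notMem h, zero_mul]
  refine (lintegral_mono' Measure.restrict_le_self le_rfl).trans (le_of_eq ?_)
  rw [h1, lintegral_indicator measurableSet_Icc, ← ofReal_integral_eq_lintegral_ofReal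
    ((continuous_pow n).continuousOn.integrableOn_Icc)
    ((ae_restrict_iff' measurableSet_Icc).2 (Eventually.of_forall fun q hq =>
      pow_nonneg (ha.trans hq.1) n)),
    integral_Icc_eq_integral_Ioc, ← intervalIntegral.integral_of_le hab, integral_pow]

theorem meas_qf (hQ : S_Q) {ι : Type} [Fintype ι] [DecidableEq ι] (v : ι ⊕ ι → ℤ) :
    Measurable fun Z : HH ι => qf (Qm Z) v :=
  (continuous_const.dotProduct
    ((hQ ι).2.2.2.2.2.1.matrix_mulVec continuous_const)).measurable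

end SyLIP

open SyLIP in
theorem p_LIP (hUNF1 : S_UNF1) (hEXT : S_EXT) (hVFIN : S_VFIN) (hPROP : S_PROP) (hQ : S_Q) :
    S_LIP := by
  intro n w w₁ hw hw₁
  obtain ⟨hU1, hU2, -⟩ := hUNF1 (Fin (n + 1)) 0 w w₁ hw hw₁
  obtain ⟨-, -, hQ3, -, -, -, -, hQ8, hQ9, hQ10, -⟩ := hQ (Fin (n + 1))
  have hcard : Fintype.card (Fin (n + 1)) - 1 = n := by simp
  rw [hcard] at hU2
  have hβ : ∀ a b : ℝ, Measurable ((Set.Icc a b).indicator (1 : ℝ → ℝ≥0∞)) :=
    fun a b => measurable_one.indicator measurableSet_Icc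
  have hvol := (hPROP (Fin (n + 1))).2.2.1 w hw
  have hfin : ∀ R, mass w R ≠ ⊤ := fun R =>
    ne_top_of_le_ne_top (hVFIN.1 _) (hvol ▸ setLIntegral_le_lintegral _ _)
  have hbd : ∀ a b : ℝ, 0 ≤ a → a ≤ b →
      ∫⁻ Z, (∑' p : {p : Fin (n + 1) ⊕ Fin (n + 1) → ℤ | Prim1 p},
        (Set.Icc a b).indicator 1 (qf (Qm Z) p.1)) * w Z ∂μH (Fin (n + 1)) ≤
      vol (Fin n) * ENNReal.ofReal ((b ^ (n + 1) - a ^ (n + 1)) / (n + 1)) := by
    intro a b ha hab
    rw [hU2 _ (hβ a b)]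
    exact mul_le_mul_right (int_ab n ha hab) _
  have hnn : ∀ a b : ℝ, 0 ≤ a → a ≤ b → 0 ≤ (b ^ (n + 1) - a ^ (n + 1)) / ((n : ℝ) + 1) :=
    fun a b ha hab => div_nonneg (sub_nonneg.2 (pow_le_pow_left₀ ha hab _)) (by positivity)
  have htop : ∀ x : ℝ, vol (Fin n) * ENNReal.ofReal x ≠ ⊤ :=
    fun x => ENNReal.mul_ne_top (hVFIN.1 _) ENNReal.ofReal_ne_top
  refine ⟨fun a b ha hab => ?_, fun s => ?_, fun s ε hs => ?_⟩
  · have h1 : mass w (Short (Fin (n + 1)) b) ≤ mass w (Short (Fin (n + 1)) a) +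
        vol (Fin n) * ENNReal.ofReal ((b ^ (n + 1) - a ^ (n + 1)) / (n + 1)) := by
      refine le_trans ?_ (add_le_add_right (hbd a b ha hab) _)
      rw [mass, mass, ← lintegral_indicator (hQ10 b).measurableSet,
        ← lintegral_indicator (hQ10 a).measurableSet,
        ← lintegral_add_left (hw.1.indicator (hQ10 a).measurableSet)]
      refine lintegral_mono fun Z => ?_
      by_cases hb : Z ∈ Short (Fin (n + 1)) b
      swap
      · rw [Set.indicator_of_notMem hb]; exact zero_le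
      rw [Set.indicator_of_mem hb]
      by_cases hZ : Z ∈ Short (Fin (n + 1)) a
      · rw [Set.indicator_of_mem hZ]; exact le_self_add
      refine le_trans ?_ le_add_self
      obtain ⟨v, hv, hvb⟩ := hb
      obtain ⟨⟨c, p⟩, hp, rfl⟩ := (hEXT _).2.2.2.2.surjOn hv
      have hp0 : p ≠ 0 := by
        rintro rfl
        exact hv (smul_zero _)
      have h2 : a ≤ qf (Qm Z) p := not_lt.1 fun h => hZ ⟨p, hp0, h⟩
      have h3 : qf (Qm Z) p ≤ b := by
        rw [hQ9] at hvb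
        have h4 : (1 : ℝ) ≤ (((c + 1 : ℕ) : ℤ) : ℝ) ^ 2 :=
          one_le_pow₀ (by exact_mod_cast Nat.succ_pos c)
        have := hQ8 Z p hp0
        nlinarith
      refine le_mul_of_one_le_left' (le_trans (le_of_eq ?_) (ENNReal.le_tsum ⟨p, hp⟩))
      rw [Set.indicator_of_mem (show qf (Qm Z) p ∈ Set.Icc a b from ⟨h2, h3⟩), Pi.one_apply]
    have h2 := ENNReal.toReal_mono (ENNReal.add_ne_top.2 ⟨hfin _, htop _⟩) h1
    rwa [ENNReal.toReal_add (hfin _) (htop _), ENNReal.toReal_mul,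
      ENNReal.toReal_ofReal (hnn a b ha hab)] at h2
  · have h1 : mass w (Short (Fin (n + 1)) s) + mass w (Short (Fin (n + 1)) s)ᶜ = _ :=
      lintegral_add_compl w (μ := μH (Fin (n + 1))) (hQ10 s).measurableSet
    rw [hvol] at h1
    rw [← h1, ENNReal.toReal_add (hfin _) (hfin _)]
    ring
  · have h1 : mass w₁ (RR2 0 s ε) ≤
        vol (Fin n) * ENNReal.ofReal (((s + ε) ^ (n + 1) - 0 ^ (n + 1)) / (n + 1)) := by
      refine le_trans ?_ (hbd 0 (s + ε) le_rfl hs)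
      rw [← hU1 (fun Z v => (Set.Icc 0 (s + ε)).indicator 1 (qf (Qm Z) v))
        (fun v => (hβ _ _).comp (meas_qf hQ v)) fun γ Z v => by rw [hQ3]]
      have hm : MeasurableSet {Z : HH (Fin (n + 1)) | qf (Qm Z) (ev 0) ∈ Set.Icc 0 (s + ε)} :=
        meas_qf hQ _ measurableSet_Icc
      have hev : (ev 0 : Fin (n + 1) ⊕ Fin (n + 1) → ℤ) ≠ 0 := fun h => by
        simpa [ev] using congrFun h (Sum.inl 0)
      refine (lintegral_mono_set (t := {Z | qf (Qm Z) (ev 0) ∈ Set.Icc 0 (s + ε)})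
        fun Z hZ => ⟨(hQ8 Z _ hev).le, hZ.1⟩).trans ?_
      rw [← lintegral_indicator hm]
      refine lintegral_mono fun Z => ?_
      by_cases hZ : qf (Qm Z) (ev 0) ∈ Set.Icc 0 (s + ε)
      · rw [Set.indicator_of_mem hZ, Set.indicator_of_mem (by exact hZ), Pi.one_apply, one_mul]
      · rw [Set.indicator_of_notMem (by exact hZ)]; exact zero_le
    have h2 := ENNReal.toReal_mono (htop _) h1
    rwa [ENNReal.toReal_mul, ENNReal.toReal_ofReal (hnn 0 _ le_rfl hs),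
      zero_pow (Nat.succ_ne_zero n), sub_zero] at h2

end Pool.Agent.P.MP_59bdab_ag
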