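import Pool.Agent.P.MP_59bdab_ag.Sys.Iface
import Pool.Agent.P.MP_59bdab_ag.SV
import Pool.Agent.P.MP_59bdab_ag.MAIN

/-! The two main theorems. -/

set_option linter.unusedSectionVars false

namespace Pool.Agent.P.MP_59bdab_ag

open Matrix MeasureTheory Filter Topology
open scoped ENNReal ComplexOrder

namespace SyMN

theorem kpos {k : ℕ → ℕ} (hk : Tendsto k atTop atTop) (N : ℕ) :
    ∀ᶠ n in atTop, (0 : ℝ) < (k n : ℝ) ^ N := by
  filter_upwards [hk.eventually_ge_atTop 1] with n hn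
  have : (0 : ℝ) < k n := by exact_mod_cast hn
  positivity

theorem upper (hUP : S_UP) (hLIP : S_LIP) (hPROP : S_PROP) (n : ℕ) {w : HH (Fin (n + 1)) → ℝ≥0∞}
    (hw : IsWt (SpZ (Fin (n + 1))) (HH (Fin (n + 1))) w) {s : ℝ} (hs : 0 < s) {k m : ℕ → ℕ}
    (hk : Tendsto k atTop atTop)
    (hm : Tendsto (fun a => 4 * Real.pi * m a / k a) atTop (𝓝 s)) :
    (∀ᶠ a in atTop, FiniteDimensional ℂ (SF (Fin (n + 1)) (k a) (m a))) ∧ ∀ ε > 0, ∀ᶠ a in atTop,
      (Module.finrank ℂ (SF (Fin (n + 1)) (k a) (m a)) : ℝ) / (k a : ℝ) ^ tri (n + 1) ≤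
        2 * cg (n + 1) * (mass w (Short (Fin (n + 1)) s)ᶜ).toReal + ε := by
  obtain ⟨w₁, hw₁⟩ := (hPROP (Fin (n + 1))).1 (st1 0)
  obtain ⟨l1, l2, -⟩ := hLIP n w w₁ hw hw₁
  refine ⟨(hUP _ w k m (s / 2) (s / 4) hw hk (by positivity) (by linarith)
    (hm.eventually_const_le (by linarith))).1, fun ε hε => ?_⟩
  have hc : Continuous fun t : ℝ => 2 * cg (n + 1) *
      ((vol (Fin n)).toReal * ((s ^ (n + 1) - t ^ (n + 1)) / (n + 1))) := by fun_prop
  have h1 : ∀ᶠ t in 𝓝[<] s, 2 * cg (n + 1) *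
      ((vol (Fin n)).toReal * ((s ^ (n + 1) - t ^ (n + 1)) / (n + 1))) < ε / 2 ∧ 0 < t :=
    ((hc.tendsto s).eventually_lt_const (by simpa using hε)).and (eventually_gt_nhds hs)
      |>.filter_mono nhdsWithin_le_nhds
  obtain ⟨t, ⟨ht1, ht2⟩, ht3⟩ := (h1.and self_mem_nhdsWithin).exists
  have ht3' : t < s := ht3
  have h2 := (hUP _ w k m ((s + t) / 2) t hw hk ht2 (by linarith)
    (hm.eventually_const_le (by linarith))).2 (ε / 2) (by linarith)
  rw [Fintype.card_fin, l2] at h2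
  filter_upwards [h2, kpos hk (tri (n + 1))] with a h3 h4
  rw [div_le_iff₀ h4]
  refine h3.trans (mul_le_mul_of_nonneg_right ?_ h4.le)
  have h5 := mul_le_mul_of_nonneg_left (l1 t s ht2.le ht3'.le) (MAIN.cg_pos (n + 1)).le
  rw [l2]
  linarith

theorem lower (hLOW2 : S_LOW2) (n : ℕ) {w : HH (Fin (n + 1)) → ℝ≥0∞}
    (hw : IsWt (st1 (0 : Fin (n + 1))) (HH (Fin (n + 1))) w) {s : ℝ} (hs : 0 < s) {k m : ℕ → ℕ}
    (hk : Tendsto k atTop atTop) (hm : Tendsto (fun a => 4 * Real.pi * m a / k a) atTop (𝓝 s))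
    (hev : ∀ a, Even ((n + 1) * k a)) (L : ℝ → ℝ) (hL : ContinuousWithinAt L (Set.Ici s) s)
    (h : ∀ t > s, ∀ δ > 0, ∀ ε0 > 0, ∃ ε, 0 < ε ∧ ε < ε0 ∧ (mass w (RR2 0 t ε)).toReal ≤ L t + δ) :
    ∀ ε > 0, ∀ᶠ a in atTop, cg (n + 1) * (2 * (vol (Fin (n + 1))).toReal - L s) - ε ≤
      (Module.finrank ℂ (SF (Fin (n + 1)) (k a) (m a)) : ℝ) / (k a : ℝ) ^ tri (n + 1) := by
  intro ε hε
  have h0 : Tendsto (fun t => cg (n + 1) * L t) (𝓝[>] s) (𝓝 (cg (n + 1) * L s)) :=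
    (hL.mono Set.Ioi_subset_Ici_self).tendsto.const_mul _
  obtain ⟨t, ht1, ht2⟩ := ((h0.eventually_lt_const
    (show cg (n + 1) * L s < cg (n + 1) * L s + ε / 2 by linarith)).and
    self_mem_nhdsWithin).exists
  have ht3 : s < t := ht2
  have h2 := hLOW2 _ 0 w k m (s / 2) t (L t) hw hk (by simpa only [Fintype.card_fin] using hev)
    (by positivity) (by linarith) (h t ht3) ((hm.eventually_const_le (by linarith)).and
      (hm.eventually_le_const ht3)) (ε / 2) (by linarith)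
  rw [Fintype.card_fin] at h2
  filter_upwards [h2, kpos hk (tri (n + 1))] with a h3 h4
  rw [le_div_iff₀ h4]
  refine le_trans (mul_le_mul_of_nonneg_right ?_ h4.le) h3
  linarith

theorem cg_vol (hSV : S_SV) (n : ℕ) :
    cg (n + 1) * (vol (Fin n)).toReal = hh n / (2 * (2 * Real.pi) ^ (n + 1)) := by
  have hpi := Real.pi_pos
  rw [← hSV n, cg, cg, SV.tri_succ, pow_add (2 * Real.pi), pow_succ 2]
  field_simp

end SyMN

theorem p_MNA (hUP : S_UP) (hLOW2 : S_LOW2) (hTIE2 : S_TIE2) (hEI : S_EI) (hVV : S_VV)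
    (hLIP : S_LIP) (hSV : S_SV) (hPROP : S_PROP) : S_MNA := by
  intro g hg σ hσ k m hk hm hev F hF
  obtain ⟨n, rfl⟩ : ∃ n, g = n + 1 := ⟨g - 1, by omega⟩
  obtain ⟨w, hw⟩ := (hPROP (Fin (n + 1))).2.1
  obtain ⟨w₁, hw₁⟩ := (hPROP (Fin (n + 1))).1 (st1 0)
  obtain ⟨l1, l2, -⟩ := hLIP n w w₁ hw hw₁
  have hpi := Real.pi_pos
  set s := 4 * Real.pi * σ with hs
  have hs0 : 0 < s := by positivity
  have hr : Tendsto (fun n => 4 * Real.pi * m n / k n) atTop (𝓝 s) := by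
    simpa only [mul_div_assoc] using hm.const_mul (4 * Real.pi)
  obtain ⟨u1, u2⟩ := SyMN.upper hUP hLIP hPROP n hw hs0 hk hr
  have hv := hVV (n + 1) F w s hg hF hw
  have h1 := SyMN.lower hLOW2 n hw₁ hs0 hk hr hev (fun t =>
    2 * ((mass w (Short (Fin (n + 1)) s)).toReal +
      (vol (Fin n)).toReal * (((2 * t - s) ^ (n + 1) - s ^ (n + 1)) / (n + 1))) +
      (vol (Fin n)).toReal * esum n t)
    ((Continuous.continuousWithinAt (by fun_prop)).add
      (continuousWithinAt_const.mul (hEI n s).2.1)) ?_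
  · refine ⟨u1, fun ε hε => ?_⟩
    filter_upwards [h1 ε hε, u2 ε hε] with a h2 h3
    refine ⟨le_trans (le_of_eq ?_) h2, h3.trans (le_of_eq ?_)⟩
    · have e : err (n + 1) s = cg (n + 1) * (vol (Fin n)).toReal * esum n s := by
        rw [SyMN.cg_vol hSV, err, esum, Nat.add_sub_cancel]
        ring
      rw [mul_assoc 2, hv, l2, e, show 2 * s - s = s by ring]
      ring
    · rw [mul_assoc 2 (hh _), hv]
      ring
  · intro t ht δ hδ ε0 hε0
    obtain ⟨ε, e1, e2, e3⟩ := hTIE2 _ 0 w w₁ t (2 * t - s) hw hw₁ (by linarith) δ hδ ε0 hε0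
    rw [Fintype.card_fin, Nat.add_sub_cancel] at e3
    have := l1 s (2 * t - s) hs0.le (by linarith)
    exact ⟨ε, e1, e2, by linarith⟩

namespace SyMN

theorem zz_pos (n : ℕ) : 0 < zz (n + 1) := by
  have h1 : Summable fun l : ℕ => 1 / ((l + 1 : ℕ) : ℝ) ^ (2 * (n + 1)) :=
    (summable_nat_add_iff (f := fun l : ℕ => 1 / (l : ℝ) ^ (2 * (n + 1))) 1).2
      (Real.summable_one_div_nat_pow.2 (by omega))
  exact h1.tsum_pos (fun _ => by positivity) 0 (by positivity)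

theorem first (hSV : S_SV) (n : ℕ) (σ : ℝ) :
    cg (n + 1) * ((vol (Fin n)).toReal * ((4 * Real.pi * σ) ^ (n + 1) / (n + 1))) =
      2 * hh (n + 1) * xx (n + 1) σ := by
  have hpi := Real.pi_pos
  have hz := zz_pos n
  have e : hh (n + 1) = hh n * (zz (n + 1) * n.factorial /
      (2 * Real.pi ^ (n + 1) * (2 * Real.pi) ^ (n + 1))) := by
    rw [hh, Finset.prod_range_succ, ← hh, zz]
  rw [← mul_assoc, cg_vol hSV, e, xx, Nat.factorial_succ,
    show 4 * Real.pi ^ 2 * σ = Real.pi * (4 * Real.pi * σ) by ring, mul_pow Real.pi]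
  push_cast
  field_simp

theorem second (n : ℕ) {σ : ℝ} (hσ : 0 < σ) :
    (4 * Real.pi * σ) ^ (n + 1) / (n + 1) *
        (Real.pi ^ (n + 1) / (n + 1).factorial * (4 * Real.pi * σ) ^ (n + 1)) +
      bv n * (4 * Real.pi * σ) ^ (2 * n + 1) / (n + 1 / 2) =
    (4 * Real.pi * σ) ^ (n + 1) / (n + 1) * (2 * kap (n + 1) σ * xx (n + 1) σ) := by
  have hpi := Real.pi_pos
  have hz := zz_pos n
  have h1 : (2 * ((n : ℝ) + 1) - 1) ≠ 0 := by
    have : (0 : ℝ) ≤ n := n.cast_nonneg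
    linarith
  have h2 : ((n : ℝ) + 1 / 2) = (2 * ((n : ℝ) + 1) - 1) / 2 := by ring
  rw [kap, xx, Nat.add_sub_cancel,
    show 4 * Real.pi ^ 2 * σ = Real.pi * (4 * Real.pi * σ) by ring, mul_pow Real.pi, h2]
  have hs : 0 < 4 * Real.pi * σ := by positivity
  generalize 4 * Real.pi * σ = s at hs
  push_cast
  field_simp
  ring

end SyMN

theorem p_MNB (hUP : S_UP) (hLOW2 : S_LOW2) (hSEC : S_SEC) (hLIP : S_LIP) (hSV : S_SV)
    (hPROP : S_PROP) : S_MNB := by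
  intro g hg σ hσ k m hk hm hev j hj
  obtain ⟨n, rfl⟩ : ∃ n, g = n + 1 := ⟨g - 1, by omega⟩
  obtain ⟨w, hw⟩ := (hPROP (Fin (n + 1))).2.1
  obtain ⟨w₁, hw₁⟩ := (hPROP (Fin (n + 1))).1 (st1 0)
  obtain ⟨-, l2, l3⟩ := hLIP n w w₁ hw hw₁
  have hpi := Real.pi_pos
  have f1 := SyMN.first hSV n σ
  have f2 := SyMN.second n hσ
  set s := 4 * Real.pi * σ with hs
  have hs0 : 0 < s := by positivity
  have hr : Tendsto (fun n => 4 * Real.pi * m n / k n) atTop (𝓝 s) := by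
    simpa only [mul_div_assoc] using hm.const_mul (4 * Real.pi)
  obtain ⟨u1, u2⟩ := SyMN.upper hUP hLIP hPROP n hw hs0 hk hr
  have hc : Continuous fun t : ℝ => (vol (Fin n)).toReal * (t ^ (n + 1) / (n + 1)) := by fun_prop
  have h1 := SyMN.lower hLOW2 n hw₁ hs0 hk hr hev _ hc.continuousWithinAt ?_
  · refine ⟨u1, fun ε hε => ?_⟩
    filter_upwards [h1 ε hε, u2 ε hε] with a h2 h3
    have hv := hSV (n + 1)
    refine ⟨le_trans (le_of_eq ?_) h2, h3.trans ?_⟩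
    · rw [mul_sub (cg _), f1, ← hv]
      ring
    · have h4 := mul_le_mul_of_nonneg_left (hSEC n j w s hw hs0) (MAIN.cg_pos (n + 1)).le
      have hj0 : (0 : ℝ) < j := by exact_mod_cast hj
      rw [f2] at h4
      have h5 : 4 * j * (2 * hh (n + 1) * xx (n + 1) σ) ≤
          4 * j * (j + 1) * (cg (n + 1) * (mass w (Short (Fin (n + 1)) s)).toReal) +
            2 * hh (n + 1) * xx (n + 1) σ * (2 * kap (n + 1) σ * xx (n + 1) σ) := by
        rw [← f1]
        linarith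
      have h6 : 2 * hh (n + 1) * (2 * xx (n + 1) σ / (j + 1) -
          kap (n + 1) σ * xx (n + 1) σ ^ 2 / (j * (j + 1))) ≤
          2 * (cg (n + 1) * (mass w (Short (Fin (n + 1)) s)).toReal) := by
        refine le_of_mul_le_mul_left ?_ (show 0 < 2 * j * ((j : ℝ) + 1) by positivity)
        calc _ = 4 * j * (2 * hh (n + 1) * xx (n + 1) σ) -
            2 * hh (n + 1) * xx (n + 1) σ * (2 * kap (n + 1) σ * xx (n + 1) σ) := by
              field_simp
              ring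
          _ ≤ _ := by linarith
      rw [l2]
      nlinarith
  · intro t ht δ hδ ε0 hε0
    have h2 : Tendsto (fun ε => (vol (Fin n)).toReal * ((t + ε) ^ (n + 1) / (n + 1))) (𝓝[>] 0)
        (𝓝 ((vol (Fin n)).toReal * ((t + 0) ^ (n + 1) / (n + 1)))) :=
      ((hc.comp (continuous_const.add continuous_id)).tendsto 0).mono_left nhdsWithin_le_nhds
    rw [add_zero] at h2
    obtain ⟨ε, ⟨e1, e2⟩, e3⟩ := (((h2.eventually_le_const (lt_add_of_pos_right _ hδ)).and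
      ((eventually_lt_nhds hε0).filter_mono nhdsWithin_le_nhds)).and self_mem_nhdsWithin).exists
    have e4 : 0 < ε := e3
    exact ⟨ε, e4, e2, (l3 t ε (by linarith)).trans e1⟩

end Pool.Agent.P.MP_59bdab_ag
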