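import Pool.Agent.P.MP_59bdab_ag.CDefs

/-!
The distribution of the shortest period of a principally polarised abelian variety, and the
constants in the bounds for the volume of `M - σ D`.
-/

namespace Pool.Agent.P.MP_59bdab_ag

open Matrix MeasureTheory

variable {ι : Type} [Fintype ι] [DecidableEq ι]

/-- The squared length `v* (Im z)⁻¹ v` of the period `v = m - z n`. -/
noncomputable def per (z : Sym2 ι → ℂ) (m n : ι → ℤ) : ℝ :=
  (star ((fun i => (m i : ℂ)) - mat z *ᵥ fun i => (n i : ℂ)) ⬝ᵥ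
    (mat fun p => ((z p).im : ℂ))⁻¹ *ᵥ ((fun i => (m i : ℂ)) - mat z *ᵥ fun i => (n i : ℂ))).re

/-- The invariant volume of the part of `F` where all nonzero periods have squared length at
least `s`. -/
noncomputable def vv (F : Set (Sym2 ι → ℂ)) (s : ℝ) : ℝ :=
  ∫ z in {z ∈ F | ∀ m n : ι → ℤ, (m, n) ≠ 0 → s ≤ per z m n},
    ((mat fun p => (z p).im).det ^ (Fintype.card ι + 1))⁻¹

/-- The volume of the unit ball of dimension `2 n + 1`. -/
noncomputable def bv (n : ℕ) : ℝ :=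
  Real.pi ^ n / n.factorial * ∫ t in (-1 : ℝ)..1, (1 - t ^ 2) ^ n

/-- The error term; it vanishes for `s ≤ 1`. -/
noncomputable def err (g : ℕ) (s : ℝ) : ℝ :=
  hh (g - 1) * bv (g - 1) / (2 * (2 * Real.pi) ^ g) *
    ∑ a ∈ Finset.Icc 1 ⌊s⌋₊, ∫ q in (a : ℝ)..s, (q ^ 2 - (a : ℝ) ^ 2) ^ ((g : ℝ) - 1 / 2) / q

/-- `ζ(2 g)`. -/
noncomputable def zz (g : ℕ) : ℝ := ∑' l : ℕ, 1 / ((l + 1 : ℕ) : ℝ) ^ (2 * g)

/-- `(4 π² σ) ^ g / (2 g! ζ(2 g))`. -/
noncomputable def xx (g : ℕ) (σ : ℝ) : ℝ :=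
  (4 * Real.pi ^ 2 * σ) ^ g / (2 * g.factorial * zz g)

/-- `ζ(2 g) (1 + 2 g / (2 g - 1) * bv (g - 1) * g! / (π ^ g * 4 π σ))`. -/
noncomputable def kap (g : ℕ) (σ : ℝ) : ℝ :=
  zz g * (1 + 2 * g / (2 * g - 1) * (bv (g - 1) * g.factorial / (Real.pi ^ g * (4 * Real.pi * σ))))

end Pool.Agent.P.MP_59bdab_ag
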