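import Pool.Agent.P.MP_59bdab_ag.Glue
import Pool.Agent.P.MP_59bdab_ag.FD1
import Pool.Agent.P.MP_59bdab_ag.FD2
import Pool.Agent.P.MP_59bdab_ag.Sys.B1
import Pool.Agent.P.MP_59bdab_ag.Sys.B2
import Pool.Agent.P.MP_59bdab_ag.Sys.B3
import Pool.Agent.P.MP_59bdab_ag.Sys.B4
import Pool.Agent.P.MP_59bdab_ag.Sys.B5
import Pool.Agent.P.MP_59bdab_ag.Sys.B6

/-! Assembly. -/

namespace Pool.Agent.P.MP_59bdab_ag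

theorem t_BOX : S_BOX := p_BOX
theorem t_ELL : S_ELL := p_ELL
theorem t_EI : S_EI := p_EI t_ELL
theorem t_RS : S_RS := p_RS t_ELL
theorem t_BLK2 : S_BLK2 := p_BLK2 t_ASM t_INV t_MEAS t_Q
theorem t_QB : S_QB := p_QB
theorem t_FIB : S_FIB := p_FIB t_BOX t_ELL t_Q
theorem t_FIB0 : S_FIB0 := p_FIB0 t_BOX
theorem t_SIE : S_SIE := p_SIE t_UNF1 t_CNT t_EXT t_VFIN t_PROP t_Q
theorem t_PAIR0 : S_PAIR0 := p_PAIR0 t_BLK2 t_QB t_FIB t_FIB0 t_SIE t_ELL t_LAG t_PROP t_Q t_MEAS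
theorem t_PAIR : S_PAIR := p_PAIR t_PAIR0 t_BLKW t_REIDX t_WT t_LAG t_PROP t_MEAS t_Q
theorem t_TIES : S_TIES := p_TIES t_UNF2 t_LAG t_Q
theorem t_VV : S_VV := p_VV (p_FD2 t_WT t_PROP t_MEAS) t_SV t_VFIN t_PROP t_MEAS t_Q
theorem t_LOC2 : S_LOC2 := p_LOC2 t_BERG t_IK
theorem t_JLOC2 : S_JLOC2 := p_JLOC2 t_MOVE t_DEC t_LAG t_Q
theorem t_JUP2 : S_JUP2 :=
  p_JUP2 t_FIL t_UBD t_LOC2 t_JLOC2 t_PROJ t_NRM t_BDD t_UNF1 t_VFIN t_PROP t_Q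
theorem t_LOW2 : S_LOW2 := p_LOW2 t_LOW1 t_MUL t_UP t_JUP2 t_PROP
theorem t_TIE2 : S_TIE2 := p_TIE2 t_PAIR t_TIES t_EI t_UNF1 t_VFIN t_PROP t_LAG t_Q
theorem t_SEC : S_SEC := p_SEC t_PAIR t_RS t_ELL t_UNF1 t_EXT t_QC t_VFIN t_PROP t_LAG t_Q
theorem t_LIP : S_LIP := p_LIP t_UNF1 t_EXT t_VFIN t_PROP t_Q
theorem t_MNA : S_MNA := p_MNA t_UP t_LOW2 t_TIE2 t_EI t_VV t_LIP t_SV t_PROP
theorem t_MNB : S_MNB := p_MNB t_UP t_LOW2 t_SEC t_LIP t_SV t_PROP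
theorem t_FDex : S_FD1 := p_FD1 t_Q t_QC t_PROP t_MEAS

end Pool.Agent.P.MP_59bdab_ag
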