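import Pool.Agent.P.MP_59bdab_ag.IfC
import Pool.Agent.P.MP_59bdab_ag.Sys.Defs

/-!
Statements for the bounds on the volume of `M - σ D` outside the nef cone.
-/

namespace Pool.Agent.P.MP_59bdab_ag

open Matrix MeasureTheory Filter Topology
open scoped ENNReal ComplexOrder

section
variable {ι : Type} [Fintype ι] [DecidableEq ι]

/-- The region where `(e_i, 0)` is short and almost shortest among the vectors orthogonal to it. -/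
def RR2 (i : ι) (s ε : ℝ) : Set (HH ι) :=
  {Z | qf (Qm Z) (ev i) ≤ s + ε ∧
    ∀ v : ι ⊕ ι → ℤ, v ≠ 0 → om (ev i) v = 0 → qf (Qm Z) (ev i) - 2 * ε ≤ qf (Qm Z) v}

/-- An integrable majorant on the quotient by `st1 i`. -/
noncomputable def DJ2 (i : ι) (a : ℝ) (Z : HH ι) : ℝ :=
  min 1 ((a / qf (Qm Z) (ev i)) ^ (Fintype.card ι + 1))

/-- The number of vectors `u` with `om (ev i) u = ν`, not multiples of `ev i`, of norm `≤ R`. -/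
noncomputable def pc (i : ι) (ν : ℤ) (Z : HH ι) (R : ℝ) : ℝ≥0∞ :=
  ∑' u : {u : ι ⊕ ι → ℤ | om (ev i) u = ν ∧ ∀ c : ℤ, u ≠ c • ev i},
    (Set.Iic R).indicator 1 (qf (Qm Z) u.1)

end

/-- The volume of the ball of dimension `2 n` and squared radius `R`. -/
noncomputable def el (n : ℕ) (R : ℝ) : ℝ≥0∞ :=
  if 0 ≤ R then ENNReal.ofReal (Real.pi ^ n / n.factorial * R ^ n) else 0

/-- The sum in the error term. -/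
noncomputable def esum (n : ℕ) (s : ℝ) : ℝ :=
  bv n * ∑ a ∈ Finset.Icc 1 ⌊s⌋₊,
    ∫ q in (a : ℝ)..s, (q ^ 2 - (a : ℝ) ^ 2) ^ (((n + 1 : ℕ) : ℝ) - 1 / 2) / q

-- deps: BERG IK
-- imports: Pool.Agent.P.MP_59bdab_ag.LOC
def S_LOC2 : Prop := ∀ (ι : Type) [Fintype ι] [DecidableEq ι] (A : ℕ) (s0 C θ : ℝ), 0 < s0 →
    0 ≤ C → 0 ≤ θ → θ < 1 → ∃ η : ℕ → ℝ≥0∞, Tendsto η atTop (𝓝 0) ∧ ∀ᶠ k in atTop,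
    ∀ (G : Subgroup (SpZ ι)) (w : HH ι → ℝ≥0∞) (R : Set (HH ι)) (D : HH ι → ℝ)
      (f : (Sym2 ι → ℂ) → ℂ) (s : Finset ℕ) (φ : ℕ → (Sym2 ι → ℂ) → ℂ), IsWt G (HH ι) w →
      Disjoint R (Short ι s0) → (∀ Z, 0 ≤ D Z ∧ D Z ≤ 1) →
      ∫⁻ Z, ENNReal.ofReal (D Z) * w Z ∂μH ι ≠ ⊤ → s.card ≤ A * k →
      (∀ Z : HH ι, f Z.1 = ∑ j ∈ s, φ j Z.1) →
      (∀ j ∈ s, Mod G k (φ j) ∧ nrm w k (φ j) ≤ nrm w k f ∧ Loc R D C θ k (φ j)) →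
      Mod G k f ∧ nrm w k f ≠ ⊤ ∧
        ∀ Z, Z ∉ R → ENNReal.ofReal (FF k f Z) ≤ η k * ENNReal.ofReal (D Z) * nrm w k f

-- deps: MOVE DEC LAG Q
-- imports: Pool.Agent.P.MP_59bdab_ag.JLOC
def S_JLOC2 : Prop := ∀ (ι : Type) [Fintype ι] [DecidableEq ι] (i : ι) (s0 s ε : ℝ), 0 < ε →
    ε < s0 → ∃ C θ : ℝ, 0 ≤ C ∧ 0 ≤ θ ∧ θ < 1 ∧
    ∀ (k j : ℕ) (f : (Sym2 ι → ℂ) → ℂ), Fintype.card ι + 1 ≤ k → s0 ≤ 4 * Real.pi * j / k →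
      4 * Real.pi * j / k ≤ s → Mod (st1 i) k f → Van j f → Eig i j f → (∃ M, ∀ Z, FF k f Z ≤ M) →
      Loc (RR2 i s ε ∩ {Z | s0 - ε ≤ qf (Qm Z) (ev i)}) (DJ2 i (Real.exp 1 * s)) C θ k f

-- deps: FIL UBD LOC2 JLOC2 PROJ NRM BDD UNF1 VFIN PROP Q
-- imports: Pool.Agent.P.MP_59bdab_ag.JUP
def S_JUP2 : Prop := ∀ (ι : Type) [Fintype ι] [DecidableEq ι] (i : ι) (w : HH ι → ℝ≥0∞)
    (k a m : ℕ → ℕ) (s0 s ε : ℝ), IsWt (st1 i) (HH ι) w → Tendsto k atTop atTop → 0 < ε →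
    3 * ε < s0 → s0 ≤ s →
    (∀ᶠ n in atTop, s0 ≤ 4 * Real.pi * a n / k n ∧ a n ≤ m n ∧ 4 * Real.pi * m n / k n ≤ s ∧
      FiniteDimensional ℂ (SF ι (k n) (a n))) →
    ∀ δ > 0, ∀ᶠ n in atTop, (Module.finrank ℂ (SF ι (k n) (a n)) : ℝ) ≤
      Module.finrank ℂ (SF ι (k n) (m n)) +
        (cg (Fintype.card ι) * (mass w (RR2 i s ε)).toReal + δ) * (k n : ℝ) ^ tri (Fintype.card ι)

-- deps: LOW1 MUL UP JUP2 PROP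
def S_LOW2 : Prop := ∀ (ι : Type) [Fintype ι] [DecidableEq ι] (i : ι) (w : HH ι → ℝ≥0∞)
    (k m : ℕ → ℕ) (s0 s L : ℝ), IsWt (st1 i) (HH ι) w → Tendsto k atTop atTop →
    (∀ n, Even (Fintype.card ι * k n)) → 0 < s0 → s0 ≤ s →
    (∀ δ > 0, ∀ ε0 > 0, ∃ ε, 0 < ε ∧ ε < ε0 ∧ (mass w (RR2 i s ε)).toReal ≤ L + δ) →
    (∀ᶠ n in atTop, s0 ≤ 4 * Real.pi * m n / k n ∧ 4 * Real.pi * m n / k n ≤ s) →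
    ∀ ε > 0, ∀ᶠ n in atTop,
      (cg (Fintype.card ι) * (2 * (vol ι).toReal - L) - ε) *
        (k n : ℝ) ^ tri (Fintype.card ι) ≤ Module.finrank ℂ (SF ι (k n) (m n))

-- deps:
-- imports: Pool.Agent.P.MP_59bdab_ag.BLKM
def S_BOX : Prop :=
    (∀ (ν : ℤ) (c : ℝ) (f : ℝ → ℝ≥0∞), ν ≠ 0 → Measurable f →
      ∫⁻ X in Set.Ico (0 : ℝ) 1, ∑' μ : ℤ, f (μ - ν * X - c) = ∫⁻ t, f t) ∧
    (∀ (κ : Type) [Fintype κ] (ν : ℤ) (f : (κ → ℝ) → ℝ≥0∞), ν ≠ 0 → Measurable f →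
      ∫⁻ ζ in ubox κ, ∑' a : κ → ℤ, f (cz a + (ν : ℝ) • ζ) = ∫⁻ x, f x) ∧
    ∀ (κ : Type) [Fintype κ] (a : κ → ℤ) (c : ℝ) (f : ℝ → ℝ≥0∞), a ≠ 0 → Measurable f →
      ∫⁻ ζ in ubox κ, ∑' μ : ℤ, f (μ - ζ ⬝ᵥ cz a - c) = ∫⁻ t, f t

-- deps:
-- imports: Pool.Agent.P.MP_59bdab_ag.CNT
def S_ELL : Prop := ∀ n : ℕ, Measurable (el n) ∧ Monotone (el n) ∧
    (∀ (ι : Type) [Fintype ι] [DecidableEq ι] (Q : Matrix (ι ⊕ ι) (ι ⊕ ι) ℝ) (R : ℝ),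
      Fintype.card ι = n → Q.PosDef → Q.det = 1 →
      ∫⁻ b : ι → ℝ, ∫⁻ a : ι → ℝ,
        (Set.Iic R).indicator 1 (Sum.elim a b ⬝ᵥ Q *ᵥ Sum.elim a b) = el n R) ∧
    (∀ A q : ℝ, 0 < q → ∫⁻ t : ℝ, el n (A - q * t ^ 2) =
      ENNReal.ofReal (bv n * max A 0 ^ (((n + 1 : ℕ) : ℝ) - 1 / 2) / √q)) ∧
    (∀ A q : ℝ, 0 < q → ∫⁻ x : ℝ, ∫⁻ t : ℝ, el n (A - x ^ 2 / q - q * t ^ 2) = el (n + 1) A) ∧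
    0 ≤ bv n

-- deps: UNF1 CNT EXT VFIN PROP Q
-- imports: Pool.Agent.P.MP_59bdab_ag.SV
def S_SIE : Prop := ∀ (n : ℕ) (w : HH (Fin n) → ℝ≥0∞) (R : ℝ), IsWt (SpZ (Fin n)) (HH (Fin n)) w →
    ∫⁻ Z, (∑' u : {u : Fin n ⊕ Fin n → ℤ | u ≠ 0}, (Set.Iic R).indicator 1 (qf (Qm Z) u.1)) *
      w Z ∂μH (Fin n) ≤ vol (Fin n) * el n R

-- deps: ASM INV MEAS Q
-- imports: Pool.Agent.P.MP_59bdab_ag.BLKM Pool.Agent.P.MP_59bdab_ag.UNF1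
def S_BLK2 : Prop := ∀ (ι : Type) [Fintype ι] [DecidableEq ι]
    (G : HH ι × ℝ × (ι → ℝ) × (ι → ℝ) × ℝ → ℝ≥0∞), Measurable G →
    ∫⁻ Z : HH (ι ⊕ Fin 1), G (bT Z, qf (Qm Z) (ev (Sum.inr 0)), fun a => bXi Z a 0,
        fun a => bEta Z a 0, bX Z s(0, 0)) ∂μH (ι ⊕ Fin 1) =
      ∫⁻ τ, (∫⁻ q in Set.Ioi (0 : ℝ), ENNReal.ofReal (q ^ Fintype.card ι) *
        ∫⁻ ξ, ∫⁻ η, ∫⁻ X, G (τ, q, ξ, η, X)) ∂μH ι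

-- deps:
-- imports: Pool.Agent.P.MP_59bdab_ag.BLKM
def S_QB : Prop := ∀ (ι : Type) [Fintype ι] [DecidableEq ι] (Z : HH (ι ⊕ Fin 1))
    (q X : ℝ) (ξ η : ι → ℝ) (m n : ι → ℤ) (μ ν : ℤ), q = qf (Qm Z) (ev (Sum.inr 0)) →
    (ξ = fun a => bXi Z a 0) → (η = fun a => bEta Z a 0) → X = bX Z s(0, 0) →
    qf (Qm Z) (Sum.elim (Sum.elim m fun _ => μ) (Sum.elim n fun _ => ν)) =
      Sum.elim (cz m - (ν : ℝ) • η) (cz n + (ν : ℝ) • ξ) ⬝ᵥ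
          Qm (bT Z) *ᵥ Sum.elim (cz m - (ν : ℝ) • η) (cz n + (ν : ℝ) • ξ) +
        q * (μ - ν * X - (η ⬝ᵥ cz n + ξ ⬝ᵥ cz m - ν * (ξ ⬝ᵥ η + ξ ⬝ᵥ Xm (bT Z) *ᵥ ξ))) ^ 2 +
        ν ^ 2 / q

-- deps: BOX ELL Q
-- imports: Pool.Agent.P.MP_59bdab_ag.BLKM
def S_FIB : Prop := ∀ (ι : Type) [Fintype ι] [DecidableEq ι] (τ : HH ι) (q R : ℝ) (ν : ℤ), 0 < q →
    ν ≠ 0 →
    ∫⁻ ξ in ubox ι, ∫⁻ η in ubox ι, ∫⁻ X in Set.Ico (0 : ℝ) 1,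
      ∑' u : (ι → ℤ) × (ι → ℤ) × ℤ, (Set.Iic R).indicator (1 : ℝ → ℝ≥0∞)
        (Sum.elim (cz u.1 - (ν : ℝ) • η) (cz u.2.1 + (ν : ℝ) • ξ) ⬝ᵥ
            Qm τ *ᵥ Sum.elim (cz u.1 - (ν : ℝ) • η) (cz u.2.1 + (ν : ℝ) • ξ) +
          q * (u.2.2 - ν * X -
            (η ⬝ᵥ cz u.2.1 + ξ ⬝ᵥ cz u.1 - ν * (ξ ⬝ᵥ η + ξ ⬝ᵥ Xm τ *ᵥ ξ))) ^ 2 + ν ^ 2 / q) =
      ∫⁻ t : ℝ, el (Fintype.card ι) (R - ν ^ 2 / q - q * t ^ 2)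

-- deps: BOX
-- imports: Pool.Agent.P.MP_59bdab_ag.BLKM
def S_FIB0 : Prop := ∀ (ι : Type) [Fintype ι] [DecidableEq ι] (q R c : ℝ) (m n : ι → ℤ),
    (m, n) ≠ 0 →
    ∫⁻ ξ in ubox ι, ∫⁻ η in ubox ι, ∑' μ : ℤ, (Set.Iic R).indicator (1 : ℝ → ℝ≥0∞)
        (c + q * (μ - (η ⬝ᵥ cz n + ξ ⬝ᵥ cz m)) ^ 2) =
      ∫⁻ t : ℝ, (Set.Iic (R - q * t ^ 2)).indicator 1 c

-- deps: BLK2 QB FIB FIB0 SIE ELL LAG PROP Q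
-- imports: Pool.Agent.P.MP_59bdab_ag.BLKM
def S_PAIR0 : Prop := ∀ (n : ℕ) (w : HH (Fin n) → ℝ≥0∞) (β : ℝ → ℝ≥0∞) (T : ℝ → ℝ) (ν : ℤ),
    IsWt (SpZ (Fin n)) (HH (Fin n)) w → Measurable β → Measurable T →
    ∫⁻ Z : HH (Fin n ⊕ Fin 1), β (qf (Qm Z) (ev (Sum.inr 0))) *
        pc (Sum.inr 0) ν Z (T (qf (Qm Z) (ev (Sum.inr 0)))) * wB w Z ∂μH (Fin n ⊕ Fin 1) ≤
      vol (Fin n) * ∫⁻ q in Set.Ioi (0 : ℝ), β q * ENNReal.ofReal (q ^ n) *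
        ∫⁻ t : ℝ, el n (T q - ν ^ 2 / q - q * t ^ 2)

-- deps: PAIR0 BLKW REIDX WT LAG PROP MEAS Q
-- imports: Pool.Agent.P.MP_59bdab_ag.UNF Pool.Agent.P.MP_59bdab_ag.JUP
def S_PAIR : Prop := ∀ (ι : Type) [Fintype ι] [DecidableEq ι] (i : ι) (w : HH ι → ℝ≥0∞)
    (β : ℝ → ℝ≥0∞) (T : ℝ → ℝ) (ν : ℤ), IsWt (st1 i) (HH ι) w → Measurable β → Measurable T →
    (Measurable fun Z : HH ι => pc i ν Z (T (qf (Qm Z) (ev i)))) ∧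
    ∫⁻ Z, β (qf (Qm Z) (ev i)) * pc i ν Z (T (qf (Qm Z) (ev i))) * w Z ∂μH ι ≤
      vol (Fin (Fintype.card ι - 1)) * ∫⁻ q in Set.Ioi (0 : ℝ),
        β q * ENNReal.ofReal (q ^ (Fintype.card ι - 1)) *
          ∫⁻ t : ℝ, el (Fintype.card ι - 1) (T q - ν ^ 2 / q - q * t ^ 2)

-- deps: UNF2 LAG Q
-- imports: Pool.Agent.P.MP_59bdab_ag.UNF1
def S_TIES : Prop := ∀ (ι : Type) [Fintype ι] [DecidableEq ι] (w : HH ι → ℝ≥0∞),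
    IsWt (SpZ ι) (HH ι) w → ∀ᵐ Z ∂(μH ι).withDensity w, ∀ u v : ι ⊕ ι → ℤ, u ≠ 0 → om u v = 0 →
      qf (Qm Z) v = qf (Qm Z) u → v = u ∨ v = -u

-- deps: ELL
-- imports: Pool.Agent.P.MP_59bdab_ag.SV
def S_EI : Prop := ∀ (n : ℕ) (s : ℝ), 0 ≤ esum n s ∧ ContinuousWithinAt (esum n) (Set.Ici s) s ∧
    ∑ a ∈ Finset.Icc 1 ⌊s⌋₊, ∫⁻ q in Set.Ioi (0 : ℝ), (Set.Iic s).indicator 1 q *
      ENNReal.ofReal (q ^ n) * ∫⁻ t : ℝ, el n (q - ((a : ℤ) : ℝ) ^ 2 / q - q * t ^ 2) =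
      ENNReal.ofReal (esum n s)

-- deps: PAIR TIES EI UNF1 VFIN PROP LAG Q
-- imports: Pool.Agent.P.MP_59bdab_ag.TIE Pool.Agent.P.MP_59bdab_ag.JUP Pool.Agent.P.MP_59bdab_ag.UNF1
def S_TIE2 : Prop := ∀ (ι : Type) [Fintype ι] [DecidableEq ι] (i : ι) (w w₁ : HH ι → ℝ≥0∞)
    (s s' : ℝ), IsWt (SpZ ι) (HH ι) w → IsWt (st1 i) (HH ι) w₁ → s < s' →
    ∀ δ > 0, ∀ ε0 > 0, ∃ ε, 0 < ε ∧ ε < ε0 ∧
      (mass w₁ (RR2 i s ε)).toReal ≤ (2 * (mass w (Short ι s')).toReal +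
        (vol (Fin (Fintype.card ι - 1))).toReal * esum (Fintype.card ι - 1) s) + δ

-- deps: ELL
-- imports: Pool.Agent.P.MP_59bdab_ag.SV
def S_RS : Prop := ∀ (n : ℕ) (s : ℝ), 0 < s →
    ∑' ν : ℤ, ∫⁻ q in Set.Ioi (0 : ℝ), (Set.Iio s).indicator 1 q * ENNReal.ofReal (q ^ n) *
      ∫⁻ t : ℝ, el n (s - ν ^ 2 / q - q * t ^ 2) ≤
      ENNReal.ofReal (s ^ (n + 1) / (n + 1) * (Real.pi ^ (n + 1) / (n + 1).factorial * s ^ (n + 1)) +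
        bv n * s ^ (2 * n + 1) / (n + 1 / 2))

-- deps: PAIR RS ELL UNF1 EXT QC VFIN PROP LAG Q
-- imports: Pool.Agent.P.MP_59bdab_ag.TIE Pool.Agent.P.MP_59bdab_ag.JUP Pool.Agent.P.MP_59bdab_ag.SV Pool.Agent.P.MP_59bdab_ag.UNF1
def S_SEC : Prop := ∀ (n j : ℕ) (w : HH (Fin (n + 1)) → ℝ≥0∞) (s : ℝ),
    IsWt (SpZ (Fin (n + 1))) (HH (Fin (n + 1))) w → 0 < s →
    4 * j * ((vol (Fin n)).toReal * (s ^ (n + 1) / (n + 1))) ≤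
      4 * j * (j + 1) * (mass w (Short (Fin (n + 1)) s)).toReal + (vol (Fin n)).toReal *
        (s ^ (n + 1) / (n + 1) * (Real.pi ^ (n + 1) / (n + 1).factorial * s ^ (n + 1)) +
          bv n * s ^ (2 * n + 1) / (n + 1 / 2))

-- deps: UNF1 EXT VFIN PROP Q
-- imports: Pool.Agent.P.MP_59bdab_ag.TIE Pool.Agent.P.MP_59bdab_ag.JUP Pool.Agent.P.MP_59bdab_ag.SV
def S_LIP : Prop := ∀ (n : ℕ) (w w₁ : HH (Fin (n + 1)) → ℝ≥0∞),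
    IsWt (SpZ (Fin (n + 1))) (HH (Fin (n + 1))) w → IsWt (st1 (0 : Fin (n + 1))) (HH (Fin (n + 1))) w₁ →
    (∀ a b : ℝ, 0 ≤ a → a ≤ b → (mass w (Short (Fin (n + 1)) b)).toReal ≤
      (mass w (Short (Fin (n + 1)) a)).toReal +
        (vol (Fin n)).toReal * ((b ^ (n + 1) - a ^ (n + 1)) / (n + 1))) ∧
    (∀ s : ℝ, (mass w (Short (Fin (n + 1)) s)ᶜ).toReal =
      (vol (Fin (n + 1))).toReal - (mass w (Short (Fin (n + 1)) s)).toReal) ∧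
    ∀ s ε : ℝ, 0 ≤ s + ε → (mass w₁ (RR2 0 s ε)).toReal ≤
      (vol (Fin n)).toReal * ((s + ε) ^ (n + 1) / (n + 1))

-- deps: FD2 SV VFIN PROP MEAS Q
-- imports: Pool.Agent.P.MP_59bdab_ag.JUP
def S_VV : Prop := ∀ (g : ℕ) (F : Set (Sym2 (Fin g) → ℂ)) (w : HH (Fin g) → ℝ≥0∞) (s : ℝ), 1 ≤ g →
    FD F → IsWt (SpZ (Fin g)) (HH (Fin g)) w →
    hh g * (vv F s / vv F 0) = cg g * (mass w (Short (Fin g) s)ᶜ).toReal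

-- deps: UP LOW2 TIE2 EI VV LIP SV PROP
-- imports: Pool.Agent.P.MP_59bdab_ag.SV Pool.Agent.P.MP_59bdab_ag.MAIN
def S_MNA : Prop := ∀ (g : ℕ), 1 ≤ g → ∀ σ : ℝ, 0 < σ → ∀ k m : ℕ → ℕ, Tendsto k atTop atTop →
    Tendsto (fun n => (m n : ℝ) / k n) atTop (𝓝 σ) → (∀ n, Even (g * k n)) →
    ∀ F : Set (Sym2 (Fin g) → ℂ), FD F →
    (∀ᶠ n in atTop, FiniteDimensional ℂ (SF (Fin g) (k n) (m n))) ∧ ∀ ε > 0, ∀ᶠ n in atTop,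
      2 * hh g * (vv F (4 * Real.pi * σ) / vv F 0) - err g (4 * Real.pi * σ) - ε ≤
        (Module.finrank ℂ (SF (Fin g) (k n) (m n)) : ℝ) / (k n : ℝ) ^ tri g ∧
      (Module.finrank ℂ (SF (Fin g) (k n) (m n)) : ℝ) / (k n : ℝ) ^ tri g ≤
        2 * hh g * (vv F (4 * Real.pi * σ) / vv F 0) + ε

-- deps: UP LOW2 SEC LIP SV PROP
-- imports: Pool.Agent.P.MP_59bdab_ag.SV Pool.Agent.P.MP_59bdab_ag.MAIN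
def S_MNB : Prop := ∀ (g : ℕ), 1 ≤ g → ∀ σ : ℝ, 0 < σ → ∀ k m : ℕ → ℕ, Tendsto k atTop atTop →
    Tendsto (fun n => (m n : ℝ) / k n) atTop (𝓝 σ) → (∀ n, Even (g * k n)) → ∀ j : ℕ, 1 ≤ j →
    (∀ᶠ n in atTop, FiniteDimensional ℂ (SF (Fin g) (k n) (m n))) ∧ ∀ ε > 0, ∀ᶠ n in atTop,
      2 * hh g * (1 - xx g σ) - ε ≤
        (Module.finrank ℂ (SF (Fin g) (k n) (m n)) : ℝ) / (k n : ℝ) ^ tri g ∧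
      (Module.finrank ℂ (SF (Fin g) (k n) (m n)) : ℝ) / (k n : ℝ) ^ tri g ≤
        2 * hh g * (1 - 2 * xx g σ / (j + 1) + kap g σ * xx g σ ^ 2 / (j * (j + 1))) + ε

end Pool.Agent.P.MP_59bdab_ag
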